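import Pool.Agent.Helper5.BEC.Defs
/-! Piece T1: bounded differences with costs. -/
set_option autoImplicit false
namespace Pool.Agent.Helper5.BEC
open Finset Pool.Agent.Helper61.LE

variable {ι Ω : Type*} [Fintype ι] [DecidableEq ι] [Fintype Ω] [DecidableEq Ω]
variable {μ : ι → Ω → ℝ}

/-- exponential moment of a variable on one coordinate, with costs -/
theorem one_coord2 {Y m c : Ω → ℝ} (hm : ∀ a, 0 ≤ m a) (hm1 : ∑ a, m a = 1)
    {l : ℝ} (hl : 0 ≤ l) (hlc : ∀ a, l * c a ≤ 1 / 2)
    (hc : ∀ a b, |Y a - Y b| ≤ c a + c b) :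
    ∑ a, m a * Real.exp (l * Y a) ≤
      Real.exp (l * (∑ a, m a * Y a) + 4 * l ^ 2 * ∑ a, m a * c a ^ 2) := by
  set E := ∑ a, m a * Y a with hE
  -- Jensen
  have hJ : Real.exp (-(l * E)) ≤ ∑ b, m b * Real.exp (-(l * Y b)) := by
    have h1 : ∀ b, m b * (Real.exp (-(l * E)) * (1 + (l * E - l * Y b))) ≤
        m b * Real.exp (-(l * Y b)) := by
      intro b
      refine mul_le_mul_of_nonneg_left ?_ (hm b)
      have h2 : Real.exp (-(l * Y b)) = Real.exp (-(l * E)) * Real.exp (l * E - l * Y b) := by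
        rw [← Real.exp_add]
        congr 1
        ring
      rw [h2]
      refine mul_le_mul_of_nonneg_left ?_ (Real.exp_pos _).le
      have := Real.add_one_le_exp (l * E - l * Y b)
      linarith
    refine le_trans (le_of_eq ?_) (Finset.sum_le_sum fun b _ => h1 b)
    have h3 : ∀ b, m b * (Real.exp (-(l * E)) * (1 + (l * E - l * Y b))) =
        Real.exp (-(l * E)) * (1 + l * E) * m b - Real.exp (-(l * E)) * l * (m b * Y b) := by
      intro b
      ring
    simp only [h3]
    rw [Finset.sum_sub_distrib, ← Finset.mul_sum, ← Finset.mul_sum, hm1, ← hE]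
    ring
  have hexp : ∀ a b, Real.exp (l * (Y a - Y b)) ≤
      1 + l * (Y a - Y b) + l ^ 2 * (2 * c a ^ 2 + 2 * c b ^ 2) := by
    intro a b
    have hx : |l * (Y a - Y b)| ≤ 1 := by
      rw [abs_mul, abs_of_nonneg hl]
      have := mul_le_mul_of_nonneg_left (hc a b) hl
      have h1 := hlc a
      have h2 := hlc b
      nlinarith
    have h1 := Real.abs_exp_sub_one_sub_id_le hx
    rw [abs_le] at h1
    have h2 : (l * (Y a - Y b)) ^ 2 ≤ l ^ 2 * (2 * c a ^ 2 + 2 * c b ^ 2) := by
      rw [mul_pow]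
      refine mul_le_mul_of_nonneg_left ?_ (sq_nonneg l)
      rw [← sq_abs]
      have h3 : |Y a - Y b| ^ 2 ≤ (c a + c b) ^ 2 :=
        pow_le_pow_left₀ (abs_nonneg _) (hc a b) 2
      nlinarith [sq_nonneg (c a - c b)]
    linarith [h1.2]
  have hprod : (∑ b, m b * Real.exp (-(l * Y b))) * (∑ a, m a * Real.exp (l * Y a)) ≤
      1 + 4 * l ^ 2 * ∑ a, m a * c a ^ 2 := by
    rw [Finset.sum_mul_sum]
    have h1 : ∀ b a, m b * Real.exp (-(l * Y b)) * (m a * Real.exp (l * Y a)) ≤
        m b * m a * (1 + l * (Y a - Y b) + l ^ 2 * (2 * c a ^ 2 + 2 * c b ^ 2)) := by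
      intro b a
      have h2 : m b * Real.exp (-(l * Y b)) * (m a * Real.exp (l * Y a)) =
          m b * m a * Real.exp (l * (Y a - Y b)) := by
        rw [show l * (Y a - Y b) = -(l * Y b) + l * Y a by ring, Real.exp_add]
        ring
      rw [h2]
      exact mul_le_mul_of_nonneg_left (hexp a b) (mul_nonneg (hm b) (hm a))
    refine (Finset.sum_le_sum fun b _ => Finset.sum_le_sum fun a _ => h1 b a).trans (le_of_eq ?_)
    have h3 : ∀ b a, m b * m a * (1 + l * (Y a - Y b) + l ^ 2 * (2 * c a ^ 2 + 2 * c b ^ 2)) =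
        m b * m a + l * (m b * (m a * Y a)) - l * ((m b * Y b) * m a) +
          2 * l ^ 2 * (m b * (m a * c a ^ 2)) + 2 * l ^ 2 * ((m b * c b ^ 2) * m a) := by
      intro b a
      ring
    simp only [h3, Finset.sum_add_distrib, Finset.sum_sub_distrib, ← Finset.mul_sum,
      ← Finset.sum_mul, hm1]
    ring
  have hpos : 0 ≤ ∑ a, m a * Real.exp (l * Y a) :=
    Finset.sum_nonneg fun a _ => mul_nonneg (hm a) (Real.exp_pos _).le
  have hfin : Real.exp (-(l * E)) * (∑ a, m a * Real.exp (l * Y a)) ≤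
      Real.exp (4 * l ^ 2 * ∑ a, m a * c a ^ 2) := by
    refine (mul_le_mul_of_nonneg_right hJ hpos).trans (hprod.trans ?_)
    have := Real.add_one_le_exp (4 * l ^ 2 * ∑ a, m a * c a ^ 2)
    linarith
  calc ∑ a, m a * Real.exp (l * Y a)
      = Real.exp (l * E) * (Real.exp (-(l * E)) * (∑ a, m a * Real.exp (l * Y a))) := by
        rw [← mul_assoc, ← Real.exp_add]
        simp
    _ ≤ Real.exp (l * E) * Real.exp (4 * l ^ 2 * ∑ a, m a * c a ^ 2) :=
        mul_le_mul_of_nonneg_left hfin (Real.exp_pos _).le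
    _ = _ := by rw [← Real.exp_add]

/-- exponential moments for bounded differences with costs `c i a` -/
theorem mgf2 (h : IsProb μ) (c : ι → Ω → ℝ) {l : ℝ} (hl : 0 ≤ l) (hc0 : ∀ i a, 0 ≤ c i a)
    (hlc : ∀ i a, l * c i a ≤ 1 / 2) (S : Finset ι) :
    ∀ f : (ι → Ω) → ℝ, Dep f S →
      (∀ i ∈ S, ∀ ω a b, |f (Function.update ω i a) - f (Function.update ω i b)| ≤ c i a + c i b) →
      EE μ (fun ω => Real.exp (l * f ω)) ≤
        Real.exp (l * EE μ f + 4 * l ^ 2 * ∑ i ∈ S, ∑ a, μ i a * c i a ^ 2) := by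
  classical
  induction S using Finset.induction_on with
  | empty =>
    intro f hf _
    have : ∀ ω ω', f ω = f ω' := fun ω ω' => hf ω ω' (by simp)
    by_cases hne : Nonempty (ι → Ω)
    · obtain ⟨ω₀⟩ := hne
      have h1 : f = fun _ => f ω₀ := funext fun ω => this ω ω₀
      rw [h1]
      simp only [EE_const h]
      simp
    · have h1 : EE μ (fun ω => Real.exp (l * f ω)) = 0 := by
        unfold EE
        have : IsEmpty (ι → Ω) := not_nonempty_iff.1 hne
        simp
      rw [h1]
      exact (Real.exp_pos _).le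
  | insert i S hi ih =>
    intro f hf hc
    let g : (ι → Ω) → ℝ := fun ω => ∑ a, μ i a * f (Function.update ω i a)
    have h1 : EE μ (fun ω => Real.exp (l * f ω)) ≤
        EE μ (fun ω => Real.exp (4 * l ^ 2 * ∑ a, μ i a * c i a ^ 2) * Real.exp (l * g ω)) := by
      rw [← EE_resample h i]
      refine EE_mono h fun ω => ?_
      have := one_coord2 (Y := fun a => f (Function.update ω i a)) (c := c i)
        (h.nonneg i) (h.sum_one i) hl (hlc i)
        (fun a b => hc i (Finset.mem_insert_self _ _) ω a b)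
      refine this.trans (le_of_eq ?_)
      rw [← Real.exp_add]
      congr 1
      simp only [g]
      ring
    have hgdep : Dep g S := by
      intro ω ω' hω
      simp only [g]
      refine Finset.sum_congr rfl fun a _ => ?_
      congr 1
      apply hf
      intro j hj
      by_cases hji : j = i
      · subst hji
        simp
      · rw [Function.update_of_ne hji, Function.update_of_ne hji]
        exact hω j ((Finset.mem_insert.1 hj).resolve_left hji)
    have hEg : EE μ g = EE μ f := EE_resample h i f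
    have h2 := ih g hgdep
      (fun j hj ω a b => by
        have hji : j ≠ i := fun e => hi (e ▸ hj)
        simp only [g]
        rw [← Finset.sum_sub_distrib]
        calc |∑ a', (μ i a' * f (Function.update (Function.update ω j a) i a') -
              μ i a' * f (Function.update (Function.update ω j b) i a'))|
            ≤ ∑ a', |μ i a' * f (Function.update (Function.update ω j a) i a') -
              μ i a' * f (Function.update (Function.update ω j b) i a')| :=
              Finset.abs_sum_le_sum_abs _ _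
          _ ≤ ∑ a', μ i a' * (c j a + c j b) := by
              refine Finset.sum_le_sum fun a' _ => ?_
              rw [← mul_sub, abs_mul, abs_of_nonneg (h.nonneg i a')]
              apply mul_le_mul_of_nonneg_left _ (h.nonneg i a')
              rw [Function.update_comm hji, Function.update_comm hji]
              exact hc j (Finset.mem_insert_of_mem hj) _ a b
          _ = c j a + c j b := by rw [← Finset.sum_mul, h.sum_one, one_mul])
    refine h1.trans ?_
    rw [EE_const_mul]
    refine (mul_le_mul_of_nonneg_left h2 (Real.exp_pos _).le).trans (le_of_eq ?_)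
    rw [← Real.exp_add, hEg, Finset.sum_insert hi]
    congr 1
    ring

/-- one-sided tail bound -/
theorem tail1 (h : IsProb μ) (c : ι → Ω → ℝ) (f : (ι → Ω) → ℝ) {m L t : ℝ}
    (hc0 : ∀ i a, 0 ≤ c i a) (hm : ∀ i a, c i a ≤ m) (hm0 : 0 < m)
    (hL : ∑ i, ∑ a, μ i a * c i a ≤ L) (hL0 : 0 < L) (ht : 0 ≤ t) (htL : t ≤ 4 * L)
    (hf : ∀ i ω a b, |f (Function.update ω i a) - f (Function.update ω i b)| ≤ c i a + c i b) :
    PP μ (fun ω => t ≤ f ω - EE μ f) ≤ Real.exp (-(t ^ 2 / (16 * m * L))) := by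
  set l : ℝ := t / (8 * m * L) with hl
  have hl0 : 0 ≤ l := by positivity
  have hlm : l * m ≤ 1 / 2 := by
    rw [hl, div_mul_eq_mul_div, div_le_iff₀ (by positivity)]
    nlinarith
  have hlc : ∀ i a, l * c i a ≤ 1 / 2 := fun i a =>
    (mul_le_mul_of_nonneg_left (hm i a) hl0).trans hlm
  refine (PP_ge_le_exp h _ t l hl0).trans ?_
  have h1 : EE μ (fun ω => Real.exp (l * (f ω - EE μ f))) =
      Real.exp (-(l * EE μ f)) * EE μ (fun ω => Real.exp (l * f ω)) := by
    rw [← EE_const_mul]
    refine EE_congr fun ω => ?_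
    rw [← Real.exp_add]
    congr 1
    ring
  have h2 := mgf2 h c hl0 hc0 hlc Finset.univ f (fun ω ω' hω => by
    rw [show ω = ω' from funext fun i => hω i (Finset.mem_univ i)]) (fun i _ => hf i)
  have h3 : ∑ i, ∑ a, μ i a * c i a ^ 2 ≤ m * L := by
    calc ∑ i, ∑ a, μ i a * c i a ^ 2 ≤ ∑ i, ∑ a, m * (μ i a * c i a) := by
          refine Finset.sum_le_sum fun i _ => Finset.sum_le_sum fun a _ => ?_
          have := mul_le_mul_of_nonneg_left (hm i a) (mul_nonneg (h.nonneg i a) (hc0 i a))
          nlinarith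
      _ = m * ∑ i, ∑ a, μ i a * c i a := by
          simp only [Finset.mul_sum]
      _ ≤ m * L := mul_le_mul_of_nonneg_left hL hm0.le
  rw [h1]
  have h4 : Real.exp (-(l * EE μ f)) * EE μ (fun ω => Real.exp (l * f ω)) ≤
      Real.exp (4 * l ^ 2 * (m * L)) := by
    refine (mul_le_mul_of_nonneg_left h2 (Real.exp_pos _).le).trans ?_
    rw [← Real.exp_add]
    apply Real.exp_le_exp.2
    have := mul_le_mul_of_nonneg_left h3 (show (0:ℝ) ≤ 4 * l ^ 2 by positivity)
    linarith
  refine (mul_le_mul_of_nonneg_left h4 (Real.exp_pos _).le).trans ?_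
  rw [← Real.exp_add]
  apply Real.exp_le_exp.2
  apply le_of_eq
  rw [hl]
  field_simp
  ring

/-- two-sided tail bound -/
theorem tail (h : IsProb μ) (c : ι → Ω → ℝ) (f : (ι → Ω) → ℝ) {m L t : ℝ}
    (hc0 : ∀ i a, 0 ≤ c i a) (hm : ∀ i a, c i a ≤ m) (hm0 : 0 < m)
    (hL : ∑ i, ∑ a, μ i a * c i a ≤ L) (hL0 : 0 < L) (ht : 0 ≤ t) (htL : t ≤ 4 * L)
    (hf : ∀ i ω a b, |f (Function.update ω i a) - f (Function.update ω i b)| ≤ c i a + c i b) :
    PP μ (fun ω => t ≤ |f ω - EE μ f|) ≤ 2 * Real.exp (-(t ^ 2 / (16 * m * L))) := by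
  have h1 := tail1 h c f hc0 hm hm0 hL hL0 ht htL hf
  have h2 := tail1 h c (fun ω => -f ω) hc0 hm hm0 hL hL0 ht htL (fun i ω a b => by
    rw [show -f (Function.update ω i a) - -f (Function.update ω i b) =
      -(f (Function.update ω i a) - f (Function.update ω i b)) by ring, abs_neg]
    exact hf i ω a b)
  have h3 : PP μ (fun ω => t ≤ |f ω - EE μ f|) ≤
      PP μ (fun ω => ∃ k ∈ (Finset.univ : Finset Bool),
        (fun (k : Bool) ω => if k then t ≤ f ω - EE μ f
          else t ≤ -f ω - EE μ (fun ω => -f ω)) k ω) := by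
    refine PP_mono h fun ω hω => ?_
    rw [le_abs] at hω
    rcases hω with hω | hω
    · refine ⟨true, Finset.mem_univ _, ?_⟩
      simp only [if_true]
      exact hω
    · refine ⟨false, Finset.mem_univ _, ?_⟩
      simp only [Bool.false_eq_true, if_false]
      rw [EE_neg]
      linarith
  refine h3.trans ((PP_exists_le h _ _).trans ?_)
  rw [Fintype.sum_bool]
  simp only [if_true, Bool.false_eq_true, if_false]
  linarith

end Pool.Agent.Helper5.BEC
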