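import Pool.Agent.Helper5.BEC.Defs
/-! Piece B1: basic facts: products, the product measure `mu`, bounds for `rho` and `kap`. -/
set_option autoImplicit false
namespace Pool.Agent.Helper5.BEC
open Finset Pool.Agent.Helper61.LE

theorem prod_one_sub_ge {κ : Type*} (s : Finset κ) (x : κ → ℝ) (h0 : ∀ i ∈ s, 0 ≤ x i)
    (h1 : ∀ i ∈ s, x i ≤ 1) : 1 - ∑ i ∈ s, x i ≤ ∏ i ∈ s, (1 - x i) := by
  classical
  induction s using Finset.induction_on with
  | empty => simp
  | insert a s ha ih =>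
    rw [Finset.sum_insert ha, Finset.prod_insert ha]
    have ih' := ih (fun i hi => h0 i (Finset.mem_insert_of_mem hi))
      (fun i hi => h1 i (Finset.mem_insert_of_mem hi))
    have ha0 := h0 a (Finset.mem_insert_self a s)
    have ha1 := h1 a (Finset.mem_insert_self a s)
    have hs : 0 ≤ ∑ i ∈ s, x i := Finset.sum_nonneg fun i hi => h0 i (Finset.mem_insert_of_mem hi)
    have h2 : (1 - x a) * (1 - ∑ i ∈ s, x i) ≤ (1 - x a) * ∏ i ∈ s, (1 - x i) :=
      mul_le_mul_of_nonneg_left ih' (by linarith)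
    have h3 : 0 ≤ x a * ∑ i ∈ s, x i := mul_nonneg ha0 hs
    nlinarith

/-- use `1 - x ≤ exp (-x)` and `exp (-X) ≤ 1 - X + X^2/2` for `X ≥ 0` -/
theorem prod_one_sub_le {κ : Type*} (s : Finset κ) (x : κ → ℝ) (h0 : ∀ i ∈ s, 0 ≤ x i)
    (h1 : ∀ i ∈ s, x i ≤ 1) :
    ∏ i ∈ s, (1 - x i) ≤ 1 - (∑ i ∈ s, x i) + (∑ i ∈ s, x i) ^ 2 / 2 := by
  classical
  induction s using Finset.induction_on with
  | empty => simp
  | insert a s ha ih =>
    rw [Finset.sum_insert ha, Finset.prod_insert ha]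
    have ih' := ih (fun i hi => h0 i (Finset.mem_insert_of_mem hi))
      (fun i hi => h1 i (Finset.mem_insert_of_mem hi))
    have ha0 := h0 a (Finset.mem_insert_self a s)
    have ha1 := h1 a (Finset.mem_insert_self a s)
    have h2 : (1 - x a) * ∏ i ∈ s, (1 - x i) ≤
        (1 - x a) * (1 - (∑ i ∈ s, x i) + (∑ i ∈ s, x i) ^ 2 / 2) :=
      mul_le_mul_of_nonneg_left ih' (by linarith)
    have h3 : 0 ≤ x a * (∑ i ∈ s, x i) ^ 2 := mul_nonneg ha0 (sq_nonneg _)
    have h4 : 0 ≤ x a ^ 2 := sq_nonneg _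
    nlinarith

variable {n : ℕ} {A B : Nb n} {ε D1 D2 δ K0 W γ a ρ l p q : ℝ} {S : St n}

theorem rowsum_le (hI : Inv A B D1 D2 W γ a l p q S) (hγ : 0 ≤ γ) (u : Fin n) :
    ∑ z, S.w u z ≤ 1 + γ := by
  by_cases hu : u ∈ S.U
  · have h := (abs_le.1 (hI.row u hu)).2
    linarith
  · have h : ∑ z, S.w u z = 0 := Finset.sum_eq_zero fun z _ => hI.wU u z hu
    rw [h]
    linarith

theorem colsum_le (hI : Inv A B D1 D2 W γ a l p q S) (hγ : 0 ≤ γ) (z : Fin n) :
    ∑ u, S.w u z ≤ 1 + γ := by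
  by_cases hz : z ∈ S.F
  · have h := (abs_le.1 (hI.col z hz)).2
    linarith
  · have h : ∑ u, S.w u z = 0 := Finset.sum_eq_zero fun u _ => hI.wF u z hz
    rw [h]
    linarith

theorem isProb_mu (hN : Num n ε D1 D2 δ K0 W γ a ρ) (hI : Inv A B D1 D2 W γ a l p q S) :
    IsProb (mu δ S.w) := by
  constructor
  · intro u o
    cases o with
    | none =>
      show 0 ≤ 1 - δ * ∑ z, S.w u z
      have h1 := rowsum_le hI hN.γ0 u
      have h2 : δ * ∑ z, S.w u z ≤ δ * (1 + γ) := mul_le_mul_of_nonneg_left h1 hN.δ0.le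
      have h3 : δ * (1 + γ) ≤ (1 / 100) * (1 + 1 / 50) :=
        mul_le_mul hN.δ1 (by linarith [hN.γ1]) (by linarith [hN.γ0]) (by norm_num)
      linarith
    | some z =>
      show 0 ≤ δ * S.w u z
      exact mul_nonneg hN.δ0.le (hI.w0 u z)
  · intro u
    rw [Fintype.sum_option]
    show 1 - δ * ∑ z, S.w u z + ∑ z, δ * S.w u z = 1
    rw [← Finset.mul_sum]
    ring

theorem rho_nonneg (hI : Inv A B D1 D2 W γ a l p q S) (v y : Fin n) : 0 ≤ rho A B S.w v y := by
  unfold rho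
  exact Finset.sum_nonneg fun u _ => Finset.sum_nonneg fun z _ => hI.w0 u z

/-- `rho v y = ∑_{u ∈ N₁(v) ∩ U} ∑_{z ∈ N₂(y) ∩ F} w u z ≤ (a D1)(a D2) W / n ≤ (1-ε) a² W = ρ` -/
theorem rho_le (hN : Num n ε D1 D2 δ K0 W γ a ρ) (hI : Inv A B D1 D2 W γ a l p q S)
    (v y : Fin n) : rho A B S.w v y ≤ ρ := by
  have hn : (0 : ℝ) < n := by
    have := hN.n1
    exact_mod_cast this
  have hWn : 0 ≤ W / n := div_nonneg (by linarith [hN.W1]) hn.le
  have h1 : rho A B S.w v y = ∑ u ∈ A.N v ∩ S.U, ∑ z ∈ B.N y ∩ S.F, S.w u z := by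
    unfold rho
    rw [← Finset.sum_subset (Finset.inter_subset_left : A.N v ∩ S.U ⊆ A.N v)]
    · refine Finset.sum_congr rfl fun u _ => ?_
      rw [← Finset.sum_subset (Finset.inter_subset_left : B.N y ∩ S.F ⊆ B.N y)]
      intro z hz hz'
      apply hI.wF
      intro h
      exact hz' (Finset.mem_inter.2 ⟨hz, h⟩)
    · intro u hu hu'
      refine Finset.sum_eq_zero fun z _ => hI.wU u z ?_
      intro h
      exact hu' (Finset.mem_inter.2 ⟨hu, h⟩)
  have h2 : ∑ u ∈ A.N v ∩ S.U, ∑ z ∈ B.N y ∩ S.F, S.w u z ≤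
      (#(A.N v ∩ S.U) : ℝ) * ((#(B.N y ∩ S.F) : ℝ) * (W / n)) := by
    rw [← nsmul_eq_mul, ← nsmul_eq_mul]
    refine Finset.sum_le_card_nsmul _ _ _ fun u _ => ?_
    exact Finset.sum_le_card_nsmul _ _ _ fun z _ => hI.wW u z
  have hA := hI.aU v
  have hB := hI.aF y
  have hD1 := hN.hD1
  have hD2 := hN.hD2
  have h3 : (#(A.N v ∩ S.U) : ℝ) * ((#(B.N y ∩ S.F) : ℝ) * (W / n)) ≤
      (a * D1) * ((a * D2) * (W / n)) := by
    refine mul_le_mul hA (mul_le_mul_of_nonneg_right hB hWn) ?_ ?_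
    · exact mul_nonneg (Nat.cast_nonneg _) hWn
    · exact mul_nonneg hN.a0 (by linarith)
  have h4 : (a * D1) * ((a * D2) * (W / n)) = (D1 * D2) * (a ^ 2 * (W / n)) := by ring
  have h5 : (D1 * D2) * (a ^ 2 * (W / n)) ≤ ((1 - ε) * n) * (a ^ 2 * (W / n)) :=
    mul_le_mul_of_nonneg_right hN.hDD (mul_nonneg (sq_nonneg _) hWn)
  have h6 : ((1 - ε) * n) * (a ^ 2 * (W / n)) = ρ := by
    rw [hN.hρ]
    field_simp
  rw [h1]
  linarith

theorem kap_nonneg (hI : Inv A B D1 D2 W γ a l p q S) (v y : Fin n) : 0 ≤ kap A B S.w v y := by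
  unfold kap
  exact add_nonneg (Finset.sum_nonneg fun u _ => hI.w0 u y) (rho_nonneg hI v y)

theorem kap_le (hN : Num n ε D1 D2 δ K0 W γ a ρ) (hI : Inv A B D1 D2 W γ a l p q S)
    (v y : Fin n) : kap A B S.w v y ≤ 1 + γ + ρ := by
  unfold kap
  have h1 : ∑ u ∈ univ.erase v, S.w u y ≤ ∑ u, S.w u y :=
    Finset.sum_le_sum_of_subset_of_nonneg (Finset.erase_subset _ _) fun u _ _ => hI.w0 u y
  have h2 := colsum_le hI hN.γ0 y
  have h3 := rho_le hN hI v y
  linarith

theorem rho_pos (hN : Num n ε D1 D2 δ K0 W γ a ρ) : 0 ≤ ρ := by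
  rw [hN.hρ]
  have h1 := hN.ε1
  have h2 := hN.W1
  exact mul_nonneg (mul_nonneg (by linarith) (sq_nonneg _)) (by linarith)

/-- sums over `Option (Fin n)` against `mu` of functions that vanish at `none` -/
private theorem sum_mu_aux (g : Option (Fin n) → ℝ) (u : Fin n) :
    ∑ o, mu δ S.w u o * g o = (1 - δ * ∑ z, S.w u z) * g none + ∑ z, δ * S.w u z * g (some z) := by
  rw [Fintype.sum_option]
  rfl

open Classical in
/-- the probability that no `u ∈ X` picks in `G u` -/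
theorem avoid_prob (hN : Num n ε D1 D2 δ K0 W γ a ρ) (hI : Inv A B D1 D2 W γ a l p q S)
    (X : Finset (Fin n)) (G : Fin n → Finset (Fin n)) :
    PP (mu δ S.w) (fun ω => ∀ u ∈ X, ∀ z ∈ G u, ω u ≠ some z) =
      ∏ u ∈ X, (1 - δ * ∑ z ∈ G u, S.w u z) := by
  have hP := isProb_mu hN hI
  have h1 : PP (mu δ S.w) (fun ω => ∀ u ∈ X, ∀ z ∈ G u, ω u ≠ some z) =
      EE (mu δ S.w) (fun ω => ∏ u, (fun (u : Fin n) (o : Option (Fin n)) =>
        if u ∈ X ∧ (∃ z ∈ G u, o = some z) then (0 : ℝ) else 1) u (ω u)) := by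
    unfold PP
    refine EE_congr fun ω => ?_
    by_cases h : ∀ u ∈ X, ∀ z ∈ G u, ω u ≠ some z
    · rw [if_pos h]
      symm
      apply Finset.prod_eq_one
      intro u _
      refine if_neg ?_
      rintro ⟨hu, z, hz, hz'⟩
      exact h u hu z hz hz'
    · rw [if_neg h]
      push Not at h
      obtain ⟨u, hu, z, hz, hz'⟩ := h
      symm
      apply Finset.prod_eq_zero (Finset.mem_univ u)
      exact if_pos ⟨hu, z, hz, hz'⟩
  rw [h1]
  refine (EE_prod (μ := mu δ S.w) (fun (u : Fin n) (o : Option (Fin n)) =>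
    if u ∈ X ∧ (∃ z ∈ G u, o = some z) then (0 : ℝ) else 1)).trans ?_
  rw [← Finset.prod_subset (Finset.subset_univ X)]
  · refine Finset.prod_congr rfl fun u hu => ?_
    rw [sum_mu_aux]
    have h2 : ∑ z, δ * S.w u z * (if u ∈ X ∧ (∃ z' ∈ G u, some z = some z') then (0 : ℝ) else 1) =
        ∑ z, (δ * S.w u z - (if z ∈ G u then δ * S.w u z else 0)) := by
      refine Finset.sum_congr rfl fun z _ => ?_
      by_cases hz : z ∈ G u
      · rw [if_pos ⟨hu, z, hz, rfl⟩, if_pos hz]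
        ring
      · rw [if_neg, if_neg hz]
        · ring
        · rintro ⟨-, z', hz', h⟩
          exact hz (Option.some_injective _ h ▸ hz')
    rw [h2, Finset.sum_sub_distrib, Finset.sum_ite_mem, Finset.univ_inter, if_neg, ← Finset.mul_sum,
      ← Finset.mul_sum]
    · ring
    · rintro ⟨-, z, -, h⟩
      exact absurd h (by simp)
  · intro u _ hu
    refine Eq.trans (Finset.sum_congr rfl fun o _ => ?_) (hP.sum_one u)
    rw [if_neg, mul_one]
    rintro ⟨h, -⟩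
    exact hu h

/-- expectation of a function of one pick -/
theorem EE_pick (hN : Num n ε D1 D2 δ K0 W γ a ρ) (hI : Inv A B D1 D2 W γ a l p q S)
    (u : Fin n) (g : Option (Fin n) → ℝ) :
    EE (mu δ S.w) (fun ω => g (ω u)) =
      (1 - δ * ∑ z, S.w u z) * g none + ∑ z, δ * S.w u z * g (some z) := by
  have hP := isProb_mu hN hI
  rw [← EE_resample hP u (fun ω => g (ω u))]
  simp only [Function.update_self]
  rw [EE_const hP, sum_mu_aux]

/-- expectation of a sum of functions of the single picks that vanish at `none` -/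
theorem EE_sum_pick (hN : Num n ε D1 D2 δ K0 W γ a ρ) (hI : Inv A B D1 D2 W γ a l p q S)
    (g : Fin n → Option (Fin n) → ℝ) (hg : ∀ u, g u none = 0) :
    EE (mu δ S.w) (fun ω => ∑ u, g u (ω u)) = ∑ u, ∑ z, δ * S.w u z * g u (some z) := by
  rw [EE_sum]
  refine Finset.sum_congr rfl fun u _ => ?_
  rw [EE_pick hN hI u (g u), hg u, mul_zero, zero_add]

/-- sums over `Option (Fin n)` against `mu` of functions that vanish at `none` -/
theorem sum_mu (g : Option (Fin n) → ℝ) (hg : g none = 0) (u : Fin n) :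
    ∑ o, mu δ S.w u o * g o = ∑ z, δ * S.w u z * g (some z) := by
  rw [sum_mu_aux, hg, mul_zero, zero_add]

end Pool.Agent.Helper5.BEC
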