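import Pool.Agent.Helper5.BEC.Defs
/-! Piece T2: predictable compensator. -/
set_option autoImplicit false
namespace Pool.Agent.Helper5.BEC
open Finset Pool.Agent.Helper61.LE

variable {n : ℕ} {Ω : Type*} [Fintype Ω] [DecidableEq Ω]
variable {μ : Fin n → Ω → ℝ}

open Classical in
theorem comp_step (h : IsProb μ) (Bad : Fin n → (Fin n → Ω) → Ω → Prop)
    (hBad : ∀ u ω ω', (∀ i < u, ω i = ω' i) → ∀ a, (Bad u ω a ↔ Bad u ω' a)) (k : Fin n) :
    EE μ (fun ω => Real.exp (∑ u ∈ univ.filter (fun u : Fin n => u ≤ k),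
      ((if Bad u ω (ω u) then (1 : ℝ) else 0) - 2 * ∑ a, if Bad u ω a then μ u a else 0))) ≤
    EE μ (fun ω => Real.exp (∑ u ∈ univ.filter (fun u : Fin n => u < k),
      ((if Bad u ω (ω u) then (1 : ℝ) else 0) - 2 * ∑ a, if Bad u ω a then μ u a else 0))) := by
  rw [← EE_resample h k]
  refine EE_mono h fun ω => ?_
  have hset : univ.filter (fun u : Fin n => u ≤ k) =
      insert k (univ.filter (fun u : Fin n => u < k)) := by
    ext u
    simp only [mem_filter, mem_univ, true_and, mem_insert]
    exact le_iff_eq_or_lt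
  have hk : k ∉ univ.filter (fun u : Fin n => u < k) := by simp
  have hup : ∀ (a : Ω) (u : Fin n), u ≤ k → ∀ b, (Bad u (Function.update ω k a) b ↔ Bad u ω b) := by
    intro a u hu b
    refine hBad u _ _ (fun i hi => ?_) b
    rw [Function.update_of_ne (ne_of_lt (lt_of_lt_of_le hi hu))]
  have hterm : ∀ a : Ω, Real.exp (∑ u ∈ univ.filter (fun u : Fin n => u ≤ k),
      ((if Bad u (Function.update ω k a) ((Function.update ω k a) u) then (1 : ℝ) else 0) -
        2 * ∑ b, if Bad u (Function.update ω k a) b then μ u b else 0)) =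
      Real.exp (∑ u ∈ univ.filter (fun u : Fin n => u < k),
        ((if Bad u ω (ω u) then (1 : ℝ) else 0) - 2 * ∑ b, if Bad u ω b then μ u b else 0)) *
      (Real.exp (-(2 * ∑ b, if Bad k ω b then μ k b else 0)) *
        (if Bad k ω a then Real.exp 1 else 1)) := by
    intro a
    rw [hset, Finset.sum_insert hk, Real.exp_add, mul_comm]
    have h1 : ∑ u ∈ univ.filter (fun u : Fin n => u < k),
        ((if Bad u (Function.update ω k a) ((Function.update ω k a) u) then (1 : ℝ) else 0) -
        2 * ∑ b, if Bad u (Function.update ω k a) b then μ u b else 0) =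
        ∑ u ∈ univ.filter (fun u : Fin n => u < k),
        ((if Bad u ω (ω u) then (1 : ℝ) else 0) - 2 * ∑ b, if Bad u ω b then μ u b else 0) := by
      refine Finset.sum_congr rfl fun u hu => ?_
      have hu' : u < k := (mem_filter.1 hu).2
      rw [Function.update_of_ne (ne_of_lt hu')]
      simp only [hup a u hu'.le]
    rw [h1]
    congr 1
    rw [Function.update_self]
    simp only [hup a k le_rfl]
    by_cases hb : Bad k ω a
    · rw [if_pos hb, if_pos hb, ← Real.exp_add]
      congr 1
      ring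
    · rw [if_neg hb, if_neg hb, mul_one]
      congr 1
      ring
  simp only [hterm]
  have hp0 : 0 ≤ ∑ b, if Bad k ω b then μ k b else 0 :=
    Finset.sum_nonneg fun b _ => by split_ifs; exacts [h.nonneg k b, le_rfl]
  set p := ∑ b, if Bad k ω b then μ k b else 0 with hp
  set G := Real.exp (∑ u ∈ univ.filter (fun u : Fin n => u < k),
        ((if Bad u ω (ω u) then (1 : ℝ) else 0) - 2 * ∑ b, if Bad u ω b then μ u b else 0)) with hG
  have hsum : ∑ a, μ k a * (G * (Real.exp (-(2 * p)) * (if Bad k ω a then Real.exp 1 else 1))) =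
      G * (Real.exp (-(2 * p)) * (1 + (Real.exp 1 - 1) * p)) := by
    have h1 : ∀ a, μ k a * (G * (Real.exp (-(2 * p)) * (if Bad k ω a then Real.exp 1 else 1))) =
        G * (Real.exp (-(2 * p))) * μ k a +
          G * (Real.exp (-(2 * p))) * (Real.exp 1 - 1) * (if Bad k ω a then μ k a else 0) := by
      intro a
      by_cases hb : Bad k ω a
      · rw [if_pos hb, if_pos hb]
        ring
      · rw [if_neg hb, if_neg hb]
        ring
    simp only [h1]
    rw [Finset.sum_add_distrib, ← Finset.mul_sum, ← Finset.mul_sum, h.sum_one, ← hp]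
    ring
  rw [hsum]
  have he : Real.exp 1 - 1 ≤ 2 := by
    have := Real.exp_one_lt_d9
    linarith
  have h2 : 1 + (Real.exp 1 - 1) * p ≤ Real.exp (2 * p) := by
    have h3 := Real.add_one_le_exp (2 * p)
    have h4 := mul_le_mul_of_nonneg_right he hp0
    linarith
  have h5 : Real.exp (-(2 * p)) * (1 + (Real.exp 1 - 1) * p) ≤ 1 := by
    calc Real.exp (-(2 * p)) * (1 + (Real.exp 1 - 1) * p)
        ≤ Real.exp (-(2 * p)) * Real.exp (2 * p) :=
          mul_le_mul_of_nonneg_left h2 (Real.exp_pos _).le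
      _ = 1 := by rw [← Real.exp_add]; simp
  calc G * (Real.exp (-(2 * p)) * (1 + (Real.exp 1 - 1) * p)) ≤ G * 1 :=
        mul_le_mul_of_nonneg_left h5 (Real.exp_pos _).le
    _ = G := mul_one G

open Classical in
/-- `Bad u ω a` depends only on the coordinates of `ω` below `u`. Then
`E exp(#{u : Bad u ω (ω u)} - 2 ∑_u P(Bad u ω)) ≤ 1`. -/
theorem comp_exp (h : IsProb μ) (Bad : Fin n → (Fin n → Ω) → Ω → Prop)
    (hBad : ∀ u ω ω', (∀ i < u, ω i = ω' i) → ∀ a, (Bad u ω a ↔ Bad u ω' a)) :
    EE μ (fun ω => Real.exp ((∑ u, if Bad u ω (ω u) then (1 : ℝ) else 0) -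
      2 * ∑ u, ∑ a, if Bad u ω a then μ u a else 0)) ≤ 1 := by
  have hind : ∀ k : ℕ, k ≤ n → EE μ (fun ω => Real.exp (∑ u ∈ univ.filter
      (fun u : Fin n => (u : ℕ) < k),
      ((if Bad u ω (ω u) then (1 : ℝ) else 0) - 2 * ∑ a, if Bad u ω a then μ u a else 0))) ≤ 1 := by
    intro k
    induction k with
    | zero =>
      intro _
      simp only [Nat.not_lt_zero, Finset.filter_false, Finset.sum_empty, Real.exp_zero]
      rw [EE_const h]
    | succ k ih =>
      intro hk
      have h1 := comp_step h Bad hBad ⟨k, hk⟩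
      have e1 : univ.filter (fun u : Fin n => u ≤ ⟨k, hk⟩) =
          univ.filter (fun u : Fin n => (u : ℕ) < k + 1) := by
        ext u
        simp only [mem_filter, mem_univ, true_and, Fin.le_def]
        omega
      have e2 : univ.filter (fun u : Fin n => u < ⟨k, hk⟩) =
          univ.filter (fun u : Fin n => (u : ℕ) < k) := by
        ext u
        simp only [mem_filter, mem_univ, true_and, Fin.lt_def]
      rw [e1, e2] at h1
      exact h1.trans (ih (by omega))
  have := hind n le_rfl
  have e : univ.filter (fun u : Fin n => (u : ℕ) < n) = univ := by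
    ext u
    simp
  rw [e] at this
  simpa only [Finset.sum_sub_distrib, ← Finset.mul_sum] using this

open Classical in
theorem comp_tail (h : IsProb μ) (Bad : Fin n → (Fin n → Ω) → Ω → Prop)
    (hBad : ∀ u ω ω', (∀ i < u, ω i = ω' i) → ∀ a, (Bad u ω a ↔ Bad u ω' a)) (x L : ℝ) :
    PP μ (fun ω => x ≤ (∑ u, if Bad u ω (ω u) then (1 : ℝ) else 0) ∧
      (∑ u, ∑ a, if Bad u ω a then μ u a else 0) ≤ L) ≤ Real.exp (2 * L - x) := by
  have h1 := mul_le_mul_of_nonneg_left (comp_exp h Bad hBad) (Real.exp_pos (2 * L - x)).le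
  rw [mul_one] at h1
  refine le_trans ?_ h1
  unfold PP
  rw [← EE_const_mul]
  refine EE_mono h fun ω => ?_
  rw [← Real.exp_add]
  split_ifs with hc
  · apply Real.one_le_exp
    linarith [hc.1, hc.2]
  · exact (Real.exp_pos _).le

end Pool.Agent.Helper5.BEC
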