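import Pool.Agent.Helper5.BEC.St.T1
import Pool.Agent.Helper5.BEC.St.T2
import Pool.Agent.Helper5.BEC.St.B1
/-! Piece X2: cancelled vertices picking in `N₂(y)`. -/
set_option autoImplicit false
namespace Pool.Agent.Helper5.BEC
open Finset Pool.Agent.Helper61.LE

variable {n : ℕ} {A B : Nb n} {ε D1 D2 D δ K0 W γ a ρ l p q : ℝ} {S : St n}

open Classical in
/-- `Z_y = ∑_{u'} ( [ω u' ∈ N₂(y)] C(ω u') + ∑_{u ∈ N₁(u')} w(u, N₂(y) ∩ N₂(ω u')) )` -/
noncomputable def Zy (A B : Nb n) (w : Fin n → Fin n → ℝ) (ω : Fin n → Option (Fin n))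
    (y : Fin n) : ℝ :=
  ∑ u', match ω u' with
    | none => 0
    | some z => (if z ∈ B.N y then ∑ u, w u z else 0) +
        ∑ u ∈ A.N u', ∑ z' ∈ B.N y ∩ B.N z, w u z'

open Classical in
/-- the contribution of the pick `o` of `u'` to `Z_y` -/
private noncomputable def gy (A B : Nb n) (w : Fin n → Fin n → ℝ) (y u' : Fin n)
    (o : Option (Fin n)) : ℝ :=
  match o with
  | none => 0
  | some z => (if z ∈ B.N y then ∑ u, w u z else 0) +
      ∑ u ∈ A.N u', ∑ z' ∈ B.N y ∩ B.N z, w u z'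

private theorem gy_none (w : Fin n → Fin n → ℝ) (y u' : Fin n) : gy A B w y u' none = 0 := rfl

private theorem gy_some (w : Fin n → Fin n → ℝ) (y u' z : Fin n) :
    gy A B w y u' (some z) = (if z ∈ B.N y then ∑ u, w u z else 0) +
      ∑ u ∈ A.N u', ∑ z' ∈ B.N y ∩ B.N z, w u z' := by
  unfold gy
  simp only

private theorem Zy_eq (w : Fin n → Fin n → ℝ) (ω : Fin n → Option (Fin n)) (y : Fin n) :
    Zy A B w ω y = ∑ u', gy A B w y u' (ω u') := by
  unfold Zy gy
  rfl

private theorem gy_nonneg (hw : ∀ u z, 0 ≤ S.w u z) (y u' : Fin n) (o : Option (Fin n)) :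
    0 ≤ gy A B S.w y u' o := by
  cases o with
  | none => rw [gy_none]
  | some z =>
    rw [gy_some]
    refine add_nonneg ?_ ?_
    · split_ifs
      · exact sum_nonneg fun u _ => hw _ _
      · exact le_rfl
    · exact sum_nonneg fun u _ => sum_nonneg fun z' _ => hw _ _

private theorem gy_le (hN : Num n ε D1 D2 δ K0 W γ a ρ) (hdg : Deg A B D1 D2)
    (hI : Inv A B D1 D2 W γ a l p q S) (y u' : Fin n) (o : Option (Fin n)) :
    gy A B S.w y u' o ≤ 3 * W := by
  have hW := hN.W1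
  have hn : (1 : ℝ) ≤ n := by exact_mod_cast hN.n1
  cases o with
  | none => rw [gy_none]; linarith
  | some z =>
    rw [gy_some]
    have h1 : (if z ∈ B.N y then ∑ u, S.w u z else 0) ≤ 1 + γ := by
      split_ifs
      · exact colsum_le hI hN.γ0 z
      · linarith [hN.γ0]
    have h2 : ∑ u ∈ A.N u', ∑ z' ∈ B.N y ∩ B.N z, S.w u z' ≤ W := by
      have hWn : 0 ≤ W / n := div_nonneg (by linarith) (by linarith)
      have h3 : ∀ u ∈ A.N u', ∑ z' ∈ B.N y ∩ B.N z, S.w u z' ≤ D2 * (W / n) := by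
        intro u _
        calc ∑ z' ∈ B.N y ∩ B.N z, S.w u z' ≤ ∑ z' ∈ B.N y ∩ B.N z, W / n :=
              sum_le_sum fun z' _ => hI.wW u z'
          _ = (#(B.N y ∩ B.N z) : ℝ) * (W / n) := by rw [sum_const, nsmul_eq_mul]
          _ ≤ D2 * (W / n) := by
              refine mul_le_mul_of_nonneg_right ?_ hWn
              refine le_trans ?_ (hdg.dB y)
              exact_mod_cast card_le_card inter_subset_left
      calc ∑ u ∈ A.N u', ∑ z' ∈ B.N y ∩ B.N z, S.w u z' ≤ ∑ u ∈ A.N u', D2 * (W / n) :=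
            sum_le_sum h3
        _ = (#(A.N u') : ℝ) * (D2 * (W / n)) := by rw [sum_const, nsmul_eq_mul]
        _ ≤ D1 * (D2 * (W / n)) := by
            refine mul_le_mul_of_nonneg_right (hdg.dA u') ?_
            exact mul_nonneg (by linarith [hN.hD2]) hWn
        _ = (D1 * D2) * W / n := by ring
        _ ≤ n * W / n := by
            refine div_le_div_of_nonneg_right ?_ (by linarith)
            refine mul_le_mul_of_nonneg_right ?_ (by linarith)
            have h4 := hN.hDD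
            have h5 : (1 - ε) * (n : ℝ) ≤ 1 * n := by
              refine mul_le_mul_of_nonneg_right ?_ (by linarith)
              linarith [hN.ε0]
            linarith
        _ = W := by field_simp
    linarith [hN.γ1]

private theorem gy_mean (hN : Num n ε D1 D2 δ K0 W γ a ρ) (hdg : Deg A B D1 D2)
    (hI : Inv A B D1 D2 W γ a l p q S) (y : Fin n) :
    ∑ u, ∑ z, δ * S.w u z * gy A B S.w y u (some z) ≤ 2 * δ * K0 * D2 := by
  classical
  have hδ := hN.δ0
  have hγ0 := hN.γ0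
  have hγ1 := hN.γ1
  have hρ0 : 0 ≤ ρ := rho_pos hN
  have hD2 := hN.hD2
  have e1 : ∑ u, ∑ z, δ * S.w u z * gy A B S.w y u (some z) =
      δ * ∑ z ∈ B.N y, (∑ u, S.w u z) * (∑ u, S.w u z) +
      δ * ∑ z' ∈ B.N y, ∑ u1, S.w u1 z' * rho A B S.w u1 z' := by
    have a1 : ∑ u, ∑ z, δ * S.w u z * gy A B S.w y u (some z) =
        ∑ u, ∑ z, δ * S.w u z * (if z ∈ B.N y then ∑ u, S.w u z else 0) +
        ∑ u, ∑ z, δ * S.w u z * ∑ u1 ∈ A.N u, ∑ z' ∈ B.N y ∩ B.N z, S.w u1 z' := by
      rw [← sum_add_distrib]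
      refine sum_congr rfl fun u _ => ?_
      rw [← sum_add_distrib]
      refine sum_congr rfl fun z _ => ?_
      rw [gy_some, mul_add]
    rw [a1]
    congr 1
    · rw [sum_comm, mul_sum, ← sum_filter_add_sum_filter_not univ (fun z => z ∈ B.N y)]
      have a2 : ∑ z ∈ univ.filter (fun z => ¬ z ∈ B.N y),
          ∑ u, δ * S.w u z * (if z ∈ B.N y then ∑ u, S.w u z else 0) = 0 := by
        refine sum_eq_zero fun z hz => sum_eq_zero fun u _ => ?_
        rw [if_neg (mem_filter.1 hz).2, mul_zero]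
      rw [a2, add_zero]
      have a3 : univ.filter (fun z => z ∈ B.N y) = B.N y := by
        ext z; simp
      rw [a3]
      refine sum_congr rfl fun z hz => ?_
      simp only [if_pos hz]
      rw [← sum_mul, ← mul_sum]
      ring
    · -- swap the sums
      have a4 : ∀ u z, δ * S.w u z * ∑ u1 ∈ A.N u, ∑ z' ∈ B.N y ∩ B.N z, S.w u1 z' =
          ∑ z' ∈ B.N y, ∑ u1, if u1 ∈ A.N u ∧ z' ∈ B.N z then δ * (S.w u1 z' * S.w u z) else 0 := by
        intro u z
        rw [mul_sum]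
        have : ∀ u1, δ * S.w u z * ∑ z' ∈ B.N y ∩ B.N z, S.w u1 z' =
            ∑ z' ∈ B.N y, if z' ∈ B.N z then δ * (S.w u1 z' * S.w u z) else 0 := by
          intro u1
          rw [← sum_filter, filter_mem_eq_inter, mul_sum]
          exact sum_congr rfl fun z' _ => by ring
        simp only [this]
        rw [sum_comm]
        refine sum_congr rfl fun z' _ => ?_
        have a5 : A.N u = univ.filter (fun u1 => u1 ∈ A.N u) := by
          ext z; simp
        rw [a5, sum_filter]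
        refine sum_congr rfl fun u1 _ => ?_
        by_cases h1 : u1 ∈ A.N u <;> by_cases h2 : z' ∈ B.N z <;> simp [h1, h2]
      simp only [a4]
      have a6 : ∑ u, ∑ z, ∑ z' ∈ B.N y, ∑ u1,
          (if u1 ∈ A.N u ∧ z' ∈ B.N z then δ * (S.w u1 z' * S.w u z) else 0) =
          ∑ z' ∈ B.N y, ∑ u1, ∑ u, ∑ z,
          (if u1 ∈ A.N u ∧ z' ∈ B.N z then δ * (S.w u1 z' * S.w u z) else 0) := by
        calc ∑ u, ∑ z, ∑ z' ∈ B.N y, ∑ u1,
          (if u1 ∈ A.N u ∧ z' ∈ B.N z then δ * (S.w u1 z' * S.w u z) else 0) =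
            ∑ u, ∑ z' ∈ B.N y, ∑ z, ∑ u1,
          (if u1 ∈ A.N u ∧ z' ∈ B.N z then δ * (S.w u1 z' * S.w u z) else 0) :=
              sum_congr rfl fun u _ => sum_comm
          _ = ∑ z' ∈ B.N y, ∑ u, ∑ z, ∑ u1,
          (if u1 ∈ A.N u ∧ z' ∈ B.N z then δ * (S.w u1 z' * S.w u z) else 0) := sum_comm
          _ = ∑ z' ∈ B.N y, ∑ u, ∑ u1, ∑ z,
          (if u1 ∈ A.N u ∧ z' ∈ B.N z then δ * (S.w u1 z' * S.w u z) else 0) :=
              sum_congr rfl fun z' _ => sum_congr rfl fun u _ => sum_comm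
          _ = _ := sum_congr rfl fun z' _ => sum_comm
      rw [a6, mul_sum]
      refine sum_congr rfl fun z' _ => ?_
      rw [mul_sum]
      refine sum_congr rfl fun u1 _ => ?_
      unfold rho
      have a7 : A.N u1 = univ.filter (fun u => u1 ∈ A.N u) := by
        ext u
        simp only [mem_filter, mem_univ, true_and]
        exact ⟨fun h => A.symm _ _ h, fun h => A.symm _ _ h⟩
      have a8 : B.N z' = univ.filter (fun z => z' ∈ B.N z) := by
        ext u
        simp only [mem_filter, mem_univ, true_and]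
        exact ⟨fun h => B.symm _ _ h, fun h => B.symm _ _ h⟩
      rw [a7, a8, sum_filter, mul_sum, mul_sum]
      refine sum_congr rfl fun u _ => ?_
      by_cases h1 : u1 ∈ A.N u
      · rw [if_pos h1, sum_filter, mul_sum, mul_sum]
        refine sum_congr rfl fun z _ => ?_
        by_cases h2 : z' ∈ B.N z
        · rw [if_pos ⟨h1, h2⟩, if_pos h2]
        · rw [if_neg (fun h => h2 h.2), if_neg h2]; ring
      · rw [if_neg h1, mul_zero, mul_zero]
        exact sum_eq_zero fun z _ => if_neg (fun h => h1 h.1)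
  rw [e1]
  have hcol0 : ∀ z, 0 ≤ ∑ u, S.w u z := fun z => sum_nonneg fun u _ => hI.w0 _ _
  have hcol := fun z => colsum_le hI hγ0 z
  have b1 : ∑ z ∈ B.N y, (∑ u, S.w u z) * (∑ u, S.w u z) ≤ D2 * ((1 + γ) * (1 + γ)) := by
    calc ∑ z ∈ B.N y, (∑ u, S.w u z) * (∑ u, S.w u z) ≤ ∑ z ∈ B.N y, (1 + γ) * (1 + γ) :=
          sum_le_sum fun z _ => mul_le_mul (hcol z) (hcol z) (hcol0 z) (by linarith)
      _ = (#(B.N y) : ℝ) * ((1 + γ) * (1 + γ)) := by rw [sum_const, nsmul_eq_mul]
      _ ≤ D2 * ((1 + γ) * (1 + γ)) :=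
          mul_le_mul_of_nonneg_right (hdg.dB y) (by positivity)
  have b2 : ∑ z' ∈ B.N y, ∑ u1, S.w u1 z' * rho A B S.w u1 z' ≤ D2 * ((1 + γ) * ρ) := by
    calc ∑ z' ∈ B.N y, ∑ u1, S.w u1 z' * rho A B S.w u1 z' ≤ ∑ z' ∈ B.N y, (1 + γ) * ρ := by
          refine sum_le_sum fun z' _ => ?_
          calc ∑ u1, S.w u1 z' * rho A B S.w u1 z' ≤ ∑ u1, S.w u1 z' * ρ :=
                sum_le_sum fun u1 _ => mul_le_mul_of_nonneg_left (rho_le hN hI u1 z') (hI.w0 _ _)
            _ = (∑ u1, S.w u1 z') * ρ := by rw [sum_mul]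
            _ ≤ (1 + γ) * ρ := mul_le_mul_of_nonneg_right (hcol z') hρ0
      _ = (#(B.N y) : ℝ) * ((1 + γ) * ρ) := by rw [sum_const, nsmul_eq_mul]
      _ ≤ D2 * ((1 + γ) * ρ) :=
          mul_le_mul_of_nonneg_right (hdg.dB y) (by positivity)
  have b3 : D2 * ((1 + γ) * (1 + γ)) + D2 * ((1 + γ) * ρ) ≤ 2 * K0 * D2 := by
    have h1 : (1 + γ) * (1 + γ + ρ) ≤ 2 * K0 :=
      mul_le_mul (by linarith) hN.hκ (by positivity) (by norm_num)
    calc D2 * ((1 + γ) * (1 + γ)) + D2 * ((1 + γ) * ρ) = D2 * ((1 + γ) * (1 + γ + ρ)) := by ring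
      _ ≤ D2 * (2 * K0) := mul_le_mul_of_nonneg_left h1 (by linarith)
      _ = 2 * K0 * D2 := by ring
  calc δ * ∑ z ∈ B.N y, (∑ u, S.w u z) * (∑ u, S.w u z) +
      δ * ∑ z' ∈ B.N y, ∑ u1, S.w u1 z' * rho A B S.w u1 z' ≤
      δ * (D2 * ((1 + γ) * (1 + γ))) + δ * (D2 * ((1 + γ) * ρ)) := by gcongr
    _ = δ * (D2 * ((1 + γ) * (1 + γ)) + D2 * ((1 + γ) * ρ)) := by ring
    _ ≤ δ * (2 * K0 * D2) := by gcongr
    _ = 2 * δ * K0 * D2 := by ring

/-- `Z_y ≤ 4 δ K0 D2` with high probability: apply `tail` to `Z_y / D2`: costs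
`≤ (1+γ+D1 D2 W/n)/D2 ≤ (2+W)/D2 ≤ 3W/D2 = m`, mean
`δ (∑_{z ∈ N₂(y)} C(z)² + ∑_{z ∈ N₂(y)} ∑_u w u z rho u z) / D2 ≤ δ(1+γ)(1+γ+ρ) ≤ 2δK0`,
`L = t = 2 δ K0`: `t²/(16mL) = δ K0 D2/(24 W)`. -/
theorem Zy_tail (hN : Num n ε D1 D2 δ K0 W γ a ρ) (hdg : Deg A B D1 D2)
    (hI : Inv A B D1 D2 W γ a l p q S) (hD0 : 0 ≤ D) (hD : D ≤ D2) (y : Fin n) :
    PP (mu δ S.w) (fun ω => ¬ Zy A B S.w ω y ≤ 4 * δ * K0 * D2) ≤
      2 * Real.exp (-(δ ^ 6 / (1000 * W ^ 2) * D)) := by
  classical
  have hP := isProb_mu hN hI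
  have hδ := hN.δ0
  have hδ1 := hN.δ1
  have hK := hN.K0'
  have hW := hN.W1
  have hD2 := hN.hD2
  have hL0 : 0 < 2 * δ * K0 * D2 := by positivity
  have hE : EE (mu δ S.w) (fun ω => Zy A B S.w ω y) ≤ 2 * δ * K0 * D2 := by
    have h1 := EE_sum_pick hN hI (fun u o => gy A B S.w y u o) (fun u => rfl)
    have h2 : EE (mu δ S.w) (fun ω => Zy A B S.w ω y) =
        EE (mu δ S.w) (fun ω => ∑ u, gy A B S.w y u (ω u)) :=
      EE_congr fun ω => Zy_eq _ _ _
    rw [h2, h1]
    exact gy_mean hN hdg hI y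
  have hlip : ∀ i (ω : Fin n → Option (Fin n)) o o',
      |Zy A B S.w (Function.update ω i o) y - Zy A B S.w (Function.update ω i o') y| ≤
        gy A B S.w y i o + gy A B S.w y i o' := by
    intro i ω o o'
    rw [Zy_eq, Zy_eq, ← sum_sub_distrib, sum_eq_single i]
    · rw [Function.update_self, Function.update_self]
      have h1 := gy_nonneg (A := A) (B := B) hI.w0 y i o
      have h2 := gy_nonneg (A := A) (B := B) hI.w0 y i o'
      rw [abs_le]
      constructor <;> linarith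
    · intro j _ hj
      rw [Function.update_of_ne hj, Function.update_of_ne hj, sub_self]
    · intro h
      exact absurd (mem_univ _) h
  have hcost : ∑ i, ∑ o, mu δ S.w i o * gy A B S.w y i o ≤ 2 * δ * K0 * D2 := by
    have h1 : ∑ i, ∑ o, mu δ S.w i o * gy A B S.w y i o =
        ∑ u, ∑ z, δ * S.w u z * gy A B S.w y u (some z) :=
      sum_congr rfl fun u _ => sum_mu (fun o => gy A B S.w y u o) rfl u
    rw [h1]
    exact gy_mean hN hdg hI y
  have hT := tail hP (fun i o => gy A B S.w y i o) (fun ω => Zy A B S.w ω y)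
    (m := 3 * W) (L := 2 * δ * K0 * D2) (t := 2 * δ * K0 * D2)
    (fun i o => gy_nonneg hI.w0 y i o) (fun i o => gy_le hN hdg hI y i o) (by linarith)
    hcost hL0 hL0.le (by linarith) hlip
  refine le_trans (PP_mono hP fun ω hω => ?_) (le_trans hT ?_)
  · have h1 : 4 * δ * K0 * D2 < Zy A B S.w ω y := lt_of_not_ge hω
    refine le_trans ?_ (le_abs_self _)
    linarith
  · refine mul_le_mul_of_nonneg_left (Real.exp_le_exp.2 ?_) (by norm_num)
    rw [neg_le_neg_iff]
    have h1 : (2 * δ * K0 * D2) ^ 2 / (16 * (3 * W) * (2 * δ * K0 * D2)) =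
        δ * K0 * D2 / (24 * W) := by
      field_simp
      ring
    rw [h1]
    have hd6 : δ ^ 6 ≤ δ := by
      calc δ ^ 6 ≤ δ ^ 1 := pow_le_pow_of_le_one hδ.le (by linarith) (by norm_num)
        _ = δ := pow_one δ
    calc δ ^ 6 / (1000 * W ^ 2) * D ≤ δ / (1000 * W ^ 2) * D2 := by
          refine mul_le_mul (div_le_div_of_nonneg_right hd6 (by positivity)) hD hD0 (by positivity)
      _ ≤ δ / (24 * W) * D2 := by
          refine mul_le_mul_of_nonneg_right ?_ (by linarith)
          refine div_le_div_of_nonneg_left hδ.le (by positivity) ?_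
          nlinarith
      _ ≤ δ * K0 * D2 / (24 * W) := by
          rw [div_mul_eq_mul_div]
          refine div_le_div_of_nonneg_right ?_ (by positivity)
          have : 0 ≤ δ * D2 := by positivity
          nlinarith

/-- The total weight of the pairs `(u,z)`, `z ∈ N₂(y)`, such that some `u' < u` picks `z'` with
`z' = z` or (`u' ∈ N₁(u)`, `z' ∈ N₂(z)`) is at most `Z_y`. -/
theorem bad_le_Zy (hI : Inv A B D1 D2 W γ a l p q S) (ω : Fin n → Option (Fin n)) (y : Fin n)
    (T : Fin n → Finset (Fin n)) (hTy : ∀ u, T u ⊆ B.N y)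
    (hT : ∀ u, ∀ z ∈ T u, ∃ u' < u, ∃ z', ω u' = some z' ∧
      (z' = z ∨ (u' ∈ A.N u ∧ z' ∈ B.N z))) :
    ∑ u, ∑ z ∈ T u, S.w u z ≤ Zy A B S.w ω y := by
  classical
  let h : Fin n → Fin n → Fin n → ℝ := fun u' u z =>
    match ω u' with
    | none => 0
    | some z' => (if z' = z then S.w u z else 0) +
        (if u' ∈ A.N u ∧ z' ∈ B.N z then S.w u z else 0)
  have h0 : ∀ u' u z, 0 ≤ h u' u z := by
    intro u' u z
    simp only [h]
    cases ω u' with
    | none => exact le_rfl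
    | some z' =>
      refine add_nonneg ?_ ?_
      · split_ifs
        · exact hI.w0 _ _
        · exact le_rfl
      · split_ifs
        · exact hI.w0 _ _
        · exact le_rfl
  have h1 : ∀ u, ∀ z ∈ T u, S.w u z ≤ ∑ u', h u' u z := by
    intro u z hz
    obtain ⟨u', -, z', hz', hor⟩ := hT u z hz
    have h2 : S.w u z ≤ h u' u z := by
      simp only [h, hz']
      have hw := hI.w0 u z
      rcases hor with he | he
      · rw [if_pos he]
        have : 0 ≤ (if u' ∈ A.N u ∧ z' ∈ B.N z then S.w u z else 0) := by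
          split_ifs
          · exact hw
          · exact le_rfl
        linarith
      · rw [if_pos he]
        have : 0 ≤ (if z' = z then S.w u z else 0) := by
          split_ifs
          · exact hw
          · exact le_rfl
        linarith
    exact le_trans h2 (single_le_sum (f := fun u' => h u' u z) (fun i _ => h0 i u z)
      (mem_univ u'))
  calc ∑ u, ∑ z ∈ T u, S.w u z ≤ ∑ u, ∑ z ∈ T u, ∑ u', h u' u z :=
        sum_le_sum fun u _ => sum_le_sum fun z hz => h1 u z hz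
    _ ≤ ∑ u, ∑ z ∈ B.N y, ∑ u', h u' u z :=
        sum_le_sum fun u _ => sum_le_sum_of_subset_of_nonneg (hTy u)
          fun z _ _ => sum_nonneg fun u' _ => h0 _ _ _
    _ = ∑ u, ∑ u', ∑ z ∈ B.N y, h u' u z := sum_congr rfl fun u _ => sum_comm
    _ = ∑ u', ∑ u, ∑ z ∈ B.N y, h u' u z := sum_comm
    _ = Zy A B S.w ω y := by
        rw [Zy_eq]
        refine sum_congr rfl fun u' _ => ?_
        simp only [h]
        cases hω : ω u' with
        | none => simp [gy_none]
        | some z' =>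
          rw [gy_some]
          simp only [sum_add_distrib]
          congr 1
          · by_cases hz : z' ∈ B.N y
            · rw [if_pos hz]
              refine sum_congr rfl fun u _ => ?_
              rw [sum_ite_eq, if_pos hz]
            · rw [if_neg hz]
              refine sum_eq_zero fun u _ => ?_
              rw [sum_ite_eq, if_neg hz]
          · have a7 : A.N u' = univ.filter (fun u => u' ∈ A.N u) := by
              ext u
              simp only [mem_filter, mem_univ, true_and]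
              exact ⟨fun h => A.symm _ _ h, fun h => A.symm _ _ h⟩
            rw [a7, sum_filter]
            refine sum_congr rfl fun u _ => ?_
            by_cases h1 : u' ∈ A.N u
            · rw [if_pos h1]
              have : B.N y ∩ B.N z' = (B.N y).filter (fun z => z' ∈ B.N z) := by
                ext z
                simp only [mem_filter, mem_inter]
                exact ⟨fun h => ⟨h.1, B.symm _ _ h.2⟩, fun h => ⟨h.1, B.symm _ _ h.2⟩⟩
              rw [this, sum_filter]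
              refine sum_congr rfl fun z _ => ?_
              by_cases h2 : z' ∈ B.N z
              · rw [if_pos ⟨h1, h2⟩, if_pos h2]
              · rw [if_neg (fun h => h2 h.2), if_neg h2]
            · rw [if_neg h1]
              exact sum_eq_zero fun z _ => if_neg (fun h => h1 h.1)

/-- `comp_tail` with `Bad u ω a` := `a = some z`, `z ∈ N₂(y)` and `z` as in `bad_le_Zy`;
compensator `≤ δ Z_y ≤ 4 δ² K0 D2 = L` unless `Z_y` is large, `x = 20 K0 δ² D2 = 5 L`. -/
theorem cancF_tail (hN : Num n ε D1 D2 δ K0 W γ a ρ) (hdg : Deg A B D1 D2)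
    (hI : Inv A B D1 D2 W γ a l p q S) (hD0 : 0 ≤ D) (hD : D ≤ D2) (y : Fin n) :
    PP (mu δ S.w) (fun ω => ¬ (cancF A B ω (B.N y) : ℝ) ≤ 20 * K0 * δ ^ 2 * D2) ≤
      3 * Real.exp (-(δ ^ 6 / (1000 * W ^ 2) * D)) := by
  classical
  have hP := isProb_mu hN hI
  have hδ := hN.δ0
  have hδ1 := hN.δ1
  have hK := hN.K0'
  have hW := hN.W1
  have hD2 := hN.hD2
  let C : Fin n → (Fin n → Option (Fin n)) → Fin n → Prop := fun u ω z =>
    ∃ u' < u, ∃ z', ω u' = some z' ∧ (z' = z ∨ (u' ∈ A.N u ∧ z' ∈ B.N z))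
  let Bad : Fin n → (Fin n → Option (Fin n)) → Option (Fin n) → Prop := fun u ω o =>
    ∃ z, o = some z ∧ z ∈ B.N y ∧ C u ω z
  have hBad : ∀ u ω ω', (∀ i < u, ω i = ω' i) → ∀ o, (Bad u ω o ↔ Bad u ω' o) := by
    intro u ω ω' hω o
    refine exists_congr fun z => and_congr_right fun _ => and_congr_right fun _ => ?_
    constructor
    · rintro ⟨u', hu', z', hz', hor⟩
      exact ⟨u', hu', z', (hω u' hu') ▸ hz', hor⟩
    · rintro ⟨u', hu', z', hz', hor⟩
      exact ⟨u', hu', z', (hω u' hu').symm ▸ hz', hor⟩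
  have hX : ∀ ω : Fin n → Option (Fin n), (cancF A B ω (B.N y) : ℝ) =
      ∑ u, @ite ℝ (Bad u ω (ω u)) (Classical.propDecidable _) 1 0 := by
    intro ω
    unfold cancF
    rw [card_eq_sum_ones, Nat.cast_sum, sum_filter]
    refine sum_congr rfl fun u _ => ?_
    have hiff : (canc A B ω u ∧ ∃ z ∈ B.N y, ω u = some z) ↔ Bad u ω (ω u) := by
      constructor
      · rintro ⟨⟨z, hz, hC⟩, ⟨z1, hz1, hz1'⟩⟩
        have : z1 = z := by
          rw [hz] at hz1'
          exact (Option.some.inj hz1').symm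
        exact ⟨z, hz, this ▸ hz1, hC⟩
      · rintro ⟨z, hz, hzy, hC⟩
        exact ⟨⟨z, hz, hC⟩, ⟨z, hzy, hz⟩⟩
    by_cases hb : Bad u ω (ω u)
    · rw [if_pos hb, if_pos (hiff.2 hb)]
      simp
    · rw [if_neg hb, if_neg (fun h => hb (hiff.1 h))]
  have hcomp : ∀ ω : Fin n → Option (Fin n),
      (∑ u, ∑ o, @ite ℝ (Bad u ω o) (Classical.propDecidable _) (mu δ S.w u o) 0) ≤
        δ * Zy A B S.w ω y := by
    intro ω
    have h1 : ∀ u, (∑ o, @ite ℝ (Bad u ω o) (Classical.propDecidable _) (mu δ S.w u o) 0) =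
        δ * ∑ z ∈ (B.N y).filter (fun z => C u ω z), S.w u z := by
      intro u
      rw [Fintype.sum_option, if_neg (fun h => by obtain ⟨z, hz, -⟩ := h; simp at hz), zero_add,
        sum_filter, mul_sum]
      have a9 : B.N y = univ.filter (fun z => z ∈ B.N y) := by
        ext z; simp
      conv_rhs => rw [a9, sum_filter]
      refine sum_congr rfl fun z _ => ?_
      have hiff : Bad u ω (some z) ↔ (z ∈ B.N y ∧ C u ω z) := by
        constructor
        · rintro ⟨z1, hz1, h2⟩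
          have : z = z1 := Option.some.inj hz1
          rw [this]
          exact h2
        · rintro h2
          exact ⟨z, rfl, h2⟩
      by_cases hb : z ∈ B.N y
      · by_cases hc : C u ω z
        · rw [if_pos (hiff.2 ⟨hb, hc⟩), if_pos hb, if_pos hc]
          rfl
        · rw [if_neg (fun h => hc (hiff.1 h).2), if_pos hb, if_neg hc, mul_zero]
      · rw [if_neg (fun h => hb (hiff.1 h).1), if_neg hb]
    simp only [h1]
    rw [← mul_sum]
    refine mul_le_mul_of_nonneg_left ?_ hδ.le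
    exact bad_le_Zy hI ω y (fun u => (B.N y).filter (fun z => C u ω z))
      (fun u => filter_subset _ _) (fun u z hz => (mem_filter.1 hz).2)
  have hT := comp_tail hP Bad hBad (20 * K0 * δ ^ 2 * D2) (4 * δ ^ 2 * K0 * D2)
  have hZ := Zy_tail hN hdg hI hD0 hD y
  rw [PP_split _ (fun ω => ¬ Zy A B S.w ω y ≤ 4 * δ * K0 * D2)]
  have h1 : PP (mu δ S.w) (fun ω => ¬ (cancF A B ω (B.N y) : ℝ) ≤ 20 * K0 * δ ^ 2 * D2 ∧
      ¬ Zy A B S.w ω y ≤ 4 * δ * K0 * D2) ≤ 2 * Real.exp (-(δ ^ 6 / (1000 * W ^ 2) * D)) :=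
    le_trans (PP_mono hP fun ω hω => hω.2) hZ
  have h2 : PP (mu δ S.w) (fun ω => ¬ (cancF A B ω (B.N y) : ℝ) ≤ 20 * K0 * δ ^ 2 * D2 ∧
      ¬ ¬ Zy A B S.w ω y ≤ 4 * δ * K0 * D2) ≤ Real.exp (-(δ ^ 6 / (1000 * W ^ 2) * D)) := by
    refine le_trans (PP_mono hP fun ω hω => ?_) (le_trans hT ?_)
    · obtain ⟨ha, hb⟩ := hω
      rw [not_not] at hb
      constructor
      · rw [← hX]
        exact (lt_of_not_ge ha).le
      · refine le_trans (hcomp ω) ?_
        calc δ * Zy A B S.w ω y ≤ δ * (4 * δ * K0 * D2) := mul_le_mul_of_nonneg_left hb hδ.le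
          _ = 4 * δ ^ 2 * K0 * D2 := by ring
    · refine Real.exp_le_exp.2 ?_
      have hd6 : δ ^ 6 ≤ δ ^ 2 := pow_le_pow_of_le_one hδ.le (by linarith) (by norm_num)
      have h3 : δ ^ 6 / (1000 * W ^ 2) * D ≤ δ ^ 2 * D2 := by
        refine mul_le_mul ?_ hD hD0 (by positivity)
        calc δ ^ 6 / (1000 * W ^ 2) ≤ δ ^ 6 / 1 := by
              refine div_le_div_of_nonneg_left (by positivity) (by norm_num) ?_
              nlinarith
          _ = δ ^ 6 := div_one _
          _ ≤ δ ^ 2 := hd6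
      have h4 : 0 ≤ δ ^ 2 * D2 := by positivity
      nlinarith
  linarith

end Pool.Agent.Helper5.BEC
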