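import Pool.Agent.Helper5.BEC.St.T1
import Pool.Agent.Helper5.BEC.St.B1
/-! Piece N1: numbers of picking vertices. -/
set_option autoImplicit false
namespace Pool.Agent.Helper5.BEC
open Finset Pool.Agent.Helper61.LE

variable {n : ℕ} {A B : Nb n} {ε D1 D2 D δ K0 W γ a ρ l p q d : ℝ} {S : St n}

/-- cost function of piece N1 -/
noncomputable def N1cost (X : Finset (Fin n)) (d : ℝ) (u : Fin n) (o : Option (Fin n)) : ℝ :=
  if u ∈ X ∧ o ≠ none then 1 / d else 0

theorem N1_cost_nonneg (X : Finset (Fin n)) (hd : 0 < d) (u : Fin n) (o : Option (Fin n)) :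
    0 ≤ N1cost X d u o := by
  unfold N1cost
  split_ifs
  · positivity
  · exact le_rfl

theorem N1_cost_le (X : Finset (Fin n)) (hd : 0 < d) (u : Fin n) (o : Option (Fin n)) :
    N1cost X d u o ≤ 1 / d := by
  unfold N1cost
  split_ifs
  · exact le_rfl
  · positivity

theorem N1_cost_none (X : Finset (Fin n)) (u : Fin n) : N1cost X d u none = 0 := by
  unfold N1cost
  rw [if_neg]
  rintro ⟨-, h⟩
  exact h rfl

theorem N1_cost_some (X : Finset (Fin n)) (u z : Fin n) :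
    N1cost X d u (some z) = if u ∈ X then 1 / d else 0 := by
  unfold N1cost
  by_cases h : u ∈ X <;> simp [h]

theorem N1_pickers (ω : Fin n → Option (Fin n)) (X : Finset (Fin n)) :
    (pickers ω X : ℝ) / d = ∑ u, N1cost X d u (ω u) := by
  classical
  unfold pickers N1cost
  rw [← Finset.sum_filter, Finset.sum_const, nsmul_eq_mul]
  have : (X.filter fun u => ω u ≠ none) = univ.filter (fun u => u ∈ X ∧ ω u ≠ none) := by
    ext u
    simp
  rw [div_eq_mul_one_div]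
  congr 2
  rw [← this]

/-- bounded differences for sums of functions of the single picks -/
theorem N1_bdd {c : Fin n → Option (Fin n) → ℝ} (hc : ∀ u o, 0 ≤ c u o) (i : Fin n)
    (ω : Fin n → Option (Fin n)) (a b : Option (Fin n)) :
    |(∑ u, c u (Function.update ω i a u)) - ∑ u, c u (Function.update ω i b u)| ≤
      c i a + c i b := by
  have h1 : ∀ o : Option (Fin n), ∑ u, c u (Function.update ω i o u) =
      c i o + ∑ u ∈ univ.erase i, c u (ω u) := by
    intro o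
    rw [← Finset.add_sum_erase univ _ (Finset.mem_univ i)]
    congr 1
    · rw [Function.update_self]
    · refine Finset.sum_congr rfl fun u hu => ?_
      rw [Function.update_of_ne (Finset.ne_of_mem_erase hu)]
  rw [h1, h1, add_sub_add_right_eq_sub]
  have ha := hc i a
  have hb := hc i b
  rw [abs_le]
  constructor <;> linarith

theorem N1_tail (hN : Num n ε D1 D2 δ K0 W γ a ρ) (hI : Inv A B D1 D2 W γ a l p q S)
    (X : Finset (Fin n)) (hd : 0 < d) (hX : (#X : ℝ) ≤ d) (hD0 : 0 ≤ D) (hD : D ≤ d) :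
    PP (mu δ S.w) (fun ω => δ ^ 3 ≤ |(pickers ω X : ℝ) / d -
      (∑ u ∈ X, δ * ∑ z, S.w u z) / d|) ≤
      2 * Real.exp (-(δ ^ 6 / (1000 * W ^ 2) * D)) := by
  have hδ0 := hN.δ0
  have hδ1 := hN.δ1
  have hγ0 := hN.γ0
  have hγ1 := hN.γ1
  have hW := hN.W1
  have hE : EE (mu δ S.w) (fun ω => (pickers ω X : ℝ) / d) =
      (∑ u ∈ X, δ * ∑ z, S.w u z) / d := by
    have h1 : EE (mu δ S.w) (fun ω => (pickers ω X : ℝ) / d) =
        EE (mu δ S.w) (fun ω => ∑ u, N1cost X d u (ω u)) :=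
      EE_congr fun ω => N1_pickers ω X
    rw [h1, EE_sum_pick hN hI _ (fun u => N1_cost_none X u), Finset.sum_div,
      ← Finset.sum_filter_add_sum_filter_not univ (fun u => u ∈ X)]
    have h2 : ∑ u ∈ univ.filter (fun u => ¬ u ∈ X), ∑ z, δ * S.w u z * N1cost X d u (some z) = 0 := by
      refine Finset.sum_eq_zero fun u hu => Finset.sum_eq_zero fun z _ => ?_
      rw [N1_cost_some, if_neg (Finset.mem_filter.mp hu).2, mul_zero]
    rw [h2, add_zero, Finset.filter_mem_eq_inter, Finset.univ_inter]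
    refine Finset.sum_congr rfl fun u hu => ?_
    rw [Finset.mul_sum, Finset.sum_div]
    refine Finset.sum_congr rfl fun z _ => ?_
    rw [N1_cost_some, if_pos hu]
    ring
  have hL : ∑ u, ∑ o, mu δ S.w u o * N1cost X d u o ≤ 2 := by
    have h1 : ∀ u, ∑ o, mu δ S.w u o * N1cost X d u o =
        ∑ z, δ * S.w u z * N1cost X d u (some z) := fun u =>
      sum_mu (fun o => N1cost X d u o) (N1_cost_none X u) u
    simp only [h1]
    have h2 : ∀ u, ∑ z, δ * S.w u z * N1cost X d u (some z) ≤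
        if u ∈ X then δ * (1 + γ) * (1 / d) else 0 := by
      intro u
      simp only [N1_cost_some]
      rw [← Finset.sum_mul, ← Finset.mul_sum]
      by_cases hu : u ∈ X
      · rw [if_pos hu, if_pos hu]
        have h3 := rowsum_le hI hγ0 u
        have h4 : 0 ≤ 1 / d := by positivity
        exact mul_le_mul_of_nonneg_right (mul_le_mul_of_nonneg_left h3 hδ0.le) h4
      · rw [if_neg hu, if_neg hu, mul_zero]
    refine (Finset.sum_le_sum fun u _ => h2 u).trans ?_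
    rw [← Finset.sum_filter, Finset.sum_const, nsmul_eq_mul, Finset.filter_mem_eq_inter,
      Finset.univ_inter]
    have h5 : (#X : ℝ) * (δ * (1 + γ) * (1 / d)) = δ * (1 + γ) * (#X / d) := by ring
    rw [h5]
    have h6 : (#X : ℝ) / d ≤ 1 := (div_le_one hd).mpr hX
    have h7 : 0 ≤ (#X : ℝ) / d := by positivity
    have h8 : δ * (1 + γ) ≤ 1 := by nlinarith
    nlinarith
  have key := tail (isProb_mu hN hI) (N1cost X d) (fun ω => (pickers ω X : ℝ) / d)
    (m := 1 / d) (L := 2) (t := δ ^ 3) (fun i o => N1_cost_nonneg X hd i o)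
    (fun i o => N1_cost_le X hd i o) (by positivity) hL (by norm_num) (by positivity)
    (by
      have : δ ^ 3 ≤ 1 := pow_le_one₀ hδ0.le (by linarith)
      linarith)
    (by
      intro i ω a b
      simp only [N1_pickers]
      exact N1_bdd (fun u o => N1_cost_nonneg X hd u o) i ω a b)
  rw [hE] at key
  refine key.trans ?_
  refine mul_le_mul_of_nonneg_left (Real.exp_le_exp.mpr (neg_le_neg ?_)) (by norm_num)
  have h9 : (δ ^ 3) ^ 2 / (16 * (1 / d) * 2) = δ ^ 6 / 32 * d := by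
    field_simp
    ring
  rw [h9]
  have h10 : δ ^ 6 / (1000 * W ^ 2) ≤ δ ^ 6 / 32 := by
    apply div_le_div_of_nonneg_left (by positivity) (by norm_num)
    nlinarith
  have h11 : 0 ≤ δ ^ 6 / (1000 * W ^ 2) := by positivity
  calc δ ^ 6 / (1000 * W ^ 2) * D ≤ δ ^ 6 / 32 * D := mul_le_mul_of_nonneg_right h10 hD0
    _ ≤ δ ^ 6 / 32 * d := mul_le_mul_of_nonneg_left hD (by positivity)

/-- `pickers ω X / d` has cost `1/d` for `u ∈ X`; `m = 1/d`, `L = 2`, `t = δ³`; expectation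
`δ ∑_{u ∈ X} R(u) / d` with `R(u) ≥ 1 - γ` on `U`. -/
theorem pickers_lower (hN : Num n ε D1 D2 δ K0 W γ a ρ) (hI : Inv A B D1 D2 W γ a l p q S)
    (X : Finset (Fin n)) (hd : 0 < d) (hX : (#X : ℝ) ≤ d) (hXU : X ⊆ S.U)
    (hD0 : 0 ≤ D) (hD : D ≤ d) :
    PP (mu δ S.w) (fun ω => ¬ δ * (1 - γ) * #X - δ ^ 3 * d ≤ pickers ω X) ≤
      2 * Real.exp (-(δ ^ 6 / (1000 * W ^ 2) * D)) := by
  refine (PP_mono (isProb_mu hN hI) fun ω hω => ?_).trans (N1_tail hN hI X hd hX hD0 hD)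
  rw [not_le] at hω
  have hδ0 := hN.δ0
  have h1 : δ * (1 - γ) * #X ≤ ∑ u ∈ X, δ * ∑ z, S.w u z := by
    have h2 : ∑ u ∈ X, δ * (1 - γ) ≤ ∑ u ∈ X, δ * ∑ z, S.w u z := by
      refine Finset.sum_le_sum fun u hu => mul_le_mul_of_nonneg_left ?_ hδ0.le
      have h3 := (abs_le.mp (hI.row u (hXU hu))).1
      linarith
    rw [Finset.sum_const, nsmul_eq_mul] at h2
    linarith
  have h4 : (pickers ω X : ℝ) / d - (∑ u ∈ X, δ * ∑ z, S.w u z) / d ≤ -δ ^ 3 := by
    rw [← sub_div, div_le_iff₀ hd]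
    linarith
  rw [abs_sub_comm]
  refine le_trans ?_ (le_abs_self _)
  linarith

/-- expectation at most `δ (1+γ) |X ∩ U| ≤ δ (1+γ) a d ≤ 1.2 δ d` -/
theorem pickers_upper (hN : Num n ε D1 D2 δ K0 W γ a ρ) (hI : Inv A B D1 D2 W γ a l p q S)
    (X : Finset (Fin n)) (hd : 0 < d) (hX : (#X : ℝ) ≤ d) (hXa : (#(X ∩ S.U) : ℝ) ≤ a * d)
    (hD0 : 0 ≤ D) (hD : D ≤ d) :
    PP (mu δ S.w) (fun ω => ¬ (pickers ω X : ℝ) ≤ 2 * δ * d) ≤
      2 * Real.exp (-(δ ^ 6 / (1000 * W ^ 2) * D)) := by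
  refine (PP_mono (isProb_mu hN hI) fun ω hω => ?_).trans (N1_tail hN hI X hd hX hD0 hD)
  rw [not_le] at hω
  have hδ0 := hN.δ0
  have hδ1 := hN.δ1
  have hγ0 := hN.γ0
  have hγ1 := hN.γ1
  have ha0 := hN.a0
  have ha1 := hN.a1
  have h1 : ∑ u ∈ X, δ * ∑ z, S.w u z ≤ δ * (1 + γ) * #(X ∩ S.U) := by
    have h2 : ∑ u ∈ X, δ * ∑ z, S.w u z = ∑ u ∈ X ∩ S.U, δ * ∑ z, S.w u z := by
      symm
      apply Finset.sum_subset Finset.inter_subset_left
      intro u hu hu'
      have hu2 : u ∉ S.U := fun h => hu' (Finset.mem_inter.mpr ⟨hu, h⟩)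
      rw [Finset.sum_eq_zero fun z _ => hI.wU u z hu2, mul_zero]
    rw [h2]
    have h3 : ∑ u ∈ X ∩ S.U, δ * ∑ z, S.w u z ≤ ∑ u ∈ X ∩ S.U, δ * (1 + γ) :=
      Finset.sum_le_sum fun u _ => mul_le_mul_of_nonneg_left (rowsum_le hI hγ0 u) hδ0.le
    rw [Finset.sum_const, nsmul_eq_mul] at h3
    linarith
  have h2 : ∑ u ∈ X, δ * ∑ z, S.w u z ≤ (3 / 2) * δ * d := by
    refine h1.trans ?_
    have h3 : δ * (1 + γ) * #(X ∩ S.U) ≤ δ * (1 + γ) * (a * d) :=
      mul_le_mul_of_nonneg_left hXa (by positivity)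
    refine h3.trans ?_
    have h4 : (1 + γ) * a ≤ 3 / 2 := by nlinarith
    have h5 : δ * (1 + γ) * (a * d) = ((1 + γ) * a) * (δ * d) := by ring
    rw [h5]
    have h6 : 0 ≤ δ * d := by positivity
    nlinarith
  have h7 : δ ^ 3 ≤ δ / 2 := by
    have h8 : δ ^ 2 ≤ 1 / 2 := by nlinarith
    have h9 : δ ^ 3 = δ * δ ^ 2 := by ring
    rw [h9]
    nlinarith
  refine le_trans ?_ (le_abs_self _)
  rw [← sub_div, le_div_iff₀ hd]
  nlinarith

end Pool.Agent.Helper5.BEC
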