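import Pool.Agent.Helper5.BEC.St.T1
import Pool.Agent.Helper5.BEC.St.B1
/-! Piece N2: numbers of picked positions. -/
set_option autoImplicit false
namespace Pool.Agent.Helper5.BEC
open Finset Pool.Agent.Helper61.LE

variable {n : ℕ} {A B : Nb n} {ε D1 D2 D δ K0 W γ a ρ l p q d : ℝ} {S : St n}

open Classical in
/-- the cost of a pick `(u,z)`, `z ∈ Y` -/
private noncomputable def n2c (Y : Finset (Fin n)) (d : ℝ) (o : Option (Fin n)) : ℝ :=
  match o with
  | none => 0
  | some z => if z ∈ Y then 1 / d else 0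

private theorem n2c_nonneg (Y : Finset (Fin n)) (hd : 0 < d) (o : Option (Fin n)) :
    0 ≤ n2c Y d o := by
  unfold n2c
  split
  · exact le_refl _
  · split_ifs
    · positivity
    · exact le_refl _

private theorem n2c_le (Y : Finset (Fin n)) (hd : 0 < d) (o : Option (Fin n)) :
    n2c Y d o ≤ 1 / d := by
  unfold n2c
  split
  · positivity
  · split_ifs
    · exact le_refl _
    · positivity

private theorem n2c_sum (hN : Num n ε D1 D2 δ K0 W γ a ρ) (hI : Inv A B D1 D2 W γ a l p q S)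
    (Y : Finset (Fin n)) (hd : 0 < d) (hY : (#Y : ℝ) ≤ d) :
    ∑ u, ∑ o, mu δ S.w u o * n2c Y d o ≤ 2 := by
  classical
  have h1 : ∀ u, ∑ o, mu δ S.w u o * n2c Y d o = ∑ z ∈ Y, δ * S.w u z * (1 / d) := by
    intro u
    rw [sum_mu (n2c Y d) rfl u]
    have h2 : ∀ z, δ * S.w u z * n2c Y d (some z) =
        if z ∈ Y then δ * S.w u z * (1 / d) else 0 := by
      intro z
      unfold n2c
      by_cases hz : z ∈ Y
      · simp only [hz, if_true]
      · simp only [hz, if_false, mul_zero]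
    rw [Finset.sum_congr rfl fun z _ => h2 z, Finset.sum_ite_mem, Finset.univ_inter]
  rw [Finset.sum_congr rfl fun u _ => h1 u, Finset.sum_comm]
  have h3 : ∀ z ∈ Y, ∑ u, δ * S.w u z * (1 / d) ≤ 2 * (1 / d) := by
    intro z _
    rw [← Finset.sum_mul, ← Finset.mul_sum]
    apply mul_le_mul_of_nonneg_right _ (by positivity)
    have h4 := colsum_le hI hN.γ0 z
    have h5 := hN.δ1
    have h6 := hN.δ0
    have h7 := hN.γ1
    have h8 : δ * ∑ u, S.w u z ≤ δ * (1 + γ) := mul_le_mul_of_nonneg_left h4 h6.le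
    nlinarith [hN.γ0]
  refine (Finset.sum_le_sum h3).trans ?_
  rw [Finset.sum_const, nsmul_eq_mul]
  have h9 : (#Y : ℝ) * (2 * (1 / d)) = 2 * (#Y / d) := by ring
  rw [h9]
  have h10 : (#Y : ℝ) / d ≤ 1 := (div_le_one hd).2 hY
  linarith

private theorem n2_exp (hN : Num n ε D1 D2 δ K0 W γ a ρ) (hd : 0 < d) (hD0 : 0 ≤ D) (hD : D ≤ d) :
    2 * Real.exp (-((δ ^ 3) ^ 2 / (16 * (1 / d) * 2))) ≤
      2 * Real.exp (-(δ ^ 6 / (1000 * W ^ 2) * D)) := by
  have hδ := hN.δ0
  have hW := hN.W1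
  apply mul_le_mul_of_nonneg_left _ (by norm_num)
  apply Real.exp_le_exp.2
  apply neg_le_neg
  have h1 : (δ ^ 3) ^ 2 / (16 * (1 / d) * 2) = δ ^ 6 * (d / 32) := by
    field_simp
    ring
  have h2 : δ ^ 6 / (1000 * W ^ 2) * D = δ ^ 6 * (D / (1000 * W ^ 2)) := by ring
  rw [h1, h2]
  apply mul_le_mul_of_nonneg_left _ (by positivity)
  have hW2 : 1 ≤ W ^ 2 := one_le_pow₀ hW
  calc D / (1000 * W ^ 2) ≤ D / 32 := by
        apply div_le_div_of_nonneg_left hD0 (by norm_num)
        linarith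
    _ ≤ d / 32 := by
        apply div_le_div_of_nonneg_right hD (by norm_num)

open Classical in
private theorem picked_diff (Y : Finset (Fin n)) (ω : Fin n → Option (Fin n)) (u : Fin n)
    (x y : Option (Fin n)) :
    (picked (Function.update ω u x) Y : ℝ) ≤ picked (Function.update ω u y) Y +
      (if ∃ z ∈ Y, x = some z then 1 else 0) := by
  unfold picked
  by_cases hx : ∃ z ∈ Y, x = some z
  · rw [if_pos hx]
    obtain ⟨z, hz, rfl⟩ := hx
    have hsub : (Y.filter fun z' => ∃ u', Function.update ω u (some z) u' = some z') ⊆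
        insert z (Y.filter fun z' => ∃ u', Function.update ω u y u' = some z') := by
      intro z' hz'
      rw [Finset.mem_filter] at hz'
      obtain ⟨hz'Y, u', hu'⟩ := hz'
      rw [Finset.mem_insert, Finset.mem_filter]
      by_cases huu : u' = u
      · subst huu
        rw [Function.update_self] at hu'
        left
        exact (Option.some.inj hu').symm
      · right
        refine ⟨hz'Y, u', ?_⟩
        rw [Function.update_of_ne huu] at hu' ⊢
        exact hu'
    have h1 := (Finset.card_le_card hsub).trans (Finset.card_insert_le _ _)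
    exact_mod_cast h1
  · rw [if_neg hx, add_zero]
    have hsub : (Y.filter fun z' => ∃ u', Function.update ω u x u' = some z') ⊆
        (Y.filter fun z' => ∃ u', Function.update ω u y u' = some z') := by
      intro z' hz'
      rw [Finset.mem_filter] at hz'
      obtain ⟨hz'Y, u', hu'⟩ := hz'
      rw [Finset.mem_filter]
      by_cases huu : u' = u
      · subst huu
        rw [Function.update_self] at hu'
        exact absurd ⟨z', hz'Y, hu'⟩ hx
      · refine ⟨hz'Y, u', ?_⟩
        rw [Function.update_of_ne huu] at hu' ⊢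
        exact hu'
    exact_mod_cast Finset.card_le_card hsub

open Classical in
private theorem pickin_diff (Y : Finset (Fin n)) (ω : Fin n → Option (Fin n)) (u : Fin n)
    (x y : Option (Fin n)) :
    (pickin (Function.update ω u x) Y : ℝ) ≤ pickin (Function.update ω u y) Y +
      (if ∃ z ∈ Y, x = some z then 1 else 0) := by
  unfold pickin
  by_cases hx : ∃ z ∈ Y, x = some z
  · rw [if_pos hx]
    have hsub : (univ.filter fun u' => ∃ z ∈ Y, Function.update ω u x u' = some z) ⊆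
        insert u (univ.filter fun u' => ∃ z ∈ Y, Function.update ω u y u' = some z) := by
      intro u' hu'
      rw [Finset.mem_filter] at hu'
      obtain ⟨-, z', hz', hu'⟩ := hu'
      rw [Finset.mem_insert, Finset.mem_filter]
      by_cases huu : u' = u
      · left
        exact huu
      · right
        refine ⟨Finset.mem_univ _, z', hz', ?_⟩
        rw [Function.update_of_ne huu] at hu' ⊢
        exact hu'
    have h1 := (Finset.card_le_card hsub).trans (Finset.card_insert_le _ _)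
    exact_mod_cast h1
  · rw [if_neg hx, add_zero]
    have hsub : (univ.filter fun u' => ∃ z ∈ Y, Function.update ω u x u' = some z) ⊆
        (univ.filter fun u' => ∃ z ∈ Y, Function.update ω u y u' = some z) := by
      intro u' hu'
      rw [Finset.mem_filter] at hu'
      obtain ⟨-, z', hz', hu'⟩ := hu'
      rw [Finset.mem_filter]
      by_cases huu : u' = u
      · subst huu
        rw [Function.update_self] at hu'
        exact absurd ⟨z', hz', hu'⟩ hx
      · refine ⟨Finset.mem_univ _, z', hz', ?_⟩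
        rw [Function.update_of_ne huu] at hu' ⊢
        exact hu'
    exact_mod_cast Finset.card_le_card hsub

open Classical in
private theorem n2c_eq (Y : Finset (Fin n)) (d : ℝ) (o : Option (Fin n)) :
    n2c Y d o = (if ∃ z ∈ Y, o = some z then 1 else 0) / d := by
  unfold n2c
  cases o with
  | none => simp
  | some z =>
    by_cases hz : z ∈ Y
    · have : ∃ z' ∈ Y, some z = some z' := ⟨z, hz, rfl⟩
      simp only [hz, if_true, this]
    · have : ¬ ∃ z' ∈ Y, some z = some z' := by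
        rintro ⟨z', hz', h⟩
        exact hz (Option.some.inj h ▸ hz')
      simp only [hz, if_false, this, zero_div]

private theorem n2_abs (Y : Finset (Fin n)) (hd : 0 < d) (f : (Fin n → Option (Fin n)) → ℕ)
    (hf : ∀ (ω : Fin n → Option (Fin n)) (u : Fin n) (x y : Option (Fin n)),
      (f (Function.update ω u x) : ℝ) ≤ f (Function.update ω u y) + d * n2c Y d x)
    (u : Fin n) (ω : Fin n → Option (Fin n)) (x y : Option (Fin n)) :
    |(f (Function.update ω u x) : ℝ) / d - (f (Function.update ω u y) : ℝ) / d| ≤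
      n2c Y d x + n2c Y d y := by
  have h1 := hf ω u x y
  have h2 := hf ω u y x
  have hx := n2c_nonneg Y hd x
  have hy := n2c_nonneg Y hd y
  rw [← sub_div, abs_div, abs_of_pos hd, div_le_iff₀ hd, abs_le]
  constructor <;> nlinarith

private theorem n2_tail (hN : Num n ε D1 D2 δ K0 W γ a ρ) (hI : Inv A B D1 D2 W γ a l p q S)
    (Y : Finset (Fin n)) (hd : 0 < d) (hY : (#Y : ℝ) ≤ d) (hD0 : 0 ≤ D) (hD : D ≤ d)
    (f : (Fin n → Option (Fin n)) → ℕ)
    (hf : ∀ (ω : Fin n → Option (Fin n)) (u : Fin n) (x y : Option (Fin n)),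
      (f (Function.update ω u x) : ℝ) ≤ f (Function.update ω u y) + d * n2c Y d x) :
    PP (mu δ S.w) (fun ω => δ ^ 3 ≤
      |(f ω : ℝ) / d - EE (mu δ S.w) (fun ω => (f ω : ℝ) / d)|) ≤
      2 * Real.exp (-(δ ^ 6 / (1000 * W ^ 2) * D)) := by
  have hδ := hN.δ0
  have hδ1 := hN.δ1
  have h3 : δ ^ 3 ≤ 4 * 2 := by
    have h4 : δ ^ 3 ≤ 1 := pow_le_one₀ hδ.le (by linarith)
    linarith
  exact (tail (isProb_mu hN hI) (fun _ => n2c Y d) (fun ω => (f ω : ℝ) / d)
    (m := 1 / d) (L := 2) (t := δ ^ 3) (fun _ o => n2c_nonneg Y hd o) (fun _ o => n2c_le Y hd o)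
    (by positivity) (n2c_sum hN hI Y hd hY) (by norm_num) (by positivity) h3
    (fun u ω x y => n2_abs Y hd f hf u ω x y)).trans (n2_exp hN hd hD0 hD)

/-- `picked ω Y / d` has cost `1/d` for a pick `(u,z)`, `z ∈ Y`; `m = 1/d`, `L = 2`, `t = δ³`;
`P(z is picked) = 1 - ∏(1 - δ w u z) ≥ δ C - δ² C²/2 ≥ δ(1-γ) - δ²` for `z ∈ F`. -/
theorem picked_lower (hN : Num n ε D1 D2 δ K0 W γ a ρ) (hI : Inv A B D1 D2 W γ a l p q S)
    (Y : Finset (Fin n)) (hd : 0 < d) (hY : (#Y : ℝ) ≤ d) (hYF : Y ⊆ S.F)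
    (hD0 : 0 ≤ D) (hD : D ≤ d) :
    PP (mu δ S.w) (fun ω => ¬ (δ * (1 - γ) - δ ^ 2) * #Y - δ ^ 3 * d ≤ picked ω Y) ≤
      2 * Real.exp (-(δ ^ 6 / (1000 * W ^ 2) * D)) := by
  classical
  have hP := isProb_mu hN hI
  have hδ := hN.δ0
  have hδ1 := hN.δ1
  have hγ0 := hN.γ0
  have hγ1 := hN.γ1
  -- the expectation
  have hz : ∀ z ∈ Y, δ * (1 - γ) - δ ^ 2 ≤
      EE (mu δ S.w) (fun ω => if ∃ u, ω u = some z then (1 : ℝ) else 0) := by
    intro z hzY
    have h1 : ∀ ω : Fin n → Option (Fin n), (if ∃ u, ω u = some z then (1 : ℝ) else 0) =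
        1 - (if (∀ u ∈ (univ : Finset (Fin n)), ∀ z' ∈ (fun _ : Fin n => ({z} : Finset (Fin n))) u,
          ω u ≠ some z') then (1 : ℝ) else 0) := by
      intro ω
      by_cases h : ∃ u, ω u = some z
      · rw [if_pos h, if_neg, sub_zero]
        intro h2
        obtain ⟨u, hu⟩ := h
        exact h2 u (Finset.mem_univ _) z (Finset.mem_singleton_self z) hu
      · rw [if_neg h, if_pos, sub_self]
        intro u _ z' hz' hu
        rw [Finset.mem_singleton] at hz'
        exact h ⟨u, hz' ▸ hu⟩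
    have h2 := avoid_prob hN hI (univ : Finset (Fin n)) (fun _ => ({z} : Finset (Fin n)))
    rw [EE_congr h1, EE_sub, EE_const hP]
    have h3 : EE (mu δ S.w) (fun ω => if (∀ u ∈ (univ : Finset (Fin n)),
        ∀ z' ∈ (fun _ : Fin n => ({z} : Finset (Fin n))) u, ω u ≠ some z') then (1 : ℝ) else 0) =
        ∏ u, (1 - δ * S.w u z) := by
      have h4 := Pool.Agent.Helper5.AVD.EE_ind (μ := mu δ S.w)
        (A := fun ω => ∀ u ∈ (univ : Finset (Fin n)),
          ∀ z' ∈ (fun _ : Fin n => ({z} : Finset (Fin n))) u, ω u ≠ some z')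
      rw [h4, h2]
      refine Finset.prod_congr rfl fun u _ => ?_
      rw [Finset.sum_singleton]
    rw [h3]
    have hcol := hI.col z (hYF hzY)
    rw [abs_le] at hcol
    have hw0 : ∀ u ∈ (univ : Finset (Fin n)), 0 ≤ δ * S.w u z :=
      fun u _ => mul_nonneg hδ.le (hI.w0 u z)
    have hcs := colsum_le hI hγ0 z
    have hw1 : ∀ u ∈ (univ : Finset (Fin n)), δ * S.w u z ≤ 1 := by
      intro u _
      have h5 : S.w u z ≤ ∑ u, S.w u z :=
        Finset.single_le_sum (fun u _ => hI.w0 u z) (Finset.mem_univ u)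
      have h6 : δ * S.w u z ≤ δ * (1 + γ) := mul_le_mul_of_nonneg_left (h5.trans hcs) hδ.le
      nlinarith
    have h7 := prod_one_sub_le univ (fun u => δ * S.w u z) hw0 hw1
    simp only [← Finset.mul_sum] at h7
    obtain ⟨C, hC⟩ : ∃ C : ℝ, C = ∑ u, S.w u z := ⟨_, rfl⟩
    rw [← hC] at h7 hcol hcs
    have h8 : δ * (1 - γ) ≤ δ * C := mul_le_mul_of_nonneg_left (by linarith) hδ.le
    have h9 : (δ * C) ^ 2 / 2 ≤ δ ^ 2 := by
      have hC0 : 0 ≤ C := by linarith
      have h10 : C ^ 2 ≤ 2 := by nlinarith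
      rw [mul_pow]
      nlinarith [sq_nonneg δ]
    linarith
  have hE : (δ * (1 - γ) - δ ^ 2) * #Y / d ≤ EE (mu δ S.w) (fun ω => (picked ω Y : ℝ) / d) := by
    have h1 : ∀ ω : Fin n → Option (Fin n), (picked ω Y : ℝ) / d =
        (∑ z ∈ Y, if ∃ u, ω u = some z then (1 : ℝ) else 0) * (1 / d) := by
      intro ω
      unfold picked
      rw [Finset.sum_boole, mul_one_div]
    rw [EE_congr h1, EE_mul_const, EE_sum, div_eq_mul_one_div]
    apply mul_le_mul_of_nonneg_right _ (by positivity)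
    calc (δ * (1 - γ) - δ ^ 2) * #Y = ∑ _z ∈ Y, (δ * (1 - γ) - δ ^ 2) := by
          rw [Finset.sum_const, nsmul_eq_mul, mul_comm]
      _ ≤ _ := Finset.sum_le_sum hz
  refine (PP_mono hP ?_).trans (n2_tail hN hI Y hd hY hD0 hD (fun ω => picked ω Y) ?_)
  · intro ω hω
    rw [not_le] at hω
    have h1 : (picked ω Y : ℝ) / d < (δ * (1 - γ) - δ ^ 2) * #Y / d - δ ^ 3 := by
      rw [div_lt_iff₀ hd, sub_mul, div_mul_cancel₀ _ hd.ne']
      exact hω
    rw [abs_sub_comm]
    refine le_trans ?_ (le_abs_self _)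
    linarith
  · intro ω u x y
    rw [n2c_eq, mul_div_cancel₀ _ hd.ne']
    exact picked_diff Y ω u x y

/-- same cost; expectation `δ ∑_{z ∈ Y} C(z) ≤ δ (1+γ) |Y ∩ F| ≤ 1.2 δ d` -/
theorem pickin_upper (hN : Num n ε D1 D2 δ K0 W γ a ρ) (hI : Inv A B D1 D2 W γ a l p q S)
    (Y : Finset (Fin n)) (hd : 0 < d) (hY : (#Y : ℝ) ≤ d) (hYa : (#(Y ∩ S.F) : ℝ) ≤ a * d)
    (hD0 : 0 ≤ D) (hD : D ≤ d) :
    PP (mu δ S.w) (fun ω => ¬ (pickin ω Y : ℝ) ≤ 2 * δ * d) ≤
      2 * Real.exp (-(δ ^ 6 / (1000 * W ^ 2) * D)) := by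
  classical
  have hP := isProb_mu hN hI
  have hδ := hN.δ0
  have hδ1 := hN.δ1
  have hγ0 := hN.γ0
  have hγ1 := hN.γ1
  have ha0 := hN.a0
  have ha1 := hN.a1
  have hE : EE (mu δ S.w) (fun ω => (pickin ω Y : ℝ) / d) ≤ 2 * δ - δ ^ 3 := by
    obtain ⟨g, hg⟩ : ∃ g : Fin n → Option (Fin n) → ℝ,
      g = fun _ o => if ∃ z ∈ Y, o = some z then (1 : ℝ) else 0 := ⟨_, rfl⟩
    have h1 : ∀ ω : Fin n → Option (Fin n), (pickin ω Y : ℝ) / d =
        (∑ u, g u (ω u)) * (1 / d) := by
      intro ω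
      unfold pickin
      rw [hg]
      simp only [Finset.sum_boole, mul_one_div]
    rw [EE_congr h1, EE_mul_const, EE_sum_pick hN hI g (by intro u; rw [hg]; simp), hg]
    have h2 : ∀ u : Fin n, ∑ z, δ * S.w u z * (if ∃ z' ∈ Y, some z = some z' then (1 : ℝ) else 0) =
        ∑ z ∈ Y ∩ S.F, δ * S.w u z := by
      intro u
      rw [← Finset.univ_inter (Y ∩ S.F), ← Finset.sum_ite_mem]
      refine Finset.sum_congr rfl fun z _ => ?_
      have h3 : (∃ z' ∈ Y, some z = some z') ↔ z ∈ Y := by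
        constructor
        · rintro ⟨z', hz', h⟩
          exact Option.some.inj h ▸ hz'
        · intro h
          exact ⟨z, h, rfl⟩
      by_cases hz : z ∈ Y
      · by_cases hzF : z ∈ S.F
        · rw [if_pos (h3.2 hz), if_pos (Finset.mem_inter.2 ⟨hz, hzF⟩), mul_one]
        · rw [hI.wF u z hzF]
          simp
      · rw [if_neg (fun h => hz (h3.1 h)), if_neg (fun h => hz (Finset.mem_inter.1 h).1), mul_zero]
    rw [Finset.sum_congr rfl fun u _ => h2 u, Finset.sum_comm]
    have h3 : ∀ z ∈ Y ∩ S.F, ∑ u, δ * S.w u z ≤ δ * (1 + γ) := by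
      intro z _
      rw [← Finset.mul_sum]
      exact mul_le_mul_of_nonneg_left (colsum_le hI hγ0 z) hδ.le
    have h4 : (∑ z ∈ Y ∩ S.F, ∑ u, δ * S.w u z) ≤ (a * d) * (δ * (1 + γ)) := by
      refine (Finset.sum_le_sum h3).trans ?_
      rw [Finset.sum_const, nsmul_eq_mul]
      exact mul_le_mul_of_nonneg_right hYa (by positivity)
    calc (∑ z ∈ Y ∩ S.F, ∑ u, δ * S.w u z) * (1 / d) ≤ (a * d) * (δ * (1 + γ)) * (1 / d) :=
          mul_le_mul_of_nonneg_right h4 (by positivity)
      _ = a * (1 + γ) * δ := by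
          field_simp
      _ ≤ (3 / 2) * δ := by
          apply mul_le_mul_of_nonneg_right _ hδ.le
          nlinarith
      _ ≤ 2 * δ - δ ^ 3 := by
          have h5 : δ ^ 3 = δ * δ ^ 2 := by ring
          have h6 : δ ^ 2 ≤ 1 / 2 := by nlinarith
          rw [h5]
          nlinarith
  refine (PP_mono hP ?_).trans (n2_tail hN hI Y hd hY hD0 hD (fun ω => pickin ω Y) ?_)
  · intro ω hω
    rw [not_le] at hω
    have h1 : 2 * δ < (pickin ω Y : ℝ) / d := by
      rw [lt_div_iff₀ hd]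
      exact hω
    refine le_trans ?_ (le_abs_self _)
    linarith
  · intro ω u x y
    rw [n2c_eq, mul_div_cancel₀ _ hd.ne']
    exact pickin_diff Y ω u x y

end Pool.Agent.Helper5.BEC
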