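import Pool.Agent.Helper5.BEC.St.T1
import Pool.Agent.Helper5.BEC.St.B1
/-! Piece Q2: new candidates. -/
set_option autoImplicit false
namespace Pool.Agent.Helper5.BEC
open Finset Pool.Agent.Helper61.LE

variable {n : ℕ} {A B : Nb n} {ε D1 D2 D δ K0 W γ a ρ l p q : ℝ} {S : St n}

open Classical in
/-- contribution of the pick of `u` to `news` -/
noncomputable def gnew (S : St n) (v y u : Fin n) (o : Option (Fin n)) : ℝ :=
  if ∃ z, o = some z ∧ (v, z) ∉ S.K ∧ (u, y) ∉ S.K then 1 else 0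

theorem gnew_none (S : St n) (v y u : Fin n) : gnew S v y u none = 0 := by
  unfold gnew
  rw [if_neg]
  rintro ⟨z, hz, -⟩
  exact absurd hz (by simp)

open Classical in
theorem gnew_some (S : St n) (v y u z : Fin n) :
    gnew S v y u (some z) = if (v, z) ∉ S.K ∧ (u, y) ∉ S.K then 1 else 0 := by
  unfold gnew
  by_cases h : (v, z) ∉ S.K ∧ (u, y) ∉ S.K
  · rw [if_pos h, if_pos ⟨z, rfl, h.1, h.2⟩]
  · rw [if_neg h, if_neg]
    rintro ⟨z', hz, h1, h2⟩
    rw [Option.some.injEq] at hz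
    subst hz
    exact h ⟨h1, h2⟩

theorem gnew_nonneg (S : St n) (v y u : Fin n) (o : Option (Fin n)) : 0 ≤ gnew S v y u o := by
  unfold gnew
  split_ifs
  · exact zero_le_one
  · exact le_refl _

theorem gnew_le_one (S : St n) (v y u : Fin n) (o : Option (Fin n)) : gnew S v y u o ≤ 1 := by
  unfold gnew
  split_ifs
  · exact le_refl _
  · exact zero_le_one

theorem news_eq_sum (S : St n) (ω : Fin n → Option (Fin n)) (v y : Fin n) :
    (news S ω v y : ℝ) = ∑ u, gnew S v y u (ω u) := by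
  classical
  unfold news gnew
  rw [Finset.card_filter, Nat.cast_sum]
  refine Finset.sum_congr rfl fun u _ => ?_
  by_cases h : ∃ z, ω u = some z ∧ (v, z) ∉ S.K ∧ (u, y) ∉ S.K
  · rw [if_pos h, if_pos h, Nat.cast_one]
  · rw [if_neg h, if_neg h, Nat.cast_zero]

/-- `E news = δ ∑_{u : (u,y) ∉ K} ∑_{z : (v,z) ∉ K} w u z
≥ δ (∑_{u ∈ U} R(u) - ∑_{u : (u,y) ∈ K} R(u) - ∑_{z : (v,z) ∈ K} C(z))
≥ δ ((1-γ)(1-p) - 2(1+γ)p) n ≥ 0.6 δ n` for `p ≤ 1/8`. -/
theorem EE_news (hN : Num n ε D1 D2 δ K0 W γ a ρ) (hI : Inv A B D1 D2 W γ a l p q S)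
    (hp : p ≤ 1 / 8) (v y : Fin n) :
    (6 / 10) * δ * n ≤ EE (mu δ S.w) (fun ω => (news S ω v y : ℝ)) := by
  classical
  have hγ0 := hN.γ0
  have hγ1 := hN.γ1
  have hδ0 := hN.δ0
  have hn1 : (1 : ℝ) ≤ n := by exact_mod_cast hN.n1
  have e1 : EE (mu δ S.w) (fun ω => (news S ω v y : ℝ)) =
      ∑ u, ∑ z, δ * S.w u z * gnew S v y u (some z) := by
    rw [← EE_sum_pick hN hI (gnew S v y) (gnew_none S v y)]
    exact EE_congr fun ω => news_eq_sum S ω v y
  have hp0 : 0 ≤ p * n := le_trans (Nat.cast_nonneg _) (hI.pz v)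
  -- termwise bound
  have ht : ∀ u z, δ * S.w u z - δ * (if (u, y) ∈ S.K then S.w u z else 0) -
      δ * (if (v, z) ∈ S.K then S.w u z else 0) ≤ δ * S.w u z * gnew S v y u (some z) := by
    intro u z
    rw [gnew_some]
    have hw := mul_nonneg hδ0.le (hI.w0 u z)
    by_cases h1 : (u, y) ∈ S.K
    · by_cases h2 : (v, z) ∈ S.K
      · simp [h1, h2]
        linarith
      · simp [h1, h2]
    · by_cases h2 : (v, z) ∈ S.K
      · simp [h1, h2]
      · simp [h1, h2]
  have h1 : ∑ u, ∑ z, S.w u z ≥ (1 - γ) * ((1 - p) * n) := by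
    have ha : ∑ u, ∑ z, S.w u z ≥ ∑ u ∈ S.U, ∑ z, S.w u z :=
      Finset.sum_le_sum_of_subset_of_nonneg (Finset.subset_univ _)
        fun u _ _ => Finset.sum_nonneg fun z _ => hI.w0 u z
    have hb : ∑ u ∈ S.U, ∑ z, S.w u z ≥ ∑ _u ∈ S.U, (1 - γ) :=
      Finset.sum_le_sum fun u hu => by
        have := (abs_le.1 (hI.row u hu)).1
        linarith
    rw [Finset.sum_const, nsmul_eq_mul] at hb
    have hc : (1 - γ) * ((1 - p) * n) ≤ (1 - γ) * #S.U :=
      mul_le_mul_of_nonneg_left hI.pN (by linarith)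
    have hd : (1 - γ) * (#S.U : ℝ) = (#S.U : ℝ) * (1 - γ) := mul_comm _ _
    linarith
  have h2 : ∑ u, ∑ z, (if (u, y) ∈ S.K then S.w u z else 0) ≤ (1 + γ) * (p * n) := by
    have ha : ∑ u, ∑ z, (if (u, y) ∈ S.K then S.w u z else 0) ≤
        ∑ u, (if (u, y) ∈ S.K then (1 + γ) else 0) := by
      refine Finset.sum_le_sum fun u _ => ?_
      by_cases h : (u, y) ∈ S.K
      · simp only [if_pos h]
        exact rowsum_le hI hγ0 u
      · simp only [if_neg h, Finset.sum_const_zero, le_refl]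
    have hb : ∑ u, (if (u, y) ∈ S.K then (1 + γ) else 0) =
        (#(univ.filter fun u => (u, y) ∈ S.K) : ℝ) * (1 + γ) := by
      rw [← Finset.sum_filter, Finset.sum_const, nsmul_eq_mul]
    have hc : (#(univ.filter fun u => (u, y) ∈ S.K) : ℝ) ≤ p * n := by
      exact hI.pu y
    have hd : (#(univ.filter fun u => (u, y) ∈ S.K) : ℝ) * (1 + γ) ≤ p * n * (1 + γ) :=
      mul_le_mul_of_nonneg_right hc (by linarith)
    linarith
  have h3 : ∑ u, ∑ z, (if (v, z) ∈ S.K then S.w u z else 0) ≤ (1 + γ) * (p * n) := by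
    rw [Finset.sum_comm]
    have ha : ∑ z, ∑ u, (if (v, z) ∈ S.K then S.w u z else 0) ≤
        ∑ z, (if (v, z) ∈ S.K then (1 + γ) else 0) := by
      refine Finset.sum_le_sum fun z _ => ?_
      by_cases h : (v, z) ∈ S.K
      · simp only [if_pos h]
        exact colsum_le hI hγ0 z
      · simp only [if_neg h, Finset.sum_const_zero, le_refl]
    have hb : ∑ z, (if (v, z) ∈ S.K then (1 + γ) else 0) =
        (#(univ.filter fun z => (v, z) ∈ S.K) : ℝ) * (1 + γ) := by
      rw [← Finset.sum_filter, Finset.sum_const, nsmul_eq_mul]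
    have hc : (#(univ.filter fun z => (v, z) ∈ S.K) : ℝ) ≤ p * n := by
      exact hI.pz v
    have hd : (#(univ.filter fun z => (v, z) ∈ S.K) : ℝ) * (1 + γ) ≤ p * n * (1 + γ) :=
      mul_le_mul_of_nonneg_right hc (by linarith)
    linarith
  rw [e1]
  have h4 : ∑ u, ∑ z, (δ * S.w u z - δ * (if (u, y) ∈ S.K then S.w u z else 0) -
      δ * (if (v, z) ∈ S.K then S.w u z else 0)) ≤
      ∑ u, ∑ z, δ * S.w u z * gnew S v y u (some z) :=
    Finset.sum_le_sum fun u _ => Finset.sum_le_sum fun z _ => ht u z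
  have h5 : ∑ u, ∑ z, (δ * S.w u z - δ * (if (u, y) ∈ S.K then S.w u z else 0) -
      δ * (if (v, z) ∈ S.K then S.w u z else 0)) =
      δ * (∑ u, ∑ z, S.w u z - ∑ u, ∑ z, (if (u, y) ∈ S.K then S.w u z else 0) -
        ∑ u, ∑ z, (if (v, z) ∈ S.K then S.w u z else 0)) := by
    simp only [Finset.sum_sub_distrib, ← Finset.mul_sum]
    ring
  rw [h5] at h4
  refine le_trans ?_ h4
  have h6 : (6 / 10) * (n : ℝ) ≤ ∑ u, ∑ z, S.w u z -
      ∑ u, ∑ z, (if (u, y) ∈ S.K then S.w u z else 0) -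
        ∑ u, ∑ z, (if (v, z) ∈ S.K then S.w u z else 0) := by
    have h7 : (6 / 10) * (n : ℝ) ≤ (1 - γ) * ((1 - p) * n) - 2 * ((1 + γ) * (p * n)) := by
      have hpn : p * n ≤ 1 / 8 * n := mul_le_mul_of_nonneg_right hp (by linarith)
      have hx : (1 - γ) * ((1 - p) * n) - 2 * ((1 + γ) * (p * n)) =
        (1 - γ) * n - (3 + γ) * (p * n) := by ring
      rw [hx]
      have hy : (3 + γ) * (p * n) ≤ (3 + 1 / 50) * (1 / 8 * n) :=
        mul_le_mul (by linarith) hpn hp0 (by norm_num)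
      have hz : (1 - 1 / 50) * (n : ℝ) ≤ (1 - γ) * n :=
        mul_le_mul_of_nonneg_right (by linarith) (by linarith)
      linarith
    linarith
  calc (6 / 10) * δ * n = δ * ((6 / 10) * n) := by ring
    _ ≤ _ := mul_le_mul_of_nonneg_left h6 hδ0.le

/-- `tail` for `news / n`, costs `1/n`, `m = 1/n`, `L = 2`, `t = δ³`; `D ≤ D1 ≤ n`. -/
theorem news_tail (hN : Num n ε D1 D2 δ K0 W γ a ρ) (hI : Inv A B D1 D2 W γ a l p q S)
    (hp : p ≤ 1 / 8) (hD0 : 0 ≤ D) (hD : D ≤ n) (v y : Fin n) :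
    PP (mu δ S.w) (fun ω => ¬ (6 / 10) * δ * n - δ ^ 3 * n ≤ news S ω v y) ≤
      2 * Real.exp (-(δ ^ 6 / (1000 * W ^ 2) * D)) := by
  classical
  have hγ0 := hN.γ0
  have hγ1 := hN.γ1
  have hδ0 := hN.δ0
  have hδ1 := hN.δ1
  have hW1 := hN.W1
  have hn1 : (1 : ℝ) ≤ n := by exact_mod_cast hN.n1
  have hn0 : (0 : ℝ) < n := by linarith
  have hprob := isProb_mu hN hI
  set c : Fin n → Option (Fin n) → ℝ := fun _ o => if o = none then 0 else 1 / n with hc
  set f : (Fin n → Option (Fin n)) → ℝ := fun ω => (news S ω v y : ℝ) / n with hf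
  have hinv : (0 : ℝ) < 1 / n := by positivity
  have hc0 : ∀ i a, 0 ≤ c i a := by
    intro i a
    simp only [hc]
    split_ifs
    · exact le_refl _
    · exact hinv.le
  have hcm : ∀ i a, c i a ≤ 1 / n := by
    intro i a
    simp only [hc]
    split_ifs
    · exact hinv.le
    · exact le_refl _
  have hgc : ∀ i a, gnew S v y i a / n ≤ c i a := by
    intro i a
    rcases a with _ | z
    · rw [gnew_none]; simp [hc]
    · simp only [hc, reduceCtorEq, if_false]
      exact div_le_div_of_nonneg_right (gnew_le_one S v y i _) hn0.le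
  have hL : ∑ i, ∑ a, mu δ S.w i a * c i a ≤ 2 := by
    have h1 : ∀ i, ∑ a, mu δ S.w i a * c i a ≤ δ * (1 + γ) * (1 / n) := by
      intro i
      rw [sum_mu (c i) (by simp [hc]) i]
      have : ∑ z, δ * S.w i z * c i (some z) = δ * (∑ z, S.w i z) * (1 / n) := by
        simp only [hc, reduceCtorEq, if_false]
        rw [← Finset.sum_mul, ← Finset.mul_sum]
      rw [this]
      have := rowsum_le hI hγ0 i
      gcongr
    calc ∑ i, ∑ a, mu δ S.w i a * c i a ≤ ∑ _i : Fin n, δ * (1 + γ) * (1 / n) :=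
          Finset.sum_le_sum fun i _ => h1 i
      _ = δ * (1 + γ) := by
          rw [Finset.sum_const, Finset.card_univ, Fintype.card_fin, nsmul_eq_mul]
          field_simp
      _ ≤ 2 := by nlinarith
  have hbd : ∀ i ω a b, |f (Function.update ω i a) - f (Function.update ω i b)| ≤
      c i a + c i b := by
    intro i ω a b
    have h1 : f (Function.update ω i a) - f (Function.update ω i b) =
        gnew S v y i a / n - gnew S v y i b / n := by
      simp only [hf, news_eq_sum]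
      rw [← Finset.add_sum_erase _ _ (Finset.mem_univ i),
        ← Finset.add_sum_erase univ (fun u => gnew S v y u (Function.update ω i b u))
          (Finset.mem_univ i)]
      have h2 : ∑ u ∈ univ.erase i, gnew S v y u (Function.update ω i a u) =
          ∑ u ∈ univ.erase i, gnew S v y u (Function.update ω i b u) := by
        refine Finset.sum_congr rfl fun u hu => ?_
        rw [Function.update_of_ne (Finset.ne_of_mem_erase hu),
          Function.update_of_ne (Finset.ne_of_mem_erase hu)]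
      rw [h2, Function.update_self, Function.update_self]
      ring
    rw [h1]
    have ha := hgc i a
    have hb := hgc i b
    have ha0 : 0 ≤ gnew S v y i a / n := div_nonneg (gnew_nonneg _ _ _ _ _) hn0.le
    have hb0 : 0 ≤ gnew S v y i b / n := div_nonneg (gnew_nonneg _ _ _ _ _) hn0.le
    rw [abs_le]
    constructor <;> linarith
  have hδ3 : 0 ≤ δ ^ 3 := by positivity
  have hδ31 : δ ^ 3 ≤ 1 := pow_le_one₀ hδ0.le (by linarith)
  have hmain := tail hprob c f (m := 1 / n) (L := 2) (t := δ ^ 3) hc0 hcm hinv hL (by norm_num)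
    hδ3 (by linarith) hbd
  have hE : EE (mu δ S.w) f = EE (mu δ S.w) (fun ω => (news S ω v y : ℝ)) / n := by
    have h1 : f = fun ω => (news S ω v y : ℝ) * (1 / n) := by
      funext ω
      simp only [hf]
      ring
    rw [h1, EE_mul_const]
    ring
  have hEE := EE_news hN hI hp v y
  refine le_trans (PP_mono hprob (B := fun ω => δ ^ 3 ≤ |f ω - EE (mu δ S.w) f|) ?_) ?_
  · intro ω hω
    rw [not_le] at hω
    have h1 : f ω < (6 / 10) * δ - δ ^ 3 := by
      simp only [hf]
      rw [div_lt_iff₀ hn0]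
      linarith
    have h2 : (6 / 10) * δ ≤ EE (mu δ S.w) f := by
      rw [hE, le_div_iff₀ hn0]
      exact hEE
    have h3 : f ω - EE (mu δ S.w) f ≤ -δ ^ 3 := by linarith
    have h4 := neg_le_abs (f ω - EE (mu δ S.w) f)
    linarith
  · refine le_trans hmain ?_
    refine mul_le_mul_of_nonneg_left (Real.exp_le_exp.2 (neg_le_neg ?_)) (by norm_num)
    have h1 : (δ ^ 3) ^ 2 / (16 * (1 / (n : ℝ)) * 2) = δ ^ 6 / 32 * n := by
      field_simp
      ring
    rw [h1]
    have h2 : δ ^ 6 / (1000 * W ^ 2) ≤ δ ^ 6 / 32 := by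
      apply div_le_div_of_nonneg_left (by positivity) (by norm_num)
      nlinarith
    exact mul_le_mul h2 hD hD0 (by positivity)

end Pool.Agent.Helper5.BEC
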