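import Pool.Agent.Helper5.BEC.St.T1
import Pool.Agent.Helper5.BEC.St.B1
/-! Piece C1: columns. -/
set_option autoImplicit false
namespace Pool.Agent.Helper5.BEC
open Finset Pool.Agent.Helper61.LE

variable {n : ℕ} {A B : Nb n} {ε D1 D2 D δ K0 W γ a ρ l p q : ℝ} {S : St n}

theorem col_scalar {δ K0 γ C c R r κ P : ℝ} (hδ0 : 0 < δ) (hδ1 : δ ≤ 1 / 100) (hK2 : 2 ≤ K0)
    (hδK : δ * K0 ≤ 1 / 100) (hγ0 : 0 ≤ γ) (hγ1 : γ ≤ 1 / 50) (hC : |C - 1| ≤ γ)
    (hR : |R - 1| ≤ γ) (hc0 : 0 ≤ c) (hc : c ≤ δ) (hr0 : 0 ≤ r) (hr : r ≤ K0 - 1)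
    (hκ : κ = C - c + r) (hκ0 : 0 ≤ κ) (hκK : κ ≤ K0) (hP1 : 1 - δ * r ≤ P)
    (hP2 : P ≤ 1 - δ * r + (δ * r) ^ 2 / 2) :
    |(1 + δ * κ) * ((1 - δ * R) * P) - 1| ≤ 2 * δ * γ + 5 * K0 ^ 2 * δ ^ 2 := by
  obtain ⟨hC1, hC2⟩ := abs_le.1 hC
  obtain ⟨hR1, hR2⟩ := abs_le.1 hR
  have hR0 : 0 ≤ R := by linarith
  have hR3 : R ≤ 51 / 50 := by linarith
  have hK0 : 0 ≤ K0 := by linarith
  have hδκ : δ * κ ≤ 1 / 100 := le_trans (mul_le_mul_of_nonneg_left hκK hδ0.le) hδK
  have hδκ0 : 0 ≤ δ * κ := mul_nonneg hδ0.le hκ0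
  have hδR0 : 0 ≤ δ * R := mul_nonneg hδ0.le hR0
  have hδR1 : δ * R ≤ 1 := (mul_le_mul hδ1 hR3 hR0 (by norm_num)).trans (by norm_num)
  have hKK : 2 * K0 ≤ K0 ^ 2 := by
    rw [sq]
    exact mul_le_mul_of_nonneg_right hK2 hK0
  have hrK : r ≤ K0 := by linarith
  have hδ2 : 0 ≤ δ ^ 2 := sq_nonneg δ
  -- the three factors at the two ends
  set e := P - (1 - δ * r) with he
  have he0 : 0 ≤ e := by rw [he]; linarith
  have he1 : e ≤ δ ^ 2 * K0 ^ 2 / 2 := by
    have h1 : (δ * r) ^ 2 ≤ δ ^ 2 * K0 ^ 2 := by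
      rw [mul_pow]
      exact mul_le_mul_of_nonneg_left (pow_le_pow_left₀ hr0 hrK 2) hδ2
    rw [he]; linarith
  have hid : (1 + δ * κ) * ((1 - δ * R) * P) - 1 =
      δ * (C - c - R) + δ ^ 2 * (R * r - κ * (R + r)) + δ ^ 2 * ((δ * κ) * (R * r)) +
        e * ((1 + δ * κ) * (1 - δ * R)) := by
    rw [he, hκ]; ring
  have h1 : |δ * (C - c - R)| ≤ δ * (2 * γ + δ) := by
    rw [abs_mul, abs_of_pos hδ0]
    apply mul_le_mul_of_nonneg_left _ hδ0.le
    rw [abs_le]; constructor <;> linarith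
  have hRr : R * r ≤ 51 / 50 * K0 := mul_le_mul hR3 hrK hr0 (by norm_num)
  have hRr0 : 0 ≤ R * r := mul_nonneg hR0 hr0
  have h2 : |δ ^ 2 * (R * r - κ * (R + r))| ≤ δ ^ 2 * (11 / 10 * K0 ^ 2) := by
    rw [abs_mul, abs_of_nonneg hδ2]
    apply mul_le_mul_of_nonneg_left _ hδ2
    have h3 : κ * (R + r) ≤ K0 * (K0 + 1 / 50) := by
      apply mul_le_mul hκK (by linarith) (by linarith) hK0
    have h4 : 0 ≤ κ * (R + r) := mul_nonneg hκ0 (by linarith)
    have h5 : K0 * (K0 + 1 / 50) = K0 ^ 2 + 1 / 50 * K0 := by ring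
    rw [h5] at h3
    rw [abs_le]; constructor <;> linarith
  have h3 : |δ ^ 2 * ((δ * κ) * (R * r))| ≤ δ ^ 2 * (1 / 10 * K0 ^ 2) := by
    rw [abs_mul, abs_of_nonneg hδ2]
    apply mul_le_mul_of_nonneg_left _ hδ2
    rw [abs_of_nonneg (mul_nonneg hδκ0 hRr0)]
    calc δ * κ * (R * r) ≤ 1 / 100 * (51 / 50 * K0) := mul_le_mul hδκ hRr hRr0 (by norm_num)
      _ ≤ 1 / 10 * K0 ^ 2 := by linarith
  have h4 : |e * ((1 + δ * κ) * (1 - δ * R))| ≤ δ ^ 2 * K0 ^ 2 := by
    have h5 : 0 ≤ (1 + δ * κ) * (1 - δ * R) := mul_nonneg (by linarith) (by linarith)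
    have h6 : (1 + δ * κ) * (1 - δ * R) ≤ 2 := by
      calc (1 + δ * κ) * (1 - δ * R) ≤ (1 + δ * κ) * 1 :=
            mul_le_mul_of_nonneg_left (by linarith) (by linarith)
        _ ≤ 2 := by linarith
    rw [abs_of_nonneg (mul_nonneg he0 h5)]
    calc e * ((1 + δ * κ) * (1 - δ * R)) ≤ (δ ^ 2 * K0 ^ 2 / 2) * 2 :=
          mul_le_mul he1 h6 h5 (by positivity)
      _ = δ ^ 2 * K0 ^ 2 := by ring
  rw [hid]
  have h5 : δ ^ 2 ≤ δ ^ 2 * K0 ^ 2 := by
    exact le_mul_of_one_le_right hδ2 (by linarith)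
  calc _ ≤ |δ * (C - c - R)| + |δ ^ 2 * (R * r - κ * (R + r))| + |δ ^ 2 * ((δ * κ) * (R * r))| +
        |e * ((1 + δ * κ) * (1 - δ * R))| := by
          refine (abs_add_le _ _).trans (add_le_add ((abs_add_le _ _).trans
            (add_le_add (abs_add_le _ _) le_rfl)) le_rfl)
    _ ≤ δ * (2 * γ + δ) + δ ^ 2 * (11 / 10 * K0 ^ 2) + δ ^ 2 * (1 / 10 * K0 ^ 2) +
        δ ^ 2 * K0 ^ 2 := by linarith
    _ = 2 * δ * γ + δ ^ 2 + 22 / 10 * (δ ^ 2 * K0 ^ 2) := by ring
    _ ≤ 2 * δ * γ + 5 * (δ ^ 2 * K0 ^ 2) := by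
          have h7 : 0 ≤ δ ^ 2 * K0 ^ 2 := by positivity
          linarith
    _ = 2 * δ * γ + 5 * K0 ^ 2 * δ ^ 2 := by ring

open Classical in
theorem prob_col (hN : Num n ε D1 D2 δ K0 W γ a ρ) (hI : Inv A B D1 D2 W γ a l p q S)
    (v y : Fin n) :
    PP (mu δ S.w) (fun ω => ω v = none ∧ nok A B ω v y) =
      (1 - δ * ∑ z, S.w v z) * ∏ u ∈ A.N v, (1 - δ * ∑ z ∈ B.N y, S.w u z) := by
  have h1 := avoid_prob hN hI (insert v (A.N v)) (fun u => if u = v then univ else B.N y)
  rw [Finset.prod_insert (A.irr v)] at h1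
  rw [if_pos rfl] at h1
  have h2 : ∏ u ∈ A.N v, (1 - δ * ∑ z ∈ (if u = v then univ else B.N y), S.w u z) =
      ∏ u ∈ A.N v, (1 - δ * ∑ z ∈ B.N y, S.w u z) := by
    apply Finset.prod_congr rfl
    intro u hu
    rw [if_neg]
    rintro rfl
    exact A.irr _ hu
  rw [h2] at h1
  rw [← h1]
  apply PP_congr
  intro ω
  constructor
  · rintro ⟨hv, hnk⟩ u hu z hz
    rcases Finset.mem_insert.1 hu with rfl | hu'
    · rw [hv]; simp
    · have huv : u ≠ v := by rintro rfl; exact A.irr _ hu'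
      rw [if_neg huv] at hz
      exact hnk u hu' z hz
  · intro h
    constructor
    · cases hv : ω v with
      | none => rfl
      | some z =>
        exfalso
        exact h v (Finset.mem_insert_self _ _) z (by rw [if_pos rfl]; exact Finset.mem_univ _) hv
    · intro u hu z hz
      have huv : u ≠ v := by rintro rfl; exact A.irr _ hu
      exact h u (Finset.mem_insert_of_mem hu) z (by rw [if_neg huv]; exact hz)

open Classical in
theorem EE_colv (y : Fin n) :
    EE (mu δ S.w) (fun ω => colv A B δ S.w ω y) =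
      ∑ v, S.w v y * (1 + δ * kap A B S.w v y) *
        PP (mu δ S.w) (fun ω => ω v = none ∧ nok A B ω v y) := by
  unfold colv
  rw [EE_sum]
  apply Finset.sum_congr rfl
  intro v _
  unfold PP
  rw [← EE_const_mul]
  apply EE_congr
  intro ω
  by_cases h : ω v = none ∧ nok A B ω v y
  · rw [if_pos h, if_pos h, mul_one]
  · rw [if_neg h, if_neg h, mul_zero]

/-- Expectation of the column of `y ∈ F`. The event in `colv` at `v` (`v` picks nothing and no
`u ∈ N₁(v)` picks in `N₂(y)`) has probability `(1 - δ R(v)) ∏_{u ∈ N₁(v)} (1 - δ w(u,N₂(y)))`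
(`avoid_prob` with `G v = univ`, `v ∉ N₁(v)`), where `R(v) = ∑ z, w v z`; with `r = rho v y`,
`C = ∑ u, w u y` the summand is `w v y (1 + δ(C - w v y + r)) (1 - δR) (prod)`,
`1 - δr ≤ prod ≤ 1 - δr + δ²r²/2`, `|C-1|, |R-1| ≤ γ`, `w v y ≤ W/n ≤ δ`, so it is
`w v y (1 + e)` with `|e| ≤ 2δγ + 5K0²δ²`; multiply by `C ≤ 1+γ` and use `γ ≤ 1/50`. -/
theorem EE_col (hN : Num n ε D1 D2 δ K0 W γ a ρ) (hI : Inv A B D1 D2 W γ a l p q S)
    (y : Fin n) (hy : y ∈ S.F) :
    |EE (mu δ S.w) (fun ω => colv A B δ S.w ω y) - ∑ u, S.w u y| ≤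
      3 * δ * γ + 10 * K0 ^ 2 * δ ^ 2 := by
  rw [EE_colv, ← Finset.sum_sub_distrib]
  have hC := hI.col y hy
  have key : ∀ v, |S.w v y * (1 + δ * kap A B S.w v y) *
      PP (mu δ S.w) (fun ω => ω v = none ∧ nok A B ω v y) - S.w v y| ≤
      S.w v y * (2 * δ * γ + 5 * K0 ^ 2 * δ ^ 2) := by
    intro v
    by_cases hv : v ∈ S.U
    · rw [prob_col hN hI]
      have hR := hI.row v hv
      have hx0 : ∀ u ∈ A.N v, 0 ≤ δ * ∑ z ∈ B.N y, S.w u z := fun u _ =>
        mul_nonneg hN.δ0.le (Finset.sum_nonneg fun z _ => hI.w0 u z)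
      have hx1 : ∀ u ∈ A.N v, δ * ∑ z ∈ B.N y, S.w u z ≤ 1 := by
        intro u _
        have h1 : ∑ z ∈ B.N y, S.w u z ≤ ∑ z, S.w u z :=
          Finset.sum_le_sum_of_subset_of_nonneg (Finset.subset_univ _) fun z _ _ => hI.w0 u z
        have h2 := rowsum_le hI hN.γ0 u
        have h3 := hN.γ1
        have h4 := hN.δ1
        have h5 : ∑ z ∈ B.N y, S.w u z ≤ 2 := by linarith
        nlinarith [hN.δ0]
      have hsum : ∑ u ∈ A.N v, δ * ∑ z ∈ B.N y, S.w u z = δ * rho A B S.w v y := by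
        unfold rho; rw [Finset.mul_sum]
      have hP1 := prod_one_sub_ge (A.N v) (fun u => δ * ∑ z ∈ B.N y, S.w u z) hx0 hx1
      have hP2 := prod_one_sub_le (A.N v) (fun u => δ * ∑ z ∈ B.N y, S.w u z) hx0 hx1
      rw [hsum] at hP1 hP2
      have hκ : kap A B S.w v y = (∑ u, S.w u y) - S.w v y + rho A B S.w v y := by
        unfold kap
        rw [← Finset.add_sum_erase _ _ (Finset.mem_univ v)]
        ring
      have hρ1 := rho_le hN hI v y
      have hk := kap_le hN hI v y
      have hκ2 := hN.hκ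
      have hsc := col_scalar (C := ∑ u, S.w u y) (c := S.w v y) (R := ∑ z, S.w v z)
        (r := rho A B S.w v y) (κ := kap A B S.w v y) hN.δ0 hN.δ1 hN.K0' hN.δK hN.γ0 hN.γ1 hC hR
        (hI.w0 v y) (le_trans (hI.wW v y) hN.Wn) (rho_nonneg hI v y)
        (by linarith [hN.γ0]) hκ (kap_nonneg hI v y) (by linarith) hP1 hP2
      have hid : S.w v y * (1 + δ * kap A B S.w v y) *
          ((1 - δ * ∑ z, S.w v z) * ∏ u ∈ A.N v, (1 - δ * ∑ z ∈ B.N y, S.w u z)) - S.w v y =
          S.w v y * ((1 + δ * kap A B S.w v y) *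
          ((1 - δ * ∑ z, S.w v z) * ∏ u ∈ A.N v, (1 - δ * ∑ z ∈ B.N y, S.w u z)) - 1) := by ring
      rw [hid, abs_mul, abs_of_nonneg (hI.w0 v y)]
      exact mul_le_mul_of_nonneg_left hsc (hI.w0 v y)
    · rw [hI.wU v y hv]; simp
  calc _ ≤ ∑ v, |S.w v y * (1 + δ * kap A B S.w v y) *
      PP (mu δ S.w) (fun ω => ω v = none ∧ nok A B ω v y) - S.w v y| := Finset.abs_sum_le_sum_abs _ _
    _ ≤ ∑ v, S.w v y * (2 * δ * γ + 5 * K0 ^ 2 * δ ^ 2) := Finset.sum_le_sum fun v _ => key v
    _ = (∑ v, S.w v y) * (2 * δ * γ + 5 * K0 ^ 2 * δ ^ 2) := by rw [Finset.sum_mul]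
    _ ≤ (51 / 50) * (2 * δ * γ + 5 * K0 ^ 2 * δ ^ 2) := by
        apply mul_le_mul_of_nonneg_right
        · have := (abs_le.1 hC).2; linarith [hN.γ1]
        · have h1 := mul_nonneg hN.δ0.le hN.γ0
          have h2 : 0 ≤ 5 * K0 ^ 2 * δ ^ 2 := by positivity
          linarith
    _ ≤ _ := by
        have h1 := mul_nonneg hN.δ0.le hN.γ0
        have h2 : 0 ≤ K0 ^ 2 * δ ^ 2 := by positivity
        nlinarith

open Classical in
/-- cost of a pick -/
noncomputable def ccost (B : Nb n) (W D2 : ℝ) (y : Fin n) : Option (Fin n) → ℝ :=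
  fun o => match o with
    | none => 0
    | some z => 2 * W / n + if z ∈ B.N y then 2 * W / D2 else 0

theorem n_pos (hN : Num n ε D1 D2 δ K0 W γ a ρ) : (0 : ℝ) < n := by
  have := hN.n1
  exact_mod_cast this

theorem D2_le (hN : Num n ε D1 D2 δ K0 W γ a ρ) : D1 * D2 ≤ n := by
  have h := hN.hDD
  have h0 := n_pos hN
  have := hN.ε0
  nlinarith

open Classical in
theorem col_update (hN : Num n ε D1 D2 δ K0 W γ a ρ) (hd : Deg A B D1 D2)
    (hI : Inv A B D1 D2 W γ a l p q S) (y u : Fin n) (ω : Fin n → Option (Fin n))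
    (o : Option (Fin n)) :
    |colv A B δ S.w (Function.update ω u o) y - colv A B δ S.w (Function.update ω u none) y| ≤
      ccost B W D2 y o := by
  have hn := n_pos hN
  have hW : 0 ≤ W := by linarith [hN.W1]
  have hD2 : 0 < D2 := by linarith [hN.hD2]
  cases o with
  | none => simp [ccost]
  | some z =>
    -- bound of one summand
    have hs : ∀ v, 0 ≤ S.w v y * (1 + δ * kap A B S.w v y) ∧
        S.w v y * (1 + δ * kap A B S.w v y) ≤ 2 * W / n := by
      intro v
      have h1 := kap_nonneg hI v y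
      have h2 := kap_le hN hI v y
      have h3 := hN.hκ
      have h4 := hN.δK
      have h5 := hN.δ0
      have h6 : δ * kap A B S.w v y ≤ 1 := by
        calc δ * kap A B S.w v y ≤ δ * K0 := mul_le_mul_of_nonneg_left (by linarith) h5.le
          _ ≤ 1 := by linarith
      have h7 : 0 ≤ δ * kap A B S.w v y := mul_nonneg h5.le h1
      refine ⟨mul_nonneg (hI.w0 v y) (by linarith), ?_⟩
      calc S.w v y * (1 + δ * kap A B S.w v y) ≤ (W / n) * 2 :=
            mul_le_mul (hI.wW v y) (by linarith) (by linarith) (by positivity)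
        _ = 2 * W / n := by ring
    unfold colv
    rw [← Finset.sum_sub_distrib]
    -- each summand
    have hterm : ∀ v, |(if Function.update ω u (some z) v = none ∧
          nok A B (Function.update ω u (some z)) v y then
          S.w v y * (1 + δ * kap A B S.w v y) else 0) -
        (if Function.update ω u none v = none ∧ nok A B (Function.update ω u none) v y then
          S.w v y * (1 + δ * kap A B S.w v y) else 0)| ≤
        (if v = u then 2 * W / n else 0) +
          (if z ∈ B.N y ∧ v ∈ A.N u then 2 * W / n else 0) := by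
      intro v
      have hp1 : (0 : ℝ) ≤ if v = u then 2 * W / n else 0 := by split_ifs <;> positivity
      have hp2 : (0 : ℝ) ≤ if z ∈ B.N y ∧ v ∈ A.N u then 2 * W / n else 0 := by
        split_ifs <;> positivity
      have habs : ∀ (P Q : Prop) [Decidable P] [Decidable Q],
          |(if P then S.w v y * (1 + δ * kap A B S.w v y) else 0) -
            (if Q then S.w v y * (1 + δ * kap A B S.w v y) else 0)| ≤ 2 * W / n := by
        intro P Q _ _
        obtain ⟨h1, h2⟩ := hs v
        split_ifs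
        · rw [sub_self, abs_zero]; positivity
        · rw [sub_zero, abs_of_nonneg h1]; exact h2
        · rw [zero_sub, abs_neg, abs_of_nonneg h1]; exact h2
        · rw [sub_self, abs_zero]; positivity
      by_cases hvu : v = u
      · rw [if_pos hvu]
        exact le_trans (habs _ _) (by linarith)
      · by_cases hz : z ∈ B.N y ∧ v ∈ A.N u
        · rw [if_pos hz]
          exact le_trans (habs _ _) (by linarith)
        · have hiff : (Function.update ω u (some z) v = none ∧
              nok A B (Function.update ω u (some z)) v y) ↔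
              (Function.update ω u none v = none ∧ nok A B (Function.update ω u none) v y) := by
            rw [Function.update_of_ne hvu, Function.update_of_ne hvu]
            apply and_congr_right
            intro _
            unfold nok
            constructor
            · intro h x hx z' hz'
              by_cases hxu : x = u
              · subst hxu; rw [Function.update_self]; simp
              · have := h x hx z' hz'
                rw [Function.update_of_ne hxu] at this ⊢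
                exact this
            · intro h x hx z' hz'
              by_cases hxu : x = u
              · subst hxu
                rw [Function.update_self]
                intro h2
                have h3 : z = z' := Option.some.inj h2
                subst h3
                exact hz ⟨hz', A.symm _ _ hx⟩
              · have := h x hx z' hz'
                rw [Function.update_of_ne hxu] at this ⊢
                exact this
          rw [if_congr hiff rfl rfl, sub_self, abs_zero]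
          linarith
    calc _ ≤ ∑ v, |(if Function.update ω u (some z) v = none ∧
          nok A B (Function.update ω u (some z)) v y then
          S.w v y * (1 + δ * kap A B S.w v y) else 0) -
        (if Function.update ω u none v = none ∧ nok A B (Function.update ω u none) v y then
          S.w v y * (1 + δ * kap A B S.w v y) else 0)| := Finset.abs_sum_le_sum_abs _ _
      _ ≤ ∑ v, ((if v = u then 2 * W / n else 0) +
          (if z ∈ B.N y ∧ v ∈ A.N u then 2 * W / n else 0)) := Finset.sum_le_sum fun v _ => hterm v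
      _ = 2 * W / n + ∑ v, (if z ∈ B.N y ∧ v ∈ A.N u then 2 * W / n else 0) := by
          rw [Finset.sum_add_distrib, Finset.sum_ite_eq' Finset.univ u, if_pos (Finset.mem_univ _)]
      _ ≤ 2 * W / n + (if z ∈ B.N y then 2 * W / D2 else 0) := by
          by_cases hz : z ∈ B.N y
          · rw [if_pos hz]
            simp only [hz, true_and]
            rw [← Finset.sum_filter, Finset.sum_const, nsmul_eq_mul]
            have h1 : (univ.filter fun v => v ∈ A.N u) = A.N u := by ext v; simp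
            rw [h1]
            have h2 := hd.dA u
            have h3 := D2_le hN
            have h4 : (#(A.N u) : ℝ) * D2 ≤ n :=
              le_trans (mul_le_mul_of_nonneg_right h2 hD2.le) h3
            have h5 : (#(A.N u) : ℝ) * (2 * W / n) ≤ 2 * W / D2 := by
              rw [le_div_iff₀ hD2]
              have h6 : (#(A.N u) : ℝ) * (2 * W / n) * D2 = 2 * W * ((#(A.N u) : ℝ) * D2 / n) := by
                ring
              rw [h6]
              have h7 : (#(A.N u) : ℝ) * D2 / n ≤ 1 := by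
                rw [div_le_one hn]; exact h4
              calc 2 * W * ((#(A.N u) : ℝ) * D2 / n) ≤ 2 * W * 1 :=
                    mul_le_mul_of_nonneg_left h7 (by positivity)
                _ = 2 * W := mul_one _
            linarith
          · rw [if_neg hz]; simp [hz]
      _ = ccost B W D2 y (some z) := rfl

open Classical in
theorem ccost_nonneg (hN : Num n ε D1 D2 δ K0 W γ a ρ) (y : Fin n) (o : Option (Fin n)) :
    0 ≤ ccost B W D2 y o := by
  have hn := n_pos hN
  have hW : 0 ≤ W := by linarith [hN.W1]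
  have hD2 : 0 < D2 := by linarith [hN.hD2]
  cases o with
  | none => exact le_rfl
  | some z =>
    unfold ccost
    dsimp only
    split_ifs <;> positivity

open Classical in
theorem ccost_le (hN : Num n ε D1 D2 δ K0 W γ a ρ) (y : Fin n) (o : Option (Fin n)) :
    ccost B W D2 y o ≤ 4 * W / D2 := by
  have hn := n_pos hN
  have hW : 0 ≤ W := by linarith [hN.W1]
  have hD2 : 0 < D2 := by linarith [hN.hD2]
  have h1 : D2 ≤ n := by
    have h2 := D2_le hN
    have h3 := hN.hD1
    nlinarith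
  have h2 : 2 * W / n ≤ 2 * W / D2 := div_le_div_of_nonneg_left (by positivity) hD2 h1
  have h3 : 0 ≤ 2 * W / D2 := by positivity
  have h4 : 4 * W / D2 = 2 * W / D2 + 2 * W / D2 := by ring
  cases o with
  | none => rw [h4]; exact add_nonneg h3 h3
  | some z =>
    unfold ccost
    dsimp only
    rw [h4]
    split_ifs <;> linarith

open Classical in
theorem ccost_sum (hN : Num n ε D1 D2 δ K0 W γ a ρ) (hd : Deg A B D1 D2)
    (hI : Inv A B D1 D2 W γ a l p q S) (y : Fin n) :
    ∑ i, ∑ o, mu δ S.w i o * ccost B W D2 y o ≤ 12 * W := by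
  have hn := n_pos hN
  have hW : 0 ≤ W := by linarith [hN.W1]
  have hD2 : 0 < D2 := by linarith [hN.hD2]
  have hδ := hN.δ0
  have h1 : ∀ i : Fin n, ∑ o, mu δ S.w i o * ccost B W D2 y o =
      ∑ z, δ * S.w i z * ccost B W D2 y (some z) := fun i => sum_mu (ccost B W D2 y) rfl i
  rw [Finset.sum_congr rfl fun i _ => h1 i]
  have h2 : ∀ i z : Fin n, δ * S.w i z * ccost B W D2 y (some z) =
      δ * (2 * W / n) * S.w i z + δ * (2 * W / D2) * (if z ∈ B.N y then S.w i z else 0) := by
    intro i z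
    unfold ccost
    dsimp only
    split_ifs <;> ring
  rw [Finset.sum_congr rfl fun i _ => Finset.sum_congr rfl fun z _ => h2 i z]
  have h3 : ∑ i, ∑ z, (δ * (2 * W / n) * S.w i z +
      δ * (2 * W / D2) * (if z ∈ B.N y then S.w i z else 0)) =
      δ * (2 * W / n) * (∑ i, ∑ z, S.w i z) + δ * (2 * W / D2) * (∑ z ∈ B.N y, ∑ i, S.w i z) := by
    rw [Finset.sum_congr rfl fun i _ => Finset.sum_add_distrib, Finset.sum_add_distrib]
    congr 1
    · rw [Finset.mul_sum]
      exact Finset.sum_congr rfl fun i _ => by rw [Finset.mul_sum]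
    · rw [Finset.sum_comm (s := B.N y), Finset.mul_sum]
      apply Finset.sum_congr rfl
      intro i _
      rw [← Finset.mul_sum, Finset.sum_ite_mem, Finset.univ_inter]
  rw [h3]
  have h4 : ∑ i, ∑ z, S.w i z ≤ n * 2 := by
    calc ∑ i, ∑ z, S.w i z ≤ ∑ _i : Fin n, (2 : ℝ) :=
          Finset.sum_le_sum fun i _ => le_trans (rowsum_le hI hN.γ0 i) (by linarith [hN.γ1])
      _ = n * 2 := by rw [Finset.sum_const, nsmul_eq_mul, Finset.card_univ, Fintype.card_fin]
  have h5 : ∑ z ∈ B.N y, ∑ i, S.w i z ≤ D2 * 2 := by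
    calc ∑ z ∈ B.N y, ∑ i, S.w i z ≤ ∑ _z ∈ B.N y, (2 : ℝ) :=
          Finset.sum_le_sum fun z _ => le_trans (colsum_le hI hN.γ0 z) (by linarith [hN.γ1])
      _ = #(B.N y) * 2 := by rw [Finset.sum_const, nsmul_eq_mul]
      _ ≤ D2 * 2 := mul_le_mul_of_nonneg_right (hd.dB y) (by norm_num)
  have h6 : δ * (2 * W / n) * (∑ i, ∑ z, S.w i z) ≤ 4 * W * δ := by
    calc δ * (2 * W / n) * (∑ i, ∑ z, S.w i z) ≤ δ * (2 * W / n) * (n * 2) :=
          mul_le_mul_of_nonneg_left h4 (by positivity)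
      _ = 4 * W * δ := by field_simp; ring
  have h7 : δ * (2 * W / D2) * (∑ z ∈ B.N y, ∑ i, S.w i z) ≤ 4 * W * δ := by
    calc δ * (2 * W / D2) * (∑ z ∈ B.N y, ∑ i, S.w i z) ≤ δ * (2 * W / D2) * (D2 * 2) :=
          mul_le_mul_of_nonneg_left h5 (by positivity)
      _ = 4 * W * δ := by field_simp; ring
  have h8 := hN.δ1
  have h9 : 4 * W * δ ≤ 4 * W * (1 / 100) := mul_le_mul_of_nonneg_left h8 (by positivity)
  linarith

/-- Tail of the column: cost of a pick `(u,z)` is `2W/n`, and `2W/n + 2W/D2` if `z ∈ N₂(y)`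
(it removes the summands `v = u` and `v ∈ N₁(u)`, `|N₁(u)| ≤ D1`, `D1/n ≤ 1/D2`);
`m = 4W/D2`, `L = 12W`, `t = δ³`. -/
theorem col_tail (hN : Num n ε D1 D2 δ K0 W γ a ρ) (hd : Deg A B D1 D2)
    (hI : Inv A B D1 D2 W γ a l p q S) (hD0 : 0 ≤ D) (hD : D ≤ D2) (y : Fin n) (hy : y ∈ S.F) :
    PP (mu δ S.w) (fun ω => ¬ |colv A B δ S.w ω y - ∑ u, S.w u y| ≤
      3 * δ * γ + 10 * K0 ^ 2 * δ ^ 2 + δ ^ 3) ≤
      2 * Real.exp (-(δ ^ 6 / (1000 * W ^ 2) * D)) := by
  have hn := n_pos hN
  have hW : 1 ≤ W := hN.W1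
  have hW0 : 0 < W := by linarith
  have hD2 : 0 < D2 := by linarith [hN.hD2]
  have hδ := hN.δ0
  have hδ1 := hN.δ1
  have hpr := isProb_mu hN hI
  have hEE := EE_col hN hI y hy
  have ht := tail hpr (fun _ o => ccost B W D2 y o) (fun ω => colv A B δ S.w ω y)
    (m := 4 * W / D2) (L := 12 * W) (t := δ ^ 3)
    (fun _ o => ccost_nonneg hN y o) (fun _ o => ccost_le hN y o) (by positivity)
    (ccost_sum hN hd hI y) (by positivity) (by positivity)
    (by
      have h1 : δ ^ 3 ≤ 1 := pow_le_one₀ hδ.le (by linarith)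
      linarith)
    (by
      intro i ω x b
      have h1 := col_update hN hd hI y i ω x
      have h2 := col_update hN hd hI y i ω b
      rw [abs_sub_comm] at h2
      calc _ = |(colv A B δ S.w (Function.update ω i x) y -
              colv A B δ S.w (Function.update ω i none) y) +
            (colv A B δ S.w (Function.update ω i none) y -
              colv A B δ S.w (Function.update ω i b) y)| := by congr 1; ring
        _ ≤ _ := (abs_add_le _ _).trans (add_le_add h1 h2))
  calc _ ≤ PP (mu δ S.w) (fun ω => δ ^ 3 ≤ |colv A B δ S.w ω y -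
        EE (mu δ S.w) (fun ω => colv A B δ S.w ω y)|) := by
        apply PP_mono hpr
        intro ω hω
        rw [not_le] at hω
        have h1 : |colv A B δ S.w ω y - ∑ u, S.w u y| ≤
            |colv A B δ S.w ω y - EE (mu δ S.w) (fun ω => colv A B δ S.w ω y)| +
            |EE (mu δ S.w) (fun ω => colv A B δ S.w ω y) - ∑ u, S.w u y| := by
          refine le_trans (le_of_eq ?_) (abs_add_le _ _)
          congr 1; ring
        linarith
    _ ≤ 2 * Real.exp (-((δ ^ 3) ^ 2 / (16 * (4 * W / D2) * (12 * W)))) := ht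
    _ ≤ _ := by
        apply mul_le_mul_of_nonneg_left _ (by norm_num)
        apply Real.exp_le_exp.2
        apply neg_le_neg
        have h1 : (δ ^ 3) ^ 2 / (16 * (4 * W / D2) * (12 * W)) = δ ^ 6 / (768 * W ^ 2) * D2 := by
          field_simp; ring
        rw [h1]
        have h2 : δ ^ 6 / (1000 * W ^ 2) ≤ δ ^ 6 / (768 * W ^ 2) := by
          apply div_le_div_of_nonneg_left (by positivity) (by positivity)
          have : 0 < W ^ 2 := by positivity
          linarith
        exact mul_le_mul h2 hD hD0 (by positivity)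

end Pool.Agent.Helper5.BEC
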