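import Pool.Agent.Helper5.BEC.St.B1
/-! Piece D1: deterministic step, structural invariants. -/
set_option autoImplicit false
namespace Pool.Agent.Helper5.BEC
open Finset

variable {n : ℕ} {A B : Nb n} {ε D1 D2 δ K0 W γ a ρ l p q : ℝ} {S : St n}
  {ω : Fin n → Option (Fin n)}

/-- picks go from `U` to `F` along pairs that are not killed -/
theorem pick_mem (hI : Inv A B D1 D2 W γ a l p q S) (hs : ∀ u z, ω u = some z → 0 < S.w u z)
    {u z : Fin n} (h : ω u = some z) : u ∈ S.U ∧ z ∈ S.F ∧ (u, z) ∉ S.K := by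
  have h0 := hs u z h
  refine ⟨?_, ?_, ?_⟩
  · by_contra h1
    rw [hI.wU u z h1] at h0
    exact lt_irrefl _ h0
  · by_contra h1
    rw [hI.wF u z h1] at h0
    exact lt_irrefl _ h0
  · intro h1
    rw [hI.wK u z h1] at h0
    exact lt_irrefl _ h0

private theorem old_none (hI : Inv A B D1 D2 W γ a l p q S)
    (hs : ∀ u z, ω u = some z → 0 < S.w u z) {u : Fin n} (h : u ∈ S.P) : ω u = none := by
  rcases hu : ω u with _ | z
  · rfl
  · exact absurd (pick_mem hI hs hu).1 (Finset.disjoint_left.mp hI.disj h)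

/-- on old placed vertices the position does not change -/
theorem next_σ_old (hI : Inv A B D1 D2 W γ a l p q S) (hs : ∀ u z, ω u = some z → 0 < S.w u z)
    {u : Fin n} (h : u ∈ S.P) : (next A B δ S ω).σ u = S.σ u := by
  show (ω u).getD (S.σ u) = S.σ u
  rw [old_none hI hs h]
  rfl

private theorem next_σ_new {u z : Fin n} (h : ω u = some z) : (next A B δ S ω).σ u = z := by
  show (ω u).getD (S.σ u) = z
  rw [h]
  rfl

private theorem mem_next_P {u : Fin n} (h : u ∈ (next A B δ S ω).P) :
    u ∈ S.P ∨ ∃ z, ω u = some z ∧ ¬ canc A B ω u := by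
  simp only [next, Finset.mem_union, Finset.mem_filter, Finset.mem_univ, true_and] at h
  rcases h with h | ⟨⟨z, hz⟩, h⟩
  · exact Or.inl h
  · exact Or.inr ⟨z, hz, h⟩

private theorem mem_next_U {u : Fin n} (h : u ∈ (next A B δ S ω).U) :
    u ∈ S.U ∧ ω u = none := by
  simpa only [next, Finset.mem_filter] using h

private theorem mem_next_F {z : Fin n} (h : z ∈ (next A B δ S ω).F) :
    z ∈ S.F ∧ ∀ u, ω u ≠ some z := by
  simpa only [next, Finset.mem_filter] using h

private theorem mem_next_K {v z : Fin n} :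
    (v, z) ∈ (next A B δ S ω).K ↔ (v, z) ∈ S.K ∨ ¬ nok A B ω v z := by
  simp only [next, Finset.mem_union, Finset.mem_filter, Finset.mem_univ, true_and]

theorem next_struct (hI : Inv A B D1 D2 W γ a l p q S)
    (hs : ∀ u z, ω u = some z → 0 < S.w u z) :
    Disjoint (next A B δ S ω).P (next A B δ S ω).U ∧
    Set.InjOn (next A B δ S ω).σ ((next A B δ S ω).P : Set (Fin n)) ∧
    (∀ u ∈ (next A B δ S ω).P, (next A B δ S ω).σ u ∉ (next A B δ S ω).F) ∧
    (∀ u ∈ (next A B δ S ω).P, ∀ v ∈ A.N u, ∀ z ∈ B.N ((next A B δ S ω).σ u),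
      (v, z) ∈ (next A B δ S ω).K) ∧
    (∀ u ∈ (next A B δ S ω).P, ∀ v ∈ (next A B δ S ω).P, v ∈ A.N u →
      (next A B δ S ω).σ v ∉ B.N ((next A B δ S ω).σ u)) := by
  refine ⟨?_, ?_, ?_, ?_, ?_⟩
  · rw [Finset.disjoint_left]
    intro u hu hu'
    obtain ⟨h1, h2⟩ := mem_next_U hu'
    rcases mem_next_P hu with h | ⟨z, hz, -⟩
    · exact Finset.disjoint_left.mp hI.disj h h1
    · rw [h2] at hz
      simp at hz
  · intro u hu v hv huv
    rcases mem_next_P (Finset.mem_coe.mp hu) with h | ⟨z, hz, hc⟩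
    · rcases mem_next_P (Finset.mem_coe.mp hv) with h' | ⟨z', hz', hc'⟩
      · rw [next_σ_old hI hs h, next_σ_old hI hs h'] at huv
        exact hI.inj (Finset.mem_coe.mpr h) (Finset.mem_coe.mpr h') huv
      · rw [next_σ_old hI hs h, next_σ_new hz'] at huv
        exact absurd (huv ▸ (pick_mem hI hs hz').2.1) (hI.notF u h)
    · rcases mem_next_P (Finset.mem_coe.mp hv) with h' | ⟨z', hz', hc'⟩
      · rw [next_σ_new hz, next_σ_old hI hs h'] at huv
        exact absurd (huv ▸ (pick_mem hI hs hz).2.1) (hI.notF v h')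
      · rw [next_σ_new hz, next_σ_new hz'] at huv
        rcases lt_trichotomy u v with hlt | heq | hlt
        · exact absurd ⟨z', hz', u, hlt, z, hz, Or.inl huv⟩ hc'
        · exact heq
        · exact absurd ⟨z, hz, v, hlt, z', hz', Or.inl huv.symm⟩ hc
  · intro u hu hF
    obtain ⟨h1, h2⟩ := mem_next_F hF
    rcases mem_next_P hu with h | ⟨z, hz, -⟩
    · rw [next_σ_old hI hs h] at h1
      exact hI.notF u h h1
    · rw [next_σ_new hz] at h2
      exact h2 u hz
  · intro u hu v hv z hz
    rw [mem_next_K]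
    rcases mem_next_P hu with h | ⟨z', hz', -⟩
    · left
      rw [next_σ_old hI hs h] at hz
      exact hI.killed u h v hv z hz
    · right
      rw [next_σ_new hz'] at hz
      intro hn
      exact hn u (A.symm v u hv) z' (B.symm z z' hz) hz'
  · intro u hu v hv huv hB
    rcases mem_next_P hu with h | ⟨z, hz, hc⟩
    · rcases mem_next_P hv with h' | ⟨z', hz', hc'⟩
      · rw [next_σ_old hI hs h, next_σ_old hI hs h'] at hB
        exact hI.valid u h v h' huv hB
      · rw [next_σ_old hI hs h, next_σ_new hz'] at hB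
        exact (pick_mem hI hs hz').2.2 (hI.killed u h v huv z' hB)
    · rcases mem_next_P hv with h' | ⟨z', hz', hc'⟩
      · rw [next_σ_new hz, next_σ_old hI hs h'] at hB
        exact (pick_mem hI hs hz).2.2
          (hI.killed v h' u (A.symm v u huv) z (B.symm (S.σ v) z hB))
      · rw [next_σ_new hz, next_σ_new hz'] at hB
        rcases lt_trichotomy u v with hlt | heq | hlt
        · exact hc' ⟨z', hz', u, hlt, z, hz, Or.inr ⟨A.symm v u huv, B.symm z' z hB⟩⟩
        · rw [heq] at huv
          exact A.irr v huv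
        · exact hc ⟨z, hz, v, hlt, z', hz', Or.inr ⟨huv, hB⟩⟩

theorem next_w (hN : Num n ε D1 D2 δ K0 W γ a ρ) (hI : Inv A B D1 D2 W γ a l p q S)
    (hs : ∀ u z, ω u = some z → 0 < S.w u z) :
    (∀ u z, 0 ≤ (next A B δ S ω).w u z) ∧
    (∀ u z, u ∉ (next A B δ S ω).U → (next A B δ S ω).w u z = 0) ∧
    (∀ u z, z ∉ (next A B δ S ω).F → (next A B δ S ω).w u z = 0) ∧
    (∀ u z, (u, z) ∈ (next A B δ S ω).K → (next A B δ S ω).w u z = 0) ∧
    (∀ u z, (next A B δ S ω).w u z ≤ W * (1 + δ * (1 + γ + ρ)) / n) := by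
  classical
  have hdef : ∀ u z, (next A B δ S ω).w u z =
      if ω u = none ∧ (∀ x, ω x ≠ some z) ∧ nok A B ω u z then
        S.w u z * (1 + δ * kap A B S.w u z) else 0 := fun u z => rfl
  have hδ := hN.δ0
  have hρ := rho_pos hN
  refine ⟨?_, ?_, ?_, ?_, ?_⟩
  · intro u z
    rw [hdef]
    split_ifs with h
    · have h1 := kap_nonneg hI u z
      exact mul_nonneg (hI.w0 u z) (by positivity)
    · exact le_refl 0
  · intro u z hu
    rw [hdef]
    split_ifs with h
    · have h1 : u ∉ S.U := by
        intro h2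
        apply hu
        simp only [next, Finset.mem_filter]
        exact ⟨h2, h.1⟩
      rw [hI.wU u z h1, zero_mul]
    · rfl
  · intro u z hz
    rw [hdef]
    split_ifs with h
    · have h1 : z ∉ S.F := by
        intro h2
        apply hz
        simp only [next, Finset.mem_filter]
        exact ⟨h2, h.2.1⟩
      rw [hI.wF u z h1, zero_mul]
    · rfl
  · intro u z hK
    rw [hdef]
    rw [mem_next_K] at hK
    split_ifs with h
    · rcases hK with hK | hK
      · rw [hI.wK u z hK, zero_mul]
      · exact absurd h.2.2 hK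
    · rfl
  · intro u z
    have hn : (0 : ℝ) < n := by
      have := hN.n1
      positivity
    have hW : (0 : ℝ) < W := lt_of_lt_of_le one_pos hN.W1
    have hγ := hN.γ0
    have hk : 0 ≤ 1 + δ * kap A B S.w u z := by
      have h1 := kap_nonneg hI u z
      positivity
    rw [hdef]
    split_ifs with h
    · have h1 := kap_le hN hI u z
      have h2 := hI.wW u z
      calc S.w u z * (1 + δ * kap A B S.w u z)
          ≤ W / n * (1 + δ * (1 + γ + ρ)) := by
            apply mul_le_mul h2 _ hk (by positivity)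
            have := mul_le_mul_of_nonneg_left h1 hδ.le
            linarith
        _ = W * (1 + δ * (1 + γ + ρ)) / n := by ring
    · positivity

end Pool.Agent.Helper5.BEC
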