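import Pool.Agent.Helper5.BEC.St.D1
/-! Piece D3: deterministic step, killed pairs and candidates. -/
set_option autoImplicit false
namespace Pool.Agent.Helper5.BEC
open Finset

variable {n : ℕ} {A B : Nb n} {ε D1 D2 δ K0 W γ a ρ l p q : ℝ} {S : St n}
  {ω : Fin n → Option (Fin n)} {ph : Prop}

private theorem card_bU {α β : Type*} [DecidableEq β] (s : Finset α) (f : α → Finset β) (c : ℝ)
    (h : ∀ a ∈ s, (#(f a) : ℝ) ≤ c) : (#(s.biUnion f) : ℝ) ≤ #s * c := by
  calc (#(s.biUnion f) : ℝ) ≤ ((∑ a ∈ s, #(f a) : ℕ) : ℝ) := by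
        exact_mod_cast Finset.card_biUnion_le
    _ = ∑ a ∈ s, (#(f a) : ℝ) := by push_cast; rfl
    _ ≤ ∑ _a ∈ s, c := Finset.sum_le_sum h
    _ = #s * c := by rw [Finset.sum_const, nsmul_eq_mul]

private theorem mem_K {v z : Fin n} :
    (v, z) ∈ (next A B δ S ω).K ↔ (v, z) ∈ S.K ∨ ¬ nok A B ω v z := by
  classical
  simp [next]

private theorem mem_P {u : Fin n} :
    u ∈ (next A B δ S ω).P ↔ u ∈ S.P ∨ ((∃ z, ω u = some z) ∧ ¬ canc A B ω u) := by
  classical
  simp [next]

private theorem not_nok {v y : Fin n} (h : ¬ nok A B ω v y) :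
    ∃ u ∈ A.N v, ∃ z ∈ B.N y, ω u = some z := by
  unfold nok at h
  push Not at h
  exact h

private theorem mem_cand {v y u : Fin n} :
    u ∈ cand S v y ↔ u ∈ S.P ∧ (v, S.σ u) ∉ S.K ∧ (u, y) ∉ S.K := by
  classical
  simp [cand]

private theorem DD (hN : Num n ε D1 D2 δ K0 W γ a ρ) : D1 * D2 ≤ n := by
  have h1 := hN.hDD
  have h2 := hN.ε0
  have h3 : (0 : ℝ) ≤ n := Nat.cast_nonneg n
  nlinarith

/-- pairs killed at `v` in this round -/
private theorem new_z (hN : Num n ε D1 D2 δ K0 W γ a ρ) (hdg : Deg A B D1 D2)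
    (hG : Good A B D1 D2 δ K0 γ ρ ph S ω) (v : Fin n) (X : Finset (Fin n))
    (hX : ∀ z ∈ X, ¬ nok A B ω v z) : (#X : ℝ) ≤ 2 * δ * n := by
  classical
  have hsub : X ⊆ ((A.N v).filter fun u => ω u ≠ none).biUnion
      fun u => B.N ((ω u).getD u) := by
    intro z hz
    obtain ⟨u, hu, z', hz', h⟩ := not_nok (hX z hz)
    rw [Finset.mem_biUnion]
    refine ⟨u, Finset.mem_filter.2 ⟨hu, by rw [h]; simp⟩, ?_⟩
    rw [h]
    exact B.symm _ _ hz'
  have h1 : (#X : ℝ) ≤ #((A.N v).filter fun u => ω u ≠ none) * D2 := by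
    refine le_trans (by exact_mod_cast Finset.card_le_card hsub) (card_bU _ _ _ ?_)
    intro u _
    exact hdg.dB _
  have h2 : (#((A.N v).filter fun u => ω u ≠ none) : ℝ) ≤ 2 * δ * D1 := by
    have := hG.pU' v
    unfold pickers at this
    convert this using 3
  have h3 := DD hN
  have h4 := hN.hD2
  have h5 := hN.δ0
  calc (#X : ℝ) ≤ #((A.N v).filter fun u => ω u ≠ none) * D2 := h1
    _ ≤ 2 * δ * D1 * D2 := mul_le_mul_of_nonneg_right h2 (by linarith)
    _ = 2 * δ * (D1 * D2) := by ring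
    _ ≤ 2 * δ * n := mul_le_mul_of_nonneg_left h3 (by linarith)

/-- pairs killed at `y` in this round -/
private theorem new_u (hN : Num n ε D1 D2 δ K0 W γ a ρ) (hdg : Deg A B D1 D2)
    (hG : Good A B D1 D2 δ K0 γ ρ ph S ω) (y : Fin n) (X : Finset (Fin n))
    (hX : ∀ u ∈ X, ¬ nok A B ω u y) : (#X : ℝ) ≤ 2 * δ * n := by
  classical
  have hsub : X ⊆ (univ.filter fun u => ∃ z ∈ B.N y, ω u = some z).biUnion
      fun u => A.N u := by
    intro u hu
    obtain ⟨x, hx, z, hz, h⟩ := not_nok (hX u hu)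
    rw [Finset.mem_biUnion]
    exact ⟨x, Finset.mem_filter.2 ⟨Finset.mem_univ _, z, hz, h⟩, A.symm _ _ hx⟩
  have h1 : (#X : ℝ) ≤ #(univ.filter fun u => ∃ z ∈ B.N y, ω u = some z) * D1 := by
    refine le_trans (by exact_mod_cast Finset.card_le_card hsub) (card_bU _ _ _ ?_)
    intro u _
    exact hdg.dA _
  have h2 : (#(univ.filter fun u => ∃ z ∈ B.N y, ω u = some z) : ℝ) ≤ 2 * δ * D2 := by
    have := hG.pF' y
    unfold pickin at this
    convert this using 3
  have h3 := DD hN
  have h4 := hN.hD1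
  have h5 := hN.δ0
  calc (#X : ℝ) ≤ #(univ.filter fun u => ∃ z ∈ B.N y, ω u = some z) * D1 := h1
    _ ≤ 2 * δ * D2 * D1 := mul_le_mul_of_nonneg_right h2 (by linarith)
    _ = 2 * δ * (D1 * D2) := by ring
    _ ≤ 2 * δ * n := mul_le_mul_of_nonneg_left h3 (by linarith)

open Classical in
/-- the new killed `z` for fixed `v` lie in `⋃_{u ∈ N₁(v) picks} N₂(ω u)`: at most `2δD1·D2 ≤ 2δn`;
the new killed `u` for fixed `y` lie in `⋃_{x picks in N₂(y)} N₁(x)`: at most `2δD2·D1` -/
theorem next_p (hN : Num n ε D1 D2 δ K0 W γ a ρ) (hdg : Deg A B D1 D2)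
    (hI : Inv A B D1 D2 W γ a l p q S)
    (hG : Good A B D1 D2 δ K0 γ ρ ph S ω) {p' : ℝ} (hp' : p + 2 * δ ≤ p') :
    (∀ v, (#(univ.filter fun z => (v, z) ∈ (next A B δ S ω).K) : ℝ) ≤ p' * n) ∧
    (∀ y, (#(univ.filter fun u => (u, y) ∈ (next A B δ S ω).K) : ℝ) ≤ p' * n) ∧
    (1 - p') * n ≤ #(next A B δ S ω).U := by
  classical
  have hn : (0 : ℝ) ≤ n := Nat.cast_nonneg n
  refine ⟨fun v => ?_, fun y => ?_, ?_⟩
  · have hsub : (univ.filter fun z => (v, z) ∈ (next A B δ S ω).K) ⊆
        (univ.filter fun z => (v, z) ∈ S.K) ∪ (univ.filter fun z => ¬ nok A B ω v z) := by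
      intro z hz
      rw [Finset.mem_filter, mem_K] at hz
      rw [Finset.mem_union, Finset.mem_filter, Finset.mem_filter]
      rcases hz.2 with h | h
      · exact Or.inl ⟨Finset.mem_univ _, h⟩
      · exact Or.inr ⟨Finset.mem_univ _, h⟩
    have h1 : (#(univ.filter fun z => (v, z) ∈ (next A B δ S ω).K) : ℝ) ≤
        #(univ.filter fun z => (v, z) ∈ S.K) + #(univ.filter fun z => ¬ nok A B ω v z) := by
      exact_mod_cast (Finset.card_le_card hsub).trans (Finset.card_union_le _ _)
    have h2 : (#(univ.filter fun z => (v, z) ∈ S.K) : ℝ) ≤ p * n := by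
      have := hI.pz v
      convert this using 3
    have h3 := new_z hN hdg hG v (univ.filter fun z => ¬ nok A B ω v z)
      (fun z hz => (Finset.mem_filter.1 hz).2)
    have h4 : (#(univ.filter fun z => (v, z) ∈ (next A B δ S ω).K) : ℝ) ≤ p' * n := by
      nlinarith
    convert h4 using 3
  · have hsub : (univ.filter fun u => (u, y) ∈ (next A B δ S ω).K) ⊆
        (univ.filter fun u => (u, y) ∈ S.K) ∪ (univ.filter fun u => ¬ nok A B ω u y) := by
      intro z hz
      rw [Finset.mem_filter, mem_K] at hz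
      rw [Finset.mem_union, Finset.mem_filter, Finset.mem_filter]
      rcases hz.2 with h | h
      · exact Or.inl ⟨Finset.mem_univ _, h⟩
      · exact Or.inr ⟨Finset.mem_univ _, h⟩
    have h1 : (#(univ.filter fun u => (u, y) ∈ (next A B δ S ω).K) : ℝ) ≤
        #(univ.filter fun u => (u, y) ∈ S.K) + #(univ.filter fun u => ¬ nok A B ω u y) := by
      exact_mod_cast (Finset.card_le_card hsub).trans (Finset.card_union_le _ _)
    have h2 : (#(univ.filter fun u => (u, y) ∈ S.K) : ℝ) ≤ p * n := by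
      have := hI.pu y
      convert this using 3
    have h3 := new_u hN hdg hG y (univ.filter fun u => ¬ nok A B ω u y)
      (fun z hz => (Finset.mem_filter.1 hz).2)
    have h4 : (#(univ.filter fun u => (u, y) ∈ (next A B δ S ω).K) : ℝ) ≤ p' * n := by
      nlinarith
    convert h4 using 3
  · have hsub : S.U ⊆ (next A B δ S ω).U ∪ (univ.filter fun u => ω u ≠ none) := by
      intro u hu
      rw [Finset.mem_union]
      by_cases h : ω u = none
      · left
        have : u ∈ S.U.filter (fun u => ω u = none) := Finset.mem_filter.2 ⟨hu, h⟩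
        simpa [next] using this
      · right
        exact Finset.mem_filter.2 ⟨Finset.mem_univ _, h⟩
    have h1 : (#S.U : ℝ) ≤ #(next A B δ S ω).U + #(univ.filter fun u => ω u ≠ none) := by
      exact_mod_cast (Finset.card_le_card hsub).trans (Finset.card_union_le _ _)
    have h2 : (#(univ.filter fun u => ω u ≠ none) : ℝ) ≤ 2 * δ * n := by
      have := hG.pUn'
      unfold pickers at this
      convert this using 3
    have h3 := hI.pN
    nlinarith

/-- old candidates that are lost are counted in `kills` -/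
theorem cand_old (hI : Inv A B D1 D2 W γ a l p q S)
    (hs : ∀ u z, ω u = some z → 0 < S.w u z) (v y : Fin n) :
    (#(cand S v y) : ℝ) - kills A B S ω v y ≤
      #((cand (next A B δ S ω) v y) ∩ S.P) := by
  classical
  have hsub : cand S v y ⊆ (cand (next A B δ S ω) v y ∩ S.P) ∪
      (univ : Finset (Fin n)).biUnion fun u => (univ : Finset (Fin n)).biUnion fun z =>
        if ω u = some z then
          ((if u ∈ A.N v then ((cand S v y).filter fun x => S.σ x ∈ B.N z) else ∅) ∪
            (if z ∈ B.N y then cand S v y ∩ A.N u else ∅)) else ∅ := by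
    intro x hx
    obtain ⟨hxP, h1, h2⟩ := mem_cand.1 hx
    rw [Finset.mem_union]
    by_cases hc : nok A B ω v (S.σ x) ∧ nok A B ω x y
    · left
      rw [Finset.mem_inter, mem_cand, mem_P, next_σ_old hI hs hxP, mem_K, mem_K]
      refine ⟨⟨Or.inl hxP, ?_, ?_⟩, hxP⟩
      · rintro (h | h)
        · exact h1 h
        · exact h hc.1
      · rintro (h | h)
        · exact h2 h
        · exact h hc.2
    · right
      rw [not_and_or] at hc
      rcases hc with hc | hc
      · obtain ⟨u, hu, z, hz, h⟩ := not_nok hc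
        refine Finset.mem_biUnion.2 ⟨u, Finset.mem_univ _, Finset.mem_biUnion.2
          ⟨z, Finset.mem_univ _, ?_⟩⟩
        rw [if_pos h, Finset.mem_union, if_pos hu]
        exact Or.inl (Finset.mem_filter.2 ⟨hx, B.symm _ _ hz⟩)
      · obtain ⟨u, hu, z, hz, h⟩ := not_nok hc
        refine Finset.mem_biUnion.2 ⟨u, Finset.mem_univ _, Finset.mem_biUnion.2
          ⟨z, Finset.mem_univ _, ?_⟩⟩
        rw [if_pos h, Finset.mem_union, if_pos hz]
        exact Or.inr (Finset.mem_inter.2 ⟨hx, A.symm _ _ hu⟩)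
  have h1 := (Finset.card_le_card hsub).trans (Finset.card_union_le _ _)
  have h2 : (#((univ : Finset (Fin n)).biUnion fun u => (univ : Finset (Fin n)).biUnion fun z =>
        if ω u = some z then
          ((if u ∈ A.N v then ((cand S v y).filter fun x => S.σ x ∈ B.N z) else ∅) ∪
            (if z ∈ B.N y then cand S v y ∩ A.N u else ∅)) else ∅) : ℝ) ≤ kills A B S ω v y := by
    refine le_trans (Nat.cast_le.2 Finset.card_biUnion_le) ?_
    rw [Nat.cast_sum]
    unfold kills
    refine Finset.sum_le_sum fun u _ => ?_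
    refine le_trans (Nat.cast_le.2 Finset.card_biUnion_le) ?_
    rw [Nat.cast_sum]
    refine Finset.sum_le_sum fun z _ => ?_
    by_cases h : ω u = some z
    · rw [if_pos h, if_pos h]
      refine le_trans (Nat.cast_le.2 (Finset.card_union_le _ _)) ?_
      rw [Nat.cast_add]
      refine add_le_add ?_ ?_
      · by_cases h' : u ∈ A.N v
        · rw [if_pos h', if_pos h']
        · rw [if_neg h', if_neg h']
          simp
      · by_cases h' : z ∈ B.N y
        · rw [if_pos h', if_pos h']
        · rw [if_neg h', if_neg h']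
          simp
    · rw [if_neg h, if_neg h]
      simp
  have h3 : (#(cand S v y) : ℝ) ≤ #(cand (next A B δ S ω) v y ∩ S.P) +
      #((univ : Finset (Fin n)).biUnion fun u => (univ : Finset (Fin n)).biUnion fun z =>
        if ω u = some z then
          ((if u ∈ A.N v then ((cand S v y).filter fun x => S.σ x ∈ B.N z) else ∅) ∪
            (if z ∈ B.N y then cand S v y ∩ A.N u else ∅)) else ∅) := by
    exact_mod_cast h1
  linarith

/-- new candidates: pickers counted by `news` that are not cancelled, are not killed in this round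
at `v` (at most `∑_{u' ∈ N₁(v) picks} pickin(N₂(ω u')) ≤ 2δD1 · 2δD2`) nor at `y` (at most
`∑_{x picks in N₂(y)} pickers(N₁(x)) ≤ 2δD2 · 2δD1`) -/
theorem cand_new (hN : Num n ε D1 D2 δ K0 W γ a ρ) (hdg : Deg A B D1 D2)
    (hI : Inv A B D1 D2 W γ a l p q S)
    (hG : Good A B D1 D2 δ K0 γ ρ ph S ω) (v y : Fin n) :
    (news S ω v y : ℝ) - 20 * K0 * δ ^ 2 * n - 8 * δ ^ 2 * n ≤
      #((cand (next A B δ S ω) v y) \ S.P) := by
  classical
  have hs := hG.supp
  have hn : (0 : ℝ) ≤ n := Nat.cast_nonneg n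
  have hδ := hN.δ0
  have hDDn := DD hN
  have hD1 := hN.hD1
  have hD2 := hN.hD2
  have hsub : (univ.filter fun u => ∃ z, ω u = some z ∧ (v, z) ∉ S.K ∧ (u, y) ∉ S.K) ⊆
      (((cand (next A B δ S ω) v y) \ S.P) ∪ (univ.filter fun u => canc A B ω u)) ∪
      ((((A.N v).filter fun u => ω u ≠ none).biUnion fun u' =>
          univ.filter fun u => ∃ z ∈ B.N ((ω u').getD u'), ω u = some z) ∪
        ((univ.filter fun u => ∃ z ∈ B.N y, ω u = some z).biUnion fun x =>
          (A.N x).filter fun u => ω u ≠ none)) := by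
    intro u hu
    obtain ⟨z, hz, h1, h2⟩ := (Finset.mem_filter.1 hu).2
    by_cases hc : canc A B ω u
    · exact Finset.mem_union_left _ (Finset.mem_union_right _
        (Finset.mem_filter.2 ⟨Finset.mem_univ _, hc⟩))
    · by_cases hk : nok A B ω v z
      · by_cases hk' : nok A B ω u y
        · refine Finset.mem_union_left _ (Finset.mem_union_left _ ?_)
          have hσ : (next A B δ S ω).σ u = z := by simp [next, hz]
          rw [Finset.mem_sdiff, mem_cand, mem_P, hσ, mem_K, mem_K]
          refine ⟨⟨Or.inr ⟨⟨z, hz⟩, hc⟩, ?_, ?_⟩, ?_⟩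
          · rintro (h | h)
            · exact h1 h
            · exact h hk
          · rintro (h | h)
            · exact h2 h
            · exact h hk'
          · intro hP
            exact Finset.disjoint_left.1 hI.disj hP (pick_mem hI hs hz).1
        · obtain ⟨x, hx, z', hz', h⟩ := not_nok hk'
          refine Finset.mem_union_right _ (Finset.mem_union_right _ ?_)
          refine Finset.mem_biUnion.2 ⟨x, Finset.mem_filter.2 ⟨Finset.mem_univ _, z', hz', h⟩, ?_⟩
          exact Finset.mem_filter.2 ⟨A.symm _ _ hx, by rw [hz]; simp⟩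
      · obtain ⟨x, hx, z', hz', h⟩ := not_nok hk
        refine Finset.mem_union_right _ (Finset.mem_union_left _ ?_)
        refine Finset.mem_biUnion.2 ⟨x, Finset.mem_filter.2 ⟨hx, by rw [h]; simp⟩, ?_⟩
        rw [h]
        exact Finset.mem_filter.2 ⟨Finset.mem_univ _, z, B.symm _ _ hz', hz⟩
  have h0 : (news S ω v y : ℝ) ≤ ((#((cand (next A B δ S ω) v y) \ S.P) : ℝ) +
      #(univ.filter fun u => canc A B ω u)) +
      ((#(((A.N v).filter fun u => ω u ≠ none).biUnion fun u' =>
          univ.filter fun u => ∃ z ∈ B.N ((ω u').getD u'), ω u = some z) : ℝ) +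
        #((univ.filter fun u => ∃ z ∈ B.N y, ω u = some z).biUnion fun x =>
          (A.N x).filter fun u => ω u ≠ none)) := by
    have e : news S ω v y =
        #(univ.filter fun u => ∃ z, ω u = some z ∧ (v, z) ∉ S.K ∧ (u, y) ∉ S.K) := by
      unfold news
      congr!
    rw [e]
    have := (Finset.card_le_card hsub).trans ((Finset.card_union_le _ _).trans
      (add_le_add (Finset.card_union_le _ _) (Finset.card_union_le _ _)))
    exact_mod_cast this
  have hc : (#(univ.filter fun u => canc A B ω u) : ℝ) ≤ 20 * K0 * δ ^ 2 * n := by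
    have := hG.cUn
    unfold cancU at this
    convert this using 3
  have hpk : ∀ v, (#((A.N v).filter fun u => ω u ≠ none) : ℝ) ≤ 2 * δ * D1 := by
    intro v
    have := hG.pU' v
    unfold pickers at this
    convert this using 3
  have hpi : ∀ y, (#(univ.filter fun u => ∃ z ∈ B.N y, ω u = some z) : ℝ) ≤ 2 * δ * D2 := by
    intro y
    have := hG.pF' y
    unfold pickin at this
    convert this using 3
  have ha : (#(((A.N v).filter fun u => ω u ≠ none).biUnion fun u' =>
          univ.filter fun u => ∃ z ∈ B.N ((ω u').getD u'), ω u = some z) : ℝ) ≤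
      4 * δ ^ 2 * n := by
    refine (card_bU _ _ (2 * δ * D2) fun u' _ => hpi _).trans ?_
    calc (#((A.N v).filter fun u => ω u ≠ none) : ℝ) * (2 * δ * D2)
        ≤ (2 * δ * D1) * (2 * δ * D2) :=
          mul_le_mul_of_nonneg_right (hpk v) (by positivity)
      _ = 4 * δ ^ 2 * (D1 * D2) := by ring
      _ ≤ 4 * δ ^ 2 * n := mul_le_mul_of_nonneg_left hDDn (by positivity)
  have hb : (#((univ.filter fun u => ∃ z ∈ B.N y, ω u = some z).biUnion fun x =>
          (A.N x).filter fun u => ω u ≠ none) : ℝ) ≤ 4 * δ ^ 2 * n := by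
    refine (card_bU _ _ (2 * δ * D1) fun x _ => hpk x).trans ?_
    calc (#(univ.filter fun u => ∃ z ∈ B.N y, ω u = some z) : ℝ) * (2 * δ * D1)
        ≤ (2 * δ * D2) * (2 * δ * D1) :=
          mul_le_mul_of_nonneg_right (hpi y) (by positivity)
      _ = 4 * δ ^ 2 * (D1 * D2) := by ring
      _ ≤ 4 * δ ^ 2 * n := mul_le_mul_of_nonneg_left hDDn (by positivity)
  linarith

/-- in both phases; in the first phase `q'` may grow -/
theorem next_q (hN : Num n ε D1 D2 δ K0 W γ a ρ) (hdg : Deg A B D1 D2)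
    (hI : Inv A B D1 D2 W γ a l p q S)
    (hG : Good A B D1 D2 δ K0 γ ρ ph S ω) {q' : ℝ}
    (h1 : ph → q' ≤ (1 - 2 * δ * ρ) * q - δ ^ 3 +
      ((6 / 10) * δ - δ ^ 3 - 20 * K0 * δ ^ 2 - 8 * δ ^ 2))
    (h2 : ¬ ph → q' ≤ (1 - 2 * δ * ρ) * q - δ ^ 3) :
    ∀ v y, q' * n ≤ #(cand (next A B δ S ω) v y) := by
  classical
  intro v y
  have hn : (0 : ℝ) ≤ n := Nat.cast_nonneg n
  have hδ := hN.δ0
  have hsum : (#(cand (next A B δ S ω) v y) : ℝ) =
      #((cand (next A B δ S ω) v y) \ S.P) + #((cand (next A B δ S ω) v y) ∩ S.P) := by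
    exact_mod_cast (Finset.card_sdiff_add_card_inter _ _).symm
  have h3 := cand_old (A := A) (B := B) (δ := δ) hI hG.supp v y
  have h4 := hG.kl v y
  have h5 := hI.cnd v y
  have h6 : 0 ≤ 1 - 2 * δ * ρ := by
    have h7 := hN.hκ
    have h8 := hN.γ0
    have h9 := hN.δK
    nlinarith
  have h7 := mul_le_mul_of_nonneg_left h5 h6
  by_cases hph : ph
  · have h8 := h1 hph
    have h9 := hG.nw hph v y
    have h10 := cand_new hN hdg hI hG v y
    have h11 := mul_le_mul_of_nonneg_right h8 hn
    rw [hsum]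
    nlinarith
  · have h8 := h2 hph
    have h11 := mul_le_mul_of_nonneg_right h8 hn
    have h12 : (0 : ℝ) ≤ #((cand (next A B δ S ω) v y) \ S.P) := Nat.cast_nonneg _
    rw [hsum]
    nlinarith

end Pool.Agent.Helper5.BEC
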