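import Pool.Agent.Helper5.BEC.Defs
/-! Parameter sequences of the iteration (split off D4 so that P1 can be built in parallel). -/
set_option autoImplicit false
namespace Pool.Agent.Helper5.BEC

/-- the iteration: parameter sequences -/
structure Seqs (ε δ K0 Wm : ℝ) (k1 K : ℕ) (W γ a l p q : ℕ → ℝ) : Prop where
  W0 : 1 ≤ W 0
  γ0 : 0 ≤ γ 0
  a0 : 1 ≤ a 0
  l0 : 0 ≤ l 0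
  p0 : 0 ≤ p 0
  q0 : q 0 ≤ 0
  ε0 : 0 < ε
  ε1 : ε ≤ 1 / 2
  δ0 : 0 < δ
  δ1 : δ ≤ 1 / 100
  K0' : 2 ≤ K0
  δK : δ * K0 ≤ 1 / 100
  W1 : ∀ k < K, 1 ≤ W k
  Wm' : ∀ k < K, W k ≤ Wm
  γ1 : ∀ k < K, 0 ≤ γ k ∧ γ k ≤ 1 / 50
  a1 : ∀ k < K, 0 ≤ a k ∧ a k ≤ 11 / 10
  hκ : ∀ k < K, 1 + γ k + (1 - ε) * a k ^ 2 * W k ≤ K0
  p1 : ∀ k < K, k < k1 → p k ≤ 1 / 8
  sW : ∀ k < K, W k * (1 + δ * (1 + γ k + (1 - ε) * a k ^ 2 * W k)) ≤ W (k + 1)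
  sγ : ∀ k < K, γ k + 3 * δ * γ k + 10 * K0 ^ 2 * δ ^ 2 + δ ^ 3 ≤ γ (k + 1)
  sa : ∀ k < K, (1 - δ * (1 - γ k) + δ ^ 2) * a k + δ ^ 3 ≤ a (k + 1)
  sl : ∀ k < K, l k + 20 * K0 * δ ^ 2 ≤ l (k + 1)
  sp : ∀ k < K, p k + 2 * δ ≤ p (k + 1)
  sq1 : ∀ k < K, k < k1 → q (k + 1) ≤ (1 - 2 * δ * ((1 - ε) * a k ^ 2 * W k)) * q k - δ ^ 3 +
      ((6 / 10) * δ - δ ^ 3 - 20 * K0 * δ ^ 2 - 8 * δ ^ 2)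
  sq2 : ∀ k < K, k1 ≤ k → q (k + 1) ≤ (1 - 2 * δ * ((1 - ε) * a k ^ 2 * W k)) * q k - δ ^ 3

end Pool.Agent.Helper5.BEC
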