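import Pool.Agent.Helper5.BEC.St.T1
import Pool.Agent.Helper5.BEC.St.B1
/-! Piece Q1: lost candidates. -/
set_option autoImplicit false
namespace Pool.Agent.Helper5.BEC
open Finset Pool.Agent.Helper61.LE

variable {n : ℕ} {A B : Nb n} {ε D1 D2 D δ K0 W γ a ρ l p q : ℝ} {S : St n}

open Classical in
/-- the candidates of `(v,y)` lost by the pick `(u,z)` -/
private noncomputable def gk (A B : Nb n) (S : St n) (v y u z : Fin n) : ℝ :=
  (if u ∈ A.N v then (#((cand S v y).filter fun x => S.σ x ∈ B.N z) : ℝ) else 0) +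
    (if z ∈ B.N y then (#(cand S v y ∩ A.N u) : ℝ) else 0)

/-- the candidates of `(v,y)` lost by the choice `o` of `u` -/
private noncomputable def go (A B : Nb n) (S : St n) (v y u : Fin n) (o : Option (Fin n)) : ℝ :=
  match o with
  | none => 0
  | some z => gk A B S v y u z

private theorem kills_eq (A B : Nb n) (S : St n) (ω : Fin n → Option (Fin n)) (v y : Fin n) :
    kills A B S ω v y = ∑ u, go A B S v y u (ω u) := by
  classical
  unfold kills
  refine Finset.sum_congr rfl fun u _ => ?_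
  rcases h : ω u with _ | z0
  · refine Finset.sum_eq_zero fun z _ => ?_
    rw [if_neg]
    intro h2
    exact absurd h2 (by simp)
  · rw [Finset.sum_eq_single z0]
    · rw [if_pos rfl]
      rfl
    · intro z _ hz
      rw [if_neg]
      intro h2
      exact hz (Option.some.inj h2).symm
    · intro h2
      exact absurd (Finset.mem_univ _) h2

private theorem sum_card_a (A B : Nb n) (S : St n) (v y : Fin n) :
    ∑ u ∈ A.N v, ∑ z, S.w u z * (#((cand S v y).filter fun x => S.σ x ∈ B.N z) : ℝ) =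
      ∑ x ∈ cand S v y, rho A B S.w v (S.σ x) := by
  classical
  unfold rho
  rw [Finset.sum_comm (s := cand S v y)]
  refine Finset.sum_congr rfl fun u _ => ?_
  have h1 : ∀ z, S.w u z * (#((cand S v y).filter fun x => S.σ x ∈ B.N z) : ℝ) =
      ∑ x ∈ cand S v y, if S.σ x ∈ B.N z then S.w u z else 0 := by
    intro z
    rw [Finset.card_filter, Nat.cast_sum, Finset.mul_sum]
    refine Finset.sum_congr rfl fun x _ => ?_
    by_cases h : S.σ x ∈ B.N z
    · simp [h]
    · simp [h]
  rw [Finset.sum_congr rfl fun z _ => h1 z, Finset.sum_comm]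
  refine Finset.sum_congr rfl fun x _ => ?_
  rw [← Finset.sum_filter]
  refine Finset.sum_congr ?_ fun _ _ => rfl
  ext z
  simp only [Finset.mem_filter, Finset.mem_univ, true_and]
  exact ⟨fun h => B.symm _ _ h, fun h => B.symm _ _ h⟩

private theorem sum_card_b (A B : Nb n) (S : St n) (v y : Fin n) :
    ∑ u, ∑ z ∈ B.N y, S.w u z * (#(cand S v y ∩ A.N u) : ℝ) =
      ∑ x ∈ cand S v y, rho A B S.w x y := by
  classical
  unfold rho
  have h1 : ∀ u, ∑ z ∈ B.N y, S.w u z * (#(cand S v y ∩ A.N u) : ℝ) =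
      ∑ x ∈ cand S v y, if x ∈ A.N u then ∑ z ∈ B.N y, S.w u z else 0 := by
    intro u
    rw [← Finset.sum_mul, ← Finset.filter_mem_eq_inter, Finset.card_filter, Nat.cast_sum,
      Finset.mul_sum]
    refine Finset.sum_congr rfl fun x _ => ?_
    by_cases h : x ∈ A.N u
    · simp [h]
    · simp [h]
  rw [Finset.sum_congr rfl fun u _ => h1 u, Finset.sum_comm]
  refine Finset.sum_congr rfl fun x _ => ?_
  rw [← Finset.sum_filter]
  refine Finset.sum_congr ?_ fun _ _ => rfl
  ext u
  simp only [Finset.mem_filter, Finset.mem_univ, true_and]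
  exact ⟨fun h => A.symm _ _ h, fun h => A.symm _ _ h⟩

private theorem sum_gk (A B : Nb n) (S : St n) (w : Fin n → Fin n → ℝ) (v y : Fin n)
    (α : Fin n → Fin n → ℝ) (β : Fin n → Fin n → ℝ) :
    ∑ u, ∑ z, w u z * ((if u ∈ A.N v then α u z else 0) + (if z ∈ B.N y then β u z else 0)) =
      ∑ u ∈ A.N v, ∑ z, w u z * α u z + ∑ u, ∑ z ∈ B.N y, w u z * β u z := by
  classical
  have h1 : ∀ u z, w u z * ((if u ∈ A.N v then α u z else 0) +
      (if z ∈ B.N y then β u z else 0)) =
      (if u ∈ A.N v then w u z * α u z else 0) + (if z ∈ B.N y then w u z * β u z else 0) := by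
    intro u z
    split_ifs <;> ring
  simp only [h1, Finset.sum_add_distrib]
  congr 1
  · rw [← Finset.sum_filter_add_sum_filter_not (s := Finset.univ) (p := fun u => u ∈ A.N v)]
    have h2 : ∑ u ∈ Finset.univ.filter (fun u => ¬ u ∈ A.N v),
        ∑ z, (if u ∈ A.N v then w u z * α u z else 0) = 0 := by
      refine Finset.sum_eq_zero fun u hu => ?_
      rw [Finset.mem_filter] at hu
      simp [hu.2]
    rw [h2, add_zero]
    have h3 : Finset.univ.filter (fun u => u ∈ A.N v) = A.N v := by
      ext u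
      simp
    rw [h3]
    refine Finset.sum_congr rfl fun u hu => ?_
    simp [hu]
  · refine Finset.sum_congr rfl fun u _ => ?_
    rw [← Finset.sum_filter]
    refine Finset.sum_congr ?_ fun _ _ => rfl
    ext z
    simp

/-- expectation of `kills` (a sum of functions of the single picks, `EE_sum_pick`):
`δ ∑_{x ∈ cand} (rho v (σ x) + rho x y) ≤ 2 δ ρ #cand` (double counting: for `u ∈ N₁(v)`,
`∑_z w u z #{x ∈ cand : σ x ∈ N₂(z)} = ∑_{x ∈ cand} ∑_{z ∈ N₂(σ x)} w u z`; and
`∑_u w u z #(cand ∩ N₁(u)) = ∑_{x ∈ cand} ∑_{u ∈ N₁(x)} w u z`). -/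
theorem EE_kills (hN : Num n ε D1 D2 δ K0 W γ a ρ) (hI : Inv A B D1 D2 W γ a l p q S)
    (v y : Fin n) :
    EE (mu δ S.w) (fun ω => kills A B S ω v y) ≤ 2 * δ * ρ * #(cand S v y) := by
  classical
  have h1 : EE (mu δ S.w) (fun ω => kills A B S ω v y) =
      ∑ u, ∑ z, δ * S.w u z * go A B S v y u (some z) := by
    rw [← EE_sum_pick hN hI (go A B S v y) (fun _ => rfl)]
    exact EE_congr fun ω => kills_eq A B S ω v y
  have h2 : ∑ u, ∑ z, δ * S.w u z * go A B S v y u (some z) =
      δ * (∑ x ∈ cand S v y, rho A B S.w v (S.σ x) + ∑ x ∈ cand S v y, rho A B S.w x y) := by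
    rw [← sum_card_a, ← sum_card_b, ← sum_gk A B S, Finset.mul_sum]
    refine Finset.sum_congr rfl fun u _ => ?_
    rw [Finset.mul_sum]
    refine Finset.sum_congr rfl fun z _ => ?_
    rw [mul_assoc]
    rfl
  rw [h1, h2]
  have h3 : ∑ x ∈ cand S v y, rho A B S.w v (S.σ x) ≤ ρ * #(cand S v y) := by
    calc ∑ x ∈ cand S v y, rho A B S.w v (S.σ x) ≤ ∑ x ∈ cand S v y, ρ :=
          Finset.sum_le_sum fun x _ => rho_le hN hI v (S.σ x)
      _ = ρ * #(cand S v y) := by rw [Finset.sum_const, nsmul_eq_mul, mul_comm]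
  have h4 : ∑ x ∈ cand S v y, rho A B S.w x y ≤ ρ * #(cand S v y) := by
    calc ∑ x ∈ cand S v y, rho A B S.w x y ≤ ∑ x ∈ cand S v y, ρ :=
          Finset.sum_le_sum fun x _ => rho_le hN hI x y
      _ = ρ * #(cand S v y) := by rw [Finset.sum_const, nsmul_eq_mul, mul_comm]
  have h5 := mul_le_mul_of_nonneg_left (add_le_add h3 h4) hN.δ0.le
  linarith

/-- `tail` for `kills / n`: cost `(D2 + D1)/n ≤ 1/D1 + 1/D2 ≤ 2/D = m` (the first cost uses that
`σ` is injective on `P`; treat `D = 0` separately or use `m = 1/D1 + 1/D2`), `L = 1`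
(the expectation is `≤ 2δρ n/n ≤ 2 δ K0 ≤ 1`), `t = δ³`. -/
theorem kills_tail (hN : Num n ε D1 D2 δ K0 W γ a ρ) (hdg : Deg A B D1 D2)
    (hI : Inv A B D1 D2 W γ a l p q S) (hD0 : 0 ≤ D) (hDa : D ≤ D1) (hDb : D ≤ D2)
    (v y : Fin n) :
    PP (mu δ S.w) (fun ω => ¬ kills A B S ω v y ≤ 2 * δ * ρ * #(cand S v y) + δ ^ 3 * n) ≤
      2 * Real.exp (-(δ ^ 6 / (1000 * W ^ 2) * D)) := by
  classical
  have hprob := isProb_mu hN hI
  have hn : (1 : ℝ) ≤ n := by exact_mod_cast hN.n1
  have hn0 : (0 : ℝ) < n := by linarith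
  rcases eq_or_lt_of_le hD0 with hD | hD
  · rw [← hD, mul_zero, neg_zero, Real.exp_zero]
    have := PP_le_one hprob (fun ω => ¬ kills A B S ω v y ≤ 2 * δ * ρ * #(cand S v y) + δ ^ 3 * n)
    linarith
  have hD10 : 0 < D1 := by linarith
  have hD20 : 0 < D2 := by linarith
  have hDD : D1 * D2 ≤ n := by
    have h1 := hN.hDD
    have h2 := mul_nonneg hN.ε0.le hn0.le
    linarith
  have hδ := hN.δ0
  have hδ1 := hN.δ1
  -- the costs
  obtain ⟨c, hc⟩ : ∃ c : Fin n → Option (Fin n) → ℝ, c = fun u o => match o with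
    | none => 0
    | some z => (if u ∈ A.N v then D2 / n else 0) + (if z ∈ B.N y then D1 / n else 0) :=
    ⟨_, rfl⟩
  have hcn : ∀ u, c u none = 0 := by
    intro u
    rw [hc]
  have hcs : ∀ u z, c u (some z) =
      (if u ∈ A.N v then D2 / n else 0) + (if z ∈ B.N y then D1 / n else 0) := by
    intro u z
    rw [hc]
  have hq1 : 0 ≤ D2 / n := by positivity
  have hq2 : 0 ≤ D1 / n := by positivity
  have hc0 : ∀ u o, 0 ≤ c u o := by
    intro u o
    rcases o with _ | z
    · rw [hcn]
    · rw [hcs]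
      split_ifs <;> linarith
  have hm1 : D2 / n ≤ 1 / D := by
    rw [div_le_div_iff₀ hn0 hD]
    nlinarith
  have hm2 : D1 / n ≤ 1 / D := by
    rw [div_le_div_iff₀ hn0 hD]
    nlinarith
  have hcm : ∀ u o, c u o ≤ 2 / D := by
    intro u o
    have e : 2 / D = 1 / D + 1 / D := by ring
    have e2 : 0 < 1 / D := by positivity
    rcases o with _ | z
    · rw [hcn, e]
      linarith
    · rw [hcs, e]
      split_ifs <;> linarith
  -- the functions of the single picks
  have hgo0 : ∀ u o, 0 ≤ go A B S v y u o := by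
    intro u o
    rcases o with _ | z
    · exact le_refl _
    · show 0 ≤ gk A B S v y u z
      unfold gk
      refine add_nonneg ?_ ?_
      · split_ifs
        · exact Nat.cast_nonneg _
        · exact le_refl _
      · split_ifs
        · exact Nat.cast_nonneg _
        · exact le_refl _
  have hcard1 : ∀ z, (#((cand S v y).filter fun x => S.σ x ∈ B.N z) : ℝ) ≤ D2 := by
    intro z
    refine le_trans ?_ (hdg.dB z)
    have h1 : #((cand S v y).filter fun x => S.σ x ∈ B.N z) ≤ #(B.N z) := by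
      refine Finset.card_le_card_of_injOn S.σ ?_ ?_
      · intro x hx
        rw [Finset.mem_coe, Finset.mem_filter] at hx
        exact hx.2
      · intro x hx x' hx' he
        rw [Finset.mem_coe, Finset.mem_filter] at hx hx'
        refine hI.inj ?_ ?_ he
        · exact (Finset.mem_filter.1 hx.1).1
        · exact (Finset.mem_filter.1 hx'.1).1
    exact_mod_cast h1
  have hcard2 : ∀ u, (#(cand S v y ∩ A.N u) : ℝ) ≤ D1 := by
    intro u
    refine le_trans ?_ (hdg.dA u)
    have h1 : #(cand S v y ∩ A.N u) ≤ #(A.N u) :=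
      Finset.card_le_card Finset.inter_subset_right
    exact_mod_cast h1
  have hgoc : ∀ u o, go A B S v y u o / n ≤ c u o := by
    intro u o
    rcases o with _ | z
    · rw [hcn]
      show (0 : ℝ) / n ≤ 0
      rw [zero_div]
    · rw [hcs]
      show gk A B S v y u z / n ≤ _
      unfold gk
      rw [add_div]
      refine add_le_add ?_ ?_
      · split_ifs
        · exact div_le_div_of_nonneg_right (hcard1 z) hn0.le
        · rw [zero_div]
      · split_ifs
        · exact div_le_div_of_nonneg_right (hcard2 u) hn0.le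
        · rw [zero_div]
  have hupd : ∀ (i : Fin n) (ω : Fin n → Option (Fin n)) (o : Option (Fin n)),
      kills A B S (Function.update ω i o) v y =
        go A B S v y i o + ∑ u ∈ Finset.univ.erase i, go A B S v y u (ω u) := by
    intro i ω o
    rw [kills_eq, ← Finset.add_sum_erase _ _ (Finset.mem_univ i), Function.update_self]
    congr 1
    refine Finset.sum_congr rfl fun u hu => ?_
    rw [Function.update_of_ne (Finset.ne_of_mem_erase hu)]
  have hf : ∀ i (ω : Fin n → Option (Fin n)) a b,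
      |(fun ω => kills A B S ω v y / n) (Function.update ω i a) -
        (fun ω => kills A B S ω v y / n) (Function.update ω i b)| ≤ c i a + c i b := by
    intro i ω a b
    show |kills A B S (Function.update ω i a) v y / n -
      kills A B S (Function.update ω i b) v y / n| ≤ c i a + c i b
    rw [hupd, hupd]
    have e : (go A B S v y i a + ∑ u ∈ Finset.univ.erase i, go A B S v y u (ω u)) / n -
        (go A B S v y i b + ∑ u ∈ Finset.univ.erase i, go A B S v y u (ω u)) / n =
        go A B S v y i a / n - go A B S v y i b / n := by ring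
    rw [e, abs_le]
    have h1 := hgoc i a
    have h2 := hgoc i b
    have h3 : 0 ≤ go A B S v y i a / n := div_nonneg (hgo0 i a) hn0.le
    have h4 : 0 ≤ go A B S v y i b / n := div_nonneg (hgo0 i b) hn0.le
    constructor <;> linarith
  have hL : ∑ u, ∑ o, mu δ S.w u o * c u o ≤ 1 := by
    have h1 : ∀ u, ∑ o, mu δ S.w u o * c u o = ∑ z, δ * S.w u z * c u (some z) := by
      intro u
      exact sum_mu (c u) (hcn u) u
    rw [Finset.sum_congr rfl fun u _ => h1 u]
    have h2 : ∑ u, ∑ z, δ * S.w u z * c u (some z) =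
        δ * (∑ u ∈ A.N v, ∑ z, S.w u z * (D2 / n) + ∑ u, ∑ z ∈ B.N y, S.w u z * (D1 / n)) := by
      rw [← sum_gk A B S, Finset.mul_sum]
      refine Finset.sum_congr rfl fun u _ => ?_
      rw [Finset.mul_sum]
      refine Finset.sum_congr rfl fun z _ => ?_
      rw [mul_assoc, hcs]
    rw [h2]
    have h3 : ∑ u ∈ A.N v, ∑ z, S.w u z * (D2 / n) ≤ 1 + γ := by
      have h4 : ∀ u ∈ A.N v, ∑ z, S.w u z * (D2 / n) ≤ (1 + γ) * (D2 / n) := by
        intro u _
        rw [← Finset.sum_mul]
        exact mul_le_mul_of_nonneg_right (rowsum_le hI hN.γ0 u) hq1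
      refine (Finset.sum_le_sum h4).trans ?_
      rw [Finset.sum_const, nsmul_eq_mul]
      have h5 : (#(A.N v) : ℝ) * ((1 + γ) * (D2 / n)) ≤ D1 * ((1 + γ) * (D2 / n)) := by
        refine mul_le_mul_of_nonneg_right (hdg.dA v) ?_
        have := hN.γ0
        positivity
      have h6 : D1 * ((1 + γ) * (D2 / n)) = (1 + γ) * (D1 * D2 / n) := by ring
      have h7 : D1 * D2 / n ≤ 1 := by rwa [div_le_one hn0]
      have h8 : (1 + γ) * (D1 * D2 / n) ≤ (1 + γ) * 1 :=
        mul_le_mul_of_nonneg_left h7 (by linarith [hN.γ0])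
      linarith
    have h9 : ∑ u, ∑ z ∈ B.N y, S.w u z * (D1 / n) ≤ 1 + γ := by
      rw [Finset.sum_comm]
      have h4 : ∀ z ∈ B.N y, ∑ u, S.w u z * (D1 / n) ≤ (1 + γ) * (D1 / n) := by
        intro z _
        rw [← Finset.sum_mul]
        exact mul_le_mul_of_nonneg_right (colsum_le hI hN.γ0 z) hq2
      refine (Finset.sum_le_sum h4).trans ?_
      rw [Finset.sum_const, nsmul_eq_mul]
      have h5 : (#(B.N y) : ℝ) * ((1 + γ) * (D1 / n)) ≤ D2 * ((1 + γ) * (D1 / n)) := by
        refine mul_le_mul_of_nonneg_right (hdg.dB y) ?_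
        have := hN.γ0
        positivity
      have h6 : D2 * ((1 + γ) * (D1 / n)) = (1 + γ) * (D1 * D2 / n) := by ring
      have h7 : D1 * D2 / n ≤ 1 := by rwa [div_le_one hn0]
      have h8 : (1 + γ) * (D1 * D2 / n) ≤ (1 + γ) * 1 :=
        mul_le_mul_of_nonneg_left h7 (by linarith [hN.γ0])
      linarith
    have h10 := hN.γ1
    have h11 := mul_le_mul_of_nonneg_left (add_le_add h3 h9) hδ.le
    nlinarith
  have ht3 : δ ^ 3 ≤ 1 := pow_le_one₀ hδ.le (by linarith)
  have htail := tail hprob c (fun ω => kills A B S ω v y / n) (m := 2 / D) (L := 1) (t := δ ^ 3)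
    hc0 hcm (by positivity) hL one_pos (by positivity) (by linarith) hf
  have hEE : EE (mu δ S.w) (fun ω => kills A B S ω v y / n) =
      EE (mu δ S.w) (fun ω => kills A B S ω v y) / n := by
    have e := EE_mul_const (μ := mu δ S.w) ((n : ℝ)⁻¹) (fun ω => kills A B S ω v y)
    simp only [← div_eq_mul_inv] at e
    exact e
  refine le_trans (PP_mono hprob (B := fun ω => δ ^ 3 ≤ |(fun ω => kills A B S ω v y / n) ω -
    EE (mu δ S.w) (fun ω => kills A B S ω v y / n)|) ?_) (htail.trans ?_)
  · intro ω hω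
    rw [not_le] at hω
    show δ ^ 3 ≤ |kills A B S ω v y / n - EE (mu δ S.w) (fun ω => kills A B S ω v y / n)|
    rw [hEE, ← sub_div]
    refine le_trans ?_ (le_abs_self _)
    rw [le_div_iff₀ hn0]
    have := EE_kills hN hI v y
    linarith
  · refine mul_le_mul_of_nonneg_left ?_ (by norm_num)
    rw [Real.exp_le_exp, neg_le_neg_iff]
    have hW := hN.W1
    have e1 : (δ ^ 3) ^ 2 / (16 * (2 / D) * 1) = δ ^ 6 / 32 * D := by
      field_simp
      ring
    rw [e1]
    refine mul_le_mul_of_nonneg_right ?_ hD.le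
    refine div_le_div_of_nonneg_left (by positivity) (by norm_num) ?_
    nlinarith

end Pool.Agent.Helper5.BEC
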