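import Pool.Agent.Helper5.BEC.St.T1
import Pool.Agent.Helper5.BEC.St.T2
import Pool.Agent.Helper5.BEC.St.B1
/-! Piece X1: cancelled vertices (vertex side). -/
set_option autoImplicit false
namespace Pool.Agent.Helper5.BEC
open Finset Pool.Agent.Helper61.LE

variable {n : ℕ} {A B : Nb n} {ε D1 D2 D δ K0 W γ a ρ l p q d : ℝ} {S : St n}

open Classical in
/-- `Y_u = ∑_{u'} ( w(u, ω u') + [u' ∈ N₁(u)] w(u, N₂(ω u')) )` -/
noncomputable def Yu (A B : Nb n) (w : Fin n → Fin n → ℝ) (ω : Fin n → Option (Fin n))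
    (u : Fin n) : ℝ :=
  ∑ u', match ω u' with
    | none => 0
    | some z => w u z + (if u' ∈ A.N u then ∑ z' ∈ B.N z, w u z' else 0)

open Classical in
/-- cost of a pick in `Yu` -/
noncomputable def yc (A B : Nb n) (w : Fin n → Fin n → ℝ) (u u' : Fin n)
    (o : Option (Fin n)) : ℝ :=
  match o with
    | none => 0
    | some z => w u z + (if u' ∈ A.N u then ∑ z' ∈ B.N z, w u z' else 0)

theorem Yu_eq_sum_yc (w : Fin n → Fin n → ℝ) (ω : Fin n → Option (Fin n)) (u : Fin n) :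
    Yu A B w ω u = ∑ u', yc A B w u u' (ω u') := rfl

theorem yc_nonneg (hI : Inv A B D1 D2 W γ a l p q S) (u u' : Fin n) (o : Option (Fin n)) :
    0 ≤ yc A B S.w u u' o := by
  classical
  unfold yc
  cases o with
  | none => simp
  | some z =>
    simp only
    have h1 := hI.w0 u z
    split_ifs
    · have h2 : 0 ≤ ∑ z' ∈ B.N z, S.w u z' := Finset.sum_nonneg fun z' _ => hI.w0 u z'
      linarith
    · linarith

theorem yc_le (hN : Num n ε D1 D2 δ K0 W γ a ρ) (hdg : Deg A B D1 D2)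
    (hI : Inv A B D1 D2 W γ a l p q S) (u u' : Fin n) (o : Option (Fin n)) :
    yc A B S.w u u' o ≤ 2 * W / D1 := by
  classical
  have hn : (1 : ℝ) ≤ n := by exact_mod_cast hN.n1
  have hD1 := hN.hD1
  have hD2 := hN.hD2
  have hW := hN.W1
  have hDD : D1 * D2 ≤ n := by
    have := hN.hDD
    have := hN.ε0
    nlinarith
  have hWn : 0 ≤ W / n := by positivity
  have key : W / n + D2 * (W / n) ≤ 2 * W / D1 := by
    rw [← one_add_mul, mul_div_assoc', div_le_div_iff₀ (by linarith) (by linarith)]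
    have h1 : (1 + D2) * D1 ≤ 2 * n := by nlinarith
    nlinarith
  have hpos : 0 ≤ 2 * W / D1 := by positivity
  unfold yc
  cases o with
  | none => simpa using hpos
  | some z =>
    simp only
    have h1 := hI.wW u z
    split_ifs
    · have h2 : ∑ z' ∈ B.N z, S.w u z' ≤ D2 * (W / n) := by
        calc ∑ z' ∈ B.N z, S.w u z' ≤ ∑ z' ∈ B.N z, W / n :=
              Finset.sum_le_sum fun z' _ => hI.wW u z'
          _ = #(B.N z) * (W / n) := by rw [Finset.sum_const, nsmul_eq_mul]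
          _ ≤ D2 * (W / n) := mul_le_mul_of_nonneg_right (hdg.dB z) hWn
      linarith
    · have : 0 ≤ D2 * (W / n) := by positivity
      linarith

theorem swapB (f : Fin n → Fin n → ℝ) (B : Nb n) :
    ∑ z, ∑ z' ∈ B.N z, f z z' = ∑ z', ∑ z ∈ B.N z', f z z' := by
  classical
  apply Finset.sum_comm'
  intro x y
  simp only [Finset.mem_univ, true_and, and_true]
  exact ⟨fun h => B.symm _ _ h, fun h => B.symm _ _ h⟩

theorem yc_mean (hN : Num n ε D1 D2 δ K0 W γ a ρ)
    (hI : Inv A B D1 D2 W γ a l p q S) (u : Fin n) :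
    ∑ u', ∑ z, δ * S.w u' z * yc A B S.w u u' (some z) ≤ 2 * δ * K0 := by
  classical
  have hγ := hN.γ0
  have hδ := hN.δ0
  have hκ := hN.hκ
  have hγ1 := hN.γ1
  have hK := hN.K0'
  have hρ := rho_pos hN
  have e1 : ∑ u', ∑ z, δ * S.w u' z * yc A B S.w u u' (some z) =
      δ * ∑ z, S.w u z * ((∑ u', S.w u' z) + rho A B S.w u z) := by
    have e2 : ∀ u' z, δ * S.w u' z * yc A B S.w u u' (some z) =
        δ * (S.w u' z * S.w u z) +
        (if u' ∈ A.N u then δ * ∑ z' ∈ B.N z, S.w u' z * S.w u z' else 0) := by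
      intro u' z
      unfold yc
      simp only
      split_ifs
      · rw [← Finset.mul_sum]; ring
      · ring
    simp_rw [e2, Finset.sum_add_distrib]
    have e3 : ∑ u', ∑ z, δ * (S.w u' z * S.w u z) = δ * ∑ z, S.w u z * ∑ u', S.w u' z := by
      rw [Finset.sum_comm, Finset.mul_sum]
      refine Finset.sum_congr rfl fun z _ => ?_
      rw [Finset.mul_sum, Finset.mul_sum]
      refine Finset.sum_congr rfl fun u' _ => ?_
      ring
    have e4 : ∑ u', ∑ z, (if u' ∈ A.N u then δ * ∑ z' ∈ B.N z, S.w u' z * S.w u z' else 0) =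
        δ * ∑ z, S.w u z * rho A B S.w u z := by
      have e5 : ∀ u', ∑ z, (if u' ∈ A.N u then δ * ∑ z' ∈ B.N z, S.w u' z * S.w u z' else 0) =
          if u' ∈ A.N u then δ * ∑ z', S.w u z' * ∑ z ∈ B.N z', S.w u' z else 0 := by
        intro u'
        split_ifs
        · rw [← Finset.mul_sum, swapB (fun z z' => S.w u' z * S.w u z')]
          congr 1
          refine Finset.sum_congr rfl fun z' _ => ?_
          rw [Finset.mul_sum]
          refine Finset.sum_congr rfl fun z _ => ?_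
          ring
        · simp
      simp_rw [e5]
      rw [← Finset.sum_filter, Finset.filter_mem_eq_inter, Finset.univ_inter,
        ← Finset.mul_sum, Finset.sum_comm]
      congr 1
      refine Finset.sum_congr rfl fun z _ => ?_
      unfold rho
      rw [Finset.mul_sum]
    rw [e3, e4, ← mul_add, ← Finset.sum_add_distrib]
    congr 1
    refine Finset.sum_congr rfl fun z _ => ?_
    ring
  rw [e1]
  have e6 : ∑ z, S.w u z * ((∑ u', S.w u' z) + rho A B S.w u z) ≤
      ∑ z, S.w u z * (1 + γ + ρ) := by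
    refine Finset.sum_le_sum fun z _ => ?_
    have := colsum_le hI hγ z
    have := rho_le hN hI u z
    exact mul_le_mul_of_nonneg_left (by linarith) (hI.w0 u z)
  rw [← Finset.sum_mul] at e6
  have e7 := rowsum_le hI hγ u
  have e8 : (∑ z, S.w u z) * (1 + γ + ρ) ≤ (1 + γ) * (1 + γ + ρ) :=
    mul_le_mul_of_nonneg_right e7 (by linarith)
  have e9 : (1 + γ) * (1 + γ + ρ) ≤ 2 * K0 := by nlinarith
  nlinarith

theorem X1_num (hN : Num n ε D1 D2 δ K0 W γ a ρ) (hD0 : 0 ≤ D) (hD : D ≤ D1) :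
    δ ^ 6 / (1000 * W ^ 2) * D ≤ δ * K0 * D1 / (16 * W) := by
  have hδ := hN.δ0
  have hδ1 := hN.δ1
  have hW := hN.W1
  have hK := hN.K0'
  have hD1 := hN.hD1
  have h1 : δ ^ 6 / (1000 * W ^ 2) ≤ δ / (1000 * W) := by
    rw [div_le_div_iff₀ (by positivity) (by positivity)]
    have h2 : δ ^ 5 ≤ 1 := pow_le_one₀ hδ.le (by linarith)
    have h3 : δ ^ 6 ≤ δ := by nlinarith
    have h4 : W ≤ W ^ 2 := by nlinarith
    calc δ ^ 6 * (1000 * W) ≤ δ * (1000 * W) := by nlinarith
      _ ≤ δ * (1000 * W ^ 2) := by nlinarith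
  have h5 : δ / (1000 * W) ≤ δ * K0 / (16 * W) := by
    rw [div_le_div_iff₀ (by positivity) (by positivity)]
    have : 0 < δ * W := by positivity
    nlinarith
  calc δ ^ 6 / (1000 * W ^ 2) * D ≤ (δ * K0 / (16 * W)) * D1 :=
        mul_le_mul (h1.trans h5) hD hD0 (by positivity)
    _ = δ * K0 * D1 / (16 * W) := by ring

/-- `Y_u ≤ 4 δ K0` with high probability: a sum of functions of single picks, costs
`≤ W/n + D2 W/n ≤ 2W/D1 = m`, mean (`EE_sum_pick`)
`δ ∑_z w(u,z) (C(z) + rho u z) ≤ 2 δ K0` (swap sums, `B.symm`), `L = t = 2 δ K0`: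
`t²/(16 m L) = δ K0 D1/(16 W)`. -/
theorem Yu_tail (hN : Num n ε D1 D2 δ K0 W γ a ρ) (hdg : Deg A B D1 D2)
    (hI : Inv A B D1 D2 W γ a l p q S) (hD0 : 0 ≤ D) (hD : D ≤ D1) (u : Fin n) :
    PP (mu δ S.w) (fun ω => ¬ Yu A B S.w ω u ≤ 4 * δ * K0) ≤
      2 * Real.exp (-(δ ^ 6 / (1000 * W ^ 2) * D)) := by
  classical
  have hδ := hN.δ0
  have hW := hN.W1
  have hK := hN.K0'
  have hD1 := hN.hD1
  have hp := isProb_mu hN hI
  have hmean := yc_mean hN hI u
  have hnone : ∀ u', yc A B S.w u u' none = 0 := fun u' => rfl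
  have hEE : EE (mu δ S.w) (fun ω => Yu A B S.w ω u) ≤ 2 * δ * K0 := by
    have := EE_sum_pick hN hI (fun u' => yc A B S.w u u') hnone
    calc EE (mu δ S.w) (fun ω => Yu A B S.w ω u) =
        EE (mu δ S.w) (fun ω => ∑ u', yc A B S.w u u' (ω u')) := rfl
      _ = _ := this
      _ ≤ _ := hmean
  have hL : ∑ u', ∑ o, mu δ S.w u' o * yc A B S.w u u' o ≤ 2 * δ * K0 := by
    calc ∑ u', ∑ o, mu δ S.w u' o * yc A B S.w u u' o =
        ∑ u', ∑ z, δ * S.w u' z * yc A B S.w u u' (some z) := by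
          refine Finset.sum_congr rfl fun u' _ => ?_
          exact sum_mu (yc A B S.w u u') (hnone u') u'
      _ ≤ _ := hmean
  have hL0 : 0 < 2 * δ * K0 := by positivity
  have ht := tail (μ := mu δ S.w) hp (fun u' o => yc A B S.w u u' o)
    (fun ω => Yu A B S.w ω u) (m := 2 * W / D1) (L := 2 * δ * K0) (t := 2 * δ * K0)
    (fun i o => yc_nonneg hI u i o) (fun i o => yc_le hN hdg hI u i o)
    (by positivity) hL hL0 hL0.le (by linarith) (by
      intro i ω o o'
      simp only [Yu_eq_sum_yc]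
      rw [← Finset.sum_sub_distrib, Finset.sum_eq_single i]
      · simp only [Function.update_self]
        have h1 := yc_nonneg hI u i o
        have h2 := yc_nonneg hI u i o'
        rw [abs_le]
        constructor <;> linarith
      · intro j _ hj
        simp [Function.update_of_ne hj]
      · simp)
  refine (PP_mono hp ?_).trans (ht.trans ?_)
  · intro ω hω
    push Not at hω
    rw [le_abs]
    left
    linarith
  · have e : (2 * δ * K0) ^ 2 / (16 * (2 * W / D1) * (2 * δ * K0)) = δ * K0 * D1 / (16 * W) := by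
      field_simp
      try ring
    rw [e]
    have := X1_num hN hD0 hD
    have h2 : Real.exp (-(δ * K0 * D1 / (16 * W))) ≤
        Real.exp (-(δ ^ 6 / (1000 * W ^ 2) * D)) := Real.exp_le_exp.2 (by linarith)
    linarith

/-- The weight of `{z : some u' < u picks z' with z' = z or (u' ∈ N₁(u), z' ∈ N₂(z))}` in row `u`
is at most `Y_u`. -/
theorem bad_le_Yu (hI : Inv A B D1 D2 W γ a l p q S) (ω : Fin n → Option (Fin n)) (u : Fin n)
    (T : Finset (Fin n))
    (hT : ∀ z ∈ T, ∃ u' < u, ∃ z', ω u' = some z' ∧ (z' = z ∨ (u' ∈ A.N u ∧ z' ∈ B.N z))) :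
    ∑ z ∈ T, S.w u z ≤ Yu A B S.w ω u := by
  classical
  let g : Fin n → Fin n → ℝ := fun u' z => match ω u' with
    | none => 0
    | some z' => (if z' = z then S.w u z else 0) +
        (if u' ∈ A.N u ∧ z ∈ B.N z' then S.w u z else 0)
  have hg0 : ∀ u' z, 0 ≤ g u' z := by
    intro u' z
    have := hI.w0 u z
    simp only [g]
    cases ω u' with
    | none => simp
    | some z' => simp only; split_ifs <;> linarith
  have h1 : ∀ z ∈ T, S.w u z ≤ ∑ u', g u' z := by
    intro z hz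
    obtain ⟨u', _, z', h2, h3⟩ := hT z hz
    have h4 : S.w u z ≤ g u' z := by
      have := hI.w0 u z
      simp only [g, h2]
      rcases h3 with h3 | ⟨h3, h5⟩
      · rw [if_pos h3]; split_ifs <;> linarith
      · rw [if_pos (⟨h3, B.symm _ _ h5⟩ : u' ∈ A.N u ∧ z ∈ B.N z')]
        split_ifs <;> linarith
    exact h4.trans (Finset.single_le_sum (f := fun u' => g u' z) (fun i _ => hg0 i z)
      (Finset.mem_univ u'))
  calc ∑ z ∈ T, S.w u z ≤ ∑ z ∈ T, ∑ u', g u' z := Finset.sum_le_sum h1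
    _ ≤ ∑ z, ∑ u', g u' z := Finset.sum_le_sum_of_subset_of_nonneg (Finset.subset_univ _)
        fun z _ _ => Finset.sum_nonneg fun u' _ => hg0 u' z
    _ = ∑ u', ∑ z, g u' z := Finset.sum_comm
    _ = Yu A B S.w ω u := by
        rw [Yu_eq_sum_yc]
        refine Finset.sum_congr rfl fun u' _ => ?_
        simp only [g, yc]
        cases ω u' with
        | none => simp
        | some z' =>
          simp only
          rw [Finset.sum_add_distrib]
          congr 1
          · simp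
          · by_cases hu : u' ∈ A.N u
            · simp only [hu, true_and, if_true]
              rw [← Finset.sum_filter]
              congr 1
              ext z; simp
            · simp [hu]

/-- Cancelled vertices in `X`, `|X| ≤ d`. `comp_tail` with `Bad u ω a` := `u ∈ X` and `a = some z`
with `z` as in `bad_le_Yu`: `X = cancU`, compensator `≤ δ |X| max_u Y_u ≤ 4 δ² K0 d = L` unless
some `Y_u > 4 δ K0`; `x = 20 K0 δ² d = 5 L`: `exp (2L - x) = exp(-12 K0 δ² d)`. -/
theorem cancU_tail (hN : Num n ε D1 D2 δ K0 W γ a ρ) (hdg : Deg A B D1 D2)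
    (hI : Inv A B D1 D2 W γ a l p q S) (X : Finset (Fin n)) (hd : 0 < d) (hX : (#X : ℝ) ≤ d)
    (hD0 : 0 ≤ D) (hD : D ≤ D1) (hDd : D ≤ d) :
    PP (mu δ S.w) (fun ω => ¬ (cancU A B ω X : ℝ) ≤ 20 * K0 * δ ^ 2 * d) ≤
      (2 * n + 1) * Real.exp (-(δ ^ 6 / (1000 * W ^ 2) * D)) := by
  classical
  have hδ := hN.δ0
  have hδ1 := hN.δ1
  have hW := hN.W1
  have hK := hN.K0'
  have hD1 := hN.hD1
  have hp := isProb_mu hN hI
  let R : Fin n → (Fin n → Option (Fin n)) → Fin n → Prop := fun u ω z =>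
    ∃ u' < u, ∃ z', ω u' = some z' ∧ (z' = z ∨ (u' ∈ A.N u ∧ z' ∈ B.N z))
  let Bad : Fin n → (Fin n → Option (Fin n)) → Option (Fin n) → Prop := fun u ω o =>
    u ∈ X ∧ ∃ z, o = some z ∧ R u ω z
  have hBad : ∀ u ω ω', (∀ i < u, ω i = ω' i) → ∀ o, (Bad u ω o ↔ Bad u ω' o) := by
    intro u ω ω' h o
    simp only [Bad, R]
    constructor
    · rintro ⟨h1, z, h2, u', h3, z', h4, h5⟩
      exact ⟨h1, z, h2, u', h3, z', by rw [← h u' h3]; exact h4, h5⟩
    · rintro ⟨h1, z, h2, u', h3, z', h4, h5⟩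
      exact ⟨h1, z, h2, u', h3, z', by rw [h u' h3]; exact h4, h5⟩
  have hcomp := comp_tail (μ := mu δ S.w) hp Bad hBad (20 * K0 * δ ^ 2 * d)
    (4 * K0 * δ ^ 2 * d)
  have hcanc : ∀ ω, (∑ u, if Bad u ω (ω u) then (1 : ℝ) else 0) = cancU A B ω X := by
    intro ω
    rw [Finset.sum_boole]
    unfold cancU
    congr 2
    ext u
    simp only [Finset.mem_filter, Finset.mem_univ, true_and, Bad, R, canc]
  have hcmp : ∀ ω, (∀ u, Yu A B S.w ω u ≤ 4 * δ * K0) →
      (∑ u, ∑ o, if Bad u ω o then mu δ S.w u o else 0) ≤ 4 * K0 * δ ^ 2 * d := by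
    intro ω hY
    have h1 : ∀ u, (∑ o, if Bad u ω o then mu δ S.w u o else 0) ≤
        if u ∈ X then 4 * K0 * δ ^ 2 else 0 := by
      intro u
      rw [Fintype.sum_option]
      have h2 : ¬ Bad u ω none := by simp [Bad]
      rw [if_neg h2, zero_add]
      by_cases hu : u ∈ X
      · rw [if_pos hu]
        have h3 : ∑ z, (if Bad u ω (some z) then mu δ S.w u (some z) else 0) =
            δ * ∑ z ∈ univ.filter (fun z => R u ω z), S.w u z := by
          rw [Finset.mul_sum, Finset.sum_filter]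
          refine Finset.sum_congr rfl fun z _ => ?_
          have h4 : Bad u ω (some z) ↔ R u ω z := by simp [Bad, hu]
          by_cases h5 : R u ω z
          · rw [if_pos h5, if_pos (h4.2 h5)]; rfl
          · rw [if_neg h5, if_neg (fun h => h5 (h4.1 h))]
        rw [h3]
        have h6 := bad_le_Yu hI ω u (univ.filter (fun z => R u ω z))
          (fun z hz => (Finset.mem_filter.1 hz).2)
        have h7 := hY u
        nlinarith
      · rw [if_neg hu]
        refine le_of_eq (Finset.sum_eq_zero fun z _ => ?_)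
        rw [if_neg]
        simp [Bad, hu]
    calc (∑ u, ∑ o, if Bad u ω o then mu δ S.w u o else 0) ≤
        ∑ u, if u ∈ X then 4 * K0 * δ ^ 2 else 0 := Finset.sum_le_sum fun u _ => h1 u
      _ = #X * (4 * K0 * δ ^ 2) := by
          rw [← Finset.sum_filter, Finset.sum_const, nsmul_eq_mul]
          simp
      _ ≤ d * (4 * K0 * δ ^ 2) := mul_le_mul_of_nonneg_right hX (by positivity)
      _ = 4 * K0 * δ ^ 2 * d := by ring
  have hsub : ∀ ω, ¬ (cancU A B ω X : ℝ) ≤ 20 * K0 * δ ^ 2 * d →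
      ((20 * K0 * δ ^ 2 * d ≤ (∑ u, if Bad u ω (ω u) then (1 : ℝ) else 0) ∧
        (∑ u, ∑ o, if Bad u ω o then mu δ S.w u o else 0) ≤ 4 * K0 * δ ^ 2 * d) ∨
        ∃ u ∈ (univ : Finset (Fin n)), ¬ Yu A B S.w ω u ≤ 4 * δ * K0) := by
    intro ω hω
    by_cases hY : ∀ u, Yu A B S.w ω u ≤ 4 * δ * K0
    · left
      refine ⟨?_, hcmp ω hY⟩
      rw [hcanc]
      push Not at hω
      exact hω.le
    · right
      push Not at hY ⊢
      obtain ⟨u, hu⟩ := hY
      exact ⟨u, Finset.mem_univ _, hu⟩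
  have hPor : ∀ (P Q : (Fin n → Option (Fin n)) → Prop),
      PP (mu δ S.w) (fun ω => P ω ∨ Q ω) ≤ PP (mu δ S.w) P + PP (mu δ S.w) Q := by
    intro P Q
    rw [PP_split (μ := mu δ S.w) (fun ω => P ω ∨ Q ω) P]
    exact add_le_add (PP_mono hp fun ω h => h.2) (PP_mono hp fun ω h => h.1.resolve_left h.2)
  have h1 := (PP_mono hp hsub).trans (hPor _ _)
  have h2 := PP_exists_le hp (univ : Finset (Fin n)) (fun u ω => ¬ Yu A B S.w ω u ≤ 4 * δ * K0)
  have h3 : ∑ u, PP (mu δ S.w) (fun ω => ¬ Yu A B S.w ω u ≤ 4 * δ * K0) ≤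
      n * (2 * Real.exp (-(δ ^ 6 / (1000 * W ^ 2) * D))) := by
    calc _ ≤ ∑ _u : Fin n, 2 * Real.exp (-(δ ^ 6 / (1000 * W ^ 2) * D)) :=
          Finset.sum_le_sum fun u _ => Yu_tail hN hdg hI hD0 hD u
      _ = _ := by rw [Finset.sum_const, nsmul_eq_mul]; simp
  have h4 : Real.exp (2 * (4 * K0 * δ ^ 2 * d) - 20 * K0 * δ ^ 2 * d) ≤
      Real.exp (-(δ ^ 6 / (1000 * W ^ 2) * D)) := by
    apply Real.exp_le_exp.2
    have h5 : δ ^ 6 / (1000 * W ^ 2) ≤ δ ^ 2 := by
      rw [div_le_iff₀ (by positivity)]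
      have h6 : δ ^ 4 ≤ 1 := pow_le_one₀ hδ.le (by linarith)
      have h7 : δ ^ 6 ≤ δ ^ 2 := by nlinarith [sq_nonneg δ]
      have h8 : (1 : ℝ) ≤ 1000 * W ^ 2 := by nlinarith
      nlinarith [sq_nonneg δ]
    have h9 : δ ^ 6 / (1000 * W ^ 2) * D ≤ δ ^ 2 * d := mul_le_mul h5 hDd hD0 (sq_nonneg δ)
    have h10 : 0 < δ ^ 2 * d := by positivity
    nlinarith
  calc _ ≤ _ := h1
    _ ≤ Real.exp (2 * (4 * K0 * δ ^ 2 * d) - 20 * K0 * δ ^ 2 * d) +
        n * (2 * Real.exp (-(δ ^ 6 / (1000 * W ^ 2) * D))) := by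
          refine add_le_add ((PP_mono hp ?_).trans hcomp) (h2.trans h3)
          intro ω h
          convert h
    _ ≤ _ := by nlinarith

end Pool.Agent.Helper5.BEC
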