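import Pool.Agent.Helper5.BEC.St.R1
import Pool.Agent.Helper5.BEC.St.C1
import Pool.Agent.Helper5.BEC.St.N1
import Pool.Agent.Helper5.BEC.St.N2
import Pool.Agent.Helper5.BEC.St.X1
import Pool.Agent.Helper5.BEC.St.X2
import Pool.Agent.Helper5.BEC.St.Q1
import Pool.Agent.Helper5.BEC.St.Q2
/-! Piece U1: union bound. -/
set_option autoImplicit false
namespace Pool.Agent.Helper5.BEC
open Finset Pool.Agent.Helper61.LE

section comb

variable {ι Ω : Type*} [Fintype ι] [DecidableEq ι] [Fintype Ω] [DecidableEq Ω] {μ : ι → Ω → ℝ}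

private theorem PP_not_and (h : IsProb μ) {P Q : (ι → Ω) → Prop} {x y : ℝ}
    (hP : PP μ (fun ω => ¬ P ω) ≤ x) (hQ : PP μ (fun ω => ¬ Q ω) ≤ y) :
    PP μ (fun ω => ¬ (P ω ∧ Q ω)) ≤ x + y := by
  have h1 : PP μ (fun ω => ¬ (P ω ∧ Q ω)) =
      PP μ (fun ω => ¬ (P ω ∧ Q ω) ∧ ¬ P ω) + PP μ (fun ω => ¬ (P ω ∧ Q ω) ∧ ¬ ¬ P ω) :=
    PP_split _ _
  have h2 : PP μ (fun ω => ¬ (P ω ∧ Q ω) ∧ ¬ P ω) ≤ PP μ (fun ω => ¬ P ω) :=
    PP_mono h fun ω hω => hω.2
  have h3 : PP μ (fun ω => ¬ (P ω ∧ Q ω) ∧ ¬ ¬ P ω) ≤ PP μ (fun ω => ¬ Q ω) :=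
    PP_mono h fun ω hω hq => hω.1 ⟨not_not.1 hω.2, hq⟩
  linarith

private theorem PP_not_forall (h : IsProb μ) {m : ℕ} {P : Fin m → (ι → Ω) → Prop} {x : ℝ}
    (hP : ∀ v, PP μ (fun ω => ¬ P v ω) ≤ x) :
    PP μ (fun ω => ¬ ∀ v, P v ω) ≤ m * x := by
  have h1 : PP μ (fun ω => ¬ ∀ v, P v ω) ≤ PP μ (fun ω => ∃ v ∈ (univ : Finset (Fin m)),
      (fun v ω => ¬ P v ω) v ω) := by
    refine PP_mono h fun ω hω => ?_
    obtain ⟨v, hv⟩ := not_forall.1 hω
    exact ⟨v, mem_univ v, hv⟩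
  have h2 := PP_exists_le h (univ : Finset (Fin m)) (fun v ω => ¬ P v ω)
  have h3 : ∑ v ∈ (univ : Finset (Fin m)), PP μ ((fun v ω => ¬ P v ω) v) ≤
      ∑ v ∈ (univ : Finset (Fin m)), x := Finset.sum_le_sum fun v _ => hP v
  have h4 : ∑ v ∈ (univ : Finset (Fin m)), x = m * x := by
    rw [Finset.sum_const, Finset.card_univ, Fintype.card_fin, nsmul_eq_mul]
  linarith

private theorem PP_not_imp (h : IsProb μ) {c : Prop} {P : (ι → Ω) → Prop} {x : ℝ} (hx : 0 ≤ x)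
    (hP : c → PP μ (fun ω => ¬ P ω) ≤ x) :
    PP μ (fun ω => ¬ (c → P ω)) ≤ x := by
  by_cases hc : c
  · refine le_trans (PP_mono h fun ω hω => ?_) (hP hc)
    exact fun hp => hω fun _ => hp
  · have h1 : PP μ (fun ω => ¬ (c → P ω)) = 0 := by
      classical
      unfold PP EE
      refine Finset.sum_eq_zero fun ω _ => ?_
      have h2 : ¬ ¬ (c → P ω) := fun hω => hω fun hc' => (hc hc').elim
      simp only [if_neg h2, mul_zero]
    rw [h1]
    exact hx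

private theorem exists_of_not_lt (h : IsProb μ) {P : (ι → Ω) → Prop}
    (hP : PP μ (fun ω => ¬ P ω) < 1) : ∃ ω, (∀ i, μ i (ω i) ≠ 0) ∧ P ω := by
  have h1 : PP μ (fun _ => True) =
      PP μ (fun ω => True ∧ P ω) + PP μ (fun ω => True ∧ ¬ P ω) := PP_split _ _
  have h2 : PP μ (fun ω => True ∧ ¬ P ω) ≤ PP μ (fun ω => ¬ P ω) :=
    PP_mono h fun ω hω => hω.2
  rw [PP_true h] at h1
  have h3 : 0 < PP μ (fun ω => True ∧ P ω) := by linarith
  obtain ⟨ω, hω, hω'⟩ := exists_of_PP_pos h3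
  exact ⟨ω, hω, hω'.2⟩

end comb

variable {n : ℕ} {A B : Nb n} {ε D1 D2 D δ K0 W γ a ρ l p q : ℝ} {S : St n}

/-- A good outcome exists. The events of `Good` fail with total probability at most
`(n·2 [row] + n·2 [col] + n·2 + 2 + n·2 + 2 [pU, pUn, pU', pUn'] + n·2 + n·2 [pF, pF']
+ (n+1)(2n+1) [cU, cUn] + 3n [cF] + 2n² [kl] + 2n² [nw]) e ≤ 40 n² e < 1`,
`e = exp(-(δ⁶/(1000 W²)) D)`; use `exists_of_PP_pos` for the conjunction of all events
(`PP_exists_le` / `PP_split` for the complement). `supp` comes from `mu i (ω i) ≠ 0`.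
For `pU` use `pickers_lower` with `X = N₁(v) ∩ U`, for `pU'` `pickers_upper` with `X = N₁(v)`,
for `pUn`, `pUn'`, `cUn` take `d = n` (`D ≤ D1 ≤ n` since `D1 D2 ≤ n`, `D2 ≥ 1`). -/
theorem good_exists (hN : Num n ε D1 D2 δ K0 W γ a ρ) (hdg : Deg A B D1 D2)
    (hI : Inv A B D1 D2 W γ a l p q S) (hD0 : 0 ≤ D) (hDa : D ≤ D1) (hDb : D ≤ D2)
    (hbig : 40 * (n : ℝ) ^ 2 * Real.exp (-(δ ^ 6 / (1000 * W ^ 2) * D)) < 1)
    (ph : Prop) (hph : ph → p ≤ 1 / 8) :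
    ∃ ω, Good A B D1 D2 δ K0 γ ρ ph S ω := by
  have hprob := isProb_mu hN hI
  have hn : (1 : ℝ) ≤ n := by exact_mod_cast hN.n1
  have hn0 : (0 : ℝ) < n := by linarith
  have hD10 : 0 < D1 := lt_of_lt_of_le one_pos hN.hD1
  have hD20 : 0 < D2 := lt_of_lt_of_le one_pos hN.hD2
  have hD1n : D1 ≤ n := by
    have h1 := hN.hDD
    have h2 := mul_nonneg hN.ε0.le hn0.le
    have h3 : D1 * 1 ≤ D1 * D2 := mul_le_mul_of_nonneg_left hN.hD2 hD10.le
    nlinarith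
  have hDn : D ≤ n := le_trans hDa hD1n
  obtain ⟨e, he⟩ : ∃ e : ℝ, e = Real.exp (-(δ ^ 6 / (1000 * W ^ 2) * D)) := ⟨_, rfl⟩
  have he0 : 0 < e := by
    rw [he]
    exact Real.exp_pos _
  rw [← he] at hbig
  have hAU : ∀ v, (#(A.N v ∩ S.U) : ℝ) ≤ D1 := fun v => by
    have h1 : (#(A.N v ∩ S.U) : ℝ) ≤ #(A.N v) := by
      exact_mod_cast Finset.card_le_card Finset.inter_subset_left
    exact le_trans h1 (hdg.dA v)
  have hBF : ∀ y, (#(B.N y ∩ S.F) : ℝ) ≤ D2 := fun y => by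
    have h1 : (#(B.N y ∩ S.F) : ℝ) ≤ #(B.N y) := by
      exact_mod_cast Finset.card_le_card Finset.inter_subset_left
    exact le_trans h1 (hdg.dB y)
  have hcard : ∀ X : Finset (Fin n), (#X : ℝ) ≤ n := fun X => by
    have h1 : #X ≤ n := by
      have h2 := Finset.card_le_univ X
      rwa [Fintype.card_fin] at h2
    exact_mod_cast h1
  -- the single events
  have e1 := PP_not_forall hprob (P := fun v ω => v ∈ S.U →
      |rowv A B δ S.w ω v - ∑ z, S.w v z| ≤ 2 * δ ^ 2 * K0 ^ 2 + δ ^ 3) (x := 2 * e)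
    (fun v => PP_not_imp hprob (by positivity) fun _ => by
      rw [he]
      exact row_tail hN hdg hI hD0 hDa v)
  have e2 := PP_not_forall hprob (P := fun y ω => y ∈ S.F →
      |colv A B δ S.w ω y - ∑ u, S.w u y| ≤ 3 * δ * γ + 10 * K0 ^ 2 * δ ^ 2 + δ ^ 3)
    (x := 2 * e)
    (fun y => PP_not_imp hprob (by positivity) fun hy => by
      rw [he]
      exact col_tail hN hdg hI hD0 hDb y hy)
  have e3 := PP_not_forall hprob (P := fun v ω =>
      δ * (1 - γ) * #(A.N v ∩ S.U) - δ ^ 3 * D1 ≤ pickers ω (A.N v ∩ S.U)) (x := 2 * e)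
    (fun v => by
      rw [he]
      exact pickers_lower hN hI (A.N v ∩ S.U) hD10 (hAU v) Finset.inter_subset_right hD0 hDa)
  have e4 : PP (mu δ S.w) (fun ω =>
      ¬ (fun ω => δ * (1 - γ) * #S.U - δ ^ 3 * n ≤ pickers ω S.U) ω) ≤ 2 * e := by
    rw [he]
    exact pickers_lower hN hI S.U hn0 (hcard _) (Finset.Subset.refl _) hD0 hDn
  have e5 := PP_not_forall hprob (P := fun v ω =>
      (pickers ω (A.N v) : ℝ) ≤ 2 * δ * D1) (x := 2 * e)
    (fun v => by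
      rw [he]
      exact pickers_upper hN hI (A.N v) hD10 (hdg.dA v) (hI.aU v) hD0 hDa)
  have e6 : PP (mu δ S.w) (fun ω =>
      ¬ (fun ω => (pickers ω univ : ℝ) ≤ 2 * δ * n) ω) ≤ 2 * e := by
    rw [he]
    refine pickers_upper hN hI univ hn0 (hcard _) ?_ hD0 hDn
    rw [Finset.univ_inter]
    exact hI.aN
  have e7 := PP_not_forall hprob (P := fun y ω =>
      (δ * (1 - γ) - δ ^ 2) * #(B.N y ∩ S.F) - δ ^ 3 * D2 ≤ picked ω (B.N y ∩ S.F))
    (x := 2 * e)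
    (fun y => by
      rw [he]
      exact picked_lower hN hI (B.N y ∩ S.F) hD20 (hBF y) Finset.inter_subset_right hD0 hDb)
  have e8 := PP_not_forall hprob (P := fun y ω =>
      (pickin ω (B.N y) : ℝ) ≤ 2 * δ * D2) (x := 2 * e)
    (fun y => by
      rw [he]
      exact pickin_upper hN hI (B.N y) hD20 (hdg.dB y) (hI.aF y) hD0 hDb)
  have e9 := PP_not_forall hprob (P := fun v ω =>
      (cancU A B ω (A.N v) : ℝ) ≤ 20 * K0 * δ ^ 2 * D1) (x := (2 * n + 1) * e)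
    (fun v => by
      rw [he]
      exact cancU_tail hN hdg hI (A.N v) hD10 (hdg.dA v) hD0 hDa hDa)
  have e10 : PP (mu δ S.w) (fun ω =>
      ¬ (fun ω => (cancU A B ω univ : ℝ) ≤ 20 * K0 * δ ^ 2 * n) ω) ≤ (2 * n + 1) * e := by
    rw [he]
    exact cancU_tail hN hdg hI univ hn0 (hcard _) hD0 hDa hDn
  have e11 := PP_not_forall hprob (P := fun y ω =>
      (cancF A B ω (B.N y) : ℝ) ≤ 20 * K0 * δ ^ 2 * D2) (x := 3 * e)
    (fun y => by
      rw [he]
      exact cancF_tail hN hdg hI hD0 hDb y)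
  have e12 := PP_not_forall hprob (P := fun v ω => ∀ y,
      kills A B S ω v y ≤ 2 * δ * ρ * #(cand S v y) + δ ^ 3 * n) (x := n * (2 * e))
    (fun v => PP_not_forall hprob (P := fun y ω =>
      kills A B S ω v y ≤ 2 * δ * ρ * #(cand S v y) + δ ^ 3 * n) (x := 2 * e) fun y => by
      rw [he]
      exact kills_tail hN hdg hI hD0 hDa hDb v y)
  have e13 := PP_not_imp hprob (c := ph) (P := fun ω => ∀ v y,
      (6 / 10) * δ * n - δ ^ 3 * n ≤ news S ω v y) (x := n * (n * (2 * e))) (by positivity)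
    (fun hp => PP_not_forall hprob (P := fun v ω => ∀ y,
        (6 / 10) * δ * n - δ ^ 3 * n ≤ news S ω v y) (x := n * (2 * e))
      (fun v => PP_not_forall hprob (P := fun y ω =>
        (6 / 10) * δ * n - δ ^ 3 * n ≤ news S ω v y) (x := 2 * e) fun y => by
        rw [he]
        exact news_tail hN hI (hph hp) hD0 hDn v y))
  have key := PP_not_and hprob e1 (PP_not_and hprob e2 (PP_not_and hprob e3
    (PP_not_and hprob e4 (PP_not_and hprob e5 (PP_not_and hprob e6 (PP_not_and hprob e7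
    (PP_not_and hprob e8 (PP_not_and hprob e9 (PP_not_and hprob e10 (PP_not_and hprob e11
    (PP_not_and hprob e12 e13)))))))))))
  have hlt := exists_of_not_lt hprob (lt_of_le_of_lt key (by
    have h1 : (n : ℝ) * e ≤ (n : ℝ) ^ 2 * e := by
      rw [pow_two, mul_assoc]
      have h2 : 0 ≤ (n : ℝ) * e := by positivity
      nlinarith
    have h2 : e ≤ (n : ℝ) * e := by nlinarith
    nlinarith))
  obtain ⟨ω, hω, g1, g2, g3, g4, g5, g6, g7, g8, g9, g10, g11, g12, g13⟩ := hlt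
  refine ⟨ω, ?_, g1, g2, g3, g4, g5, g6, g7, g8, g9, g10, g11, g12, g13⟩
  intro u z huz
  have h1 := hω u
  rw [huz] at h1
  have h2 : δ * S.w u z ≠ 0 := h1
  have h3 : S.w u z ≠ 0 := fun h => h2 (by rw [h, mul_zero])
  exact lt_of_le_of_ne (hI.w0 u z) (Ne.symm h3)

end Pool.Agent.Helper5.BEC
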