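import Pool.Agent.Helper5.BEC.St.D2
import Pool.Agent.Helper5.BEC.St.D3
import Pool.Agent.Helper5.BEC.St.U1
import Pool.Agent.Helper5.BEC.St.Sq
/-! Piece D4: one round; the initial state; the iteration. -/
set_option autoImplicit false
namespace Pool.Agent.Helper5.BEC
open Finset

variable {n : ℕ} {A B : Nb n} {ε D1 D2 D δ K0 W γ a ρ l p q : ℝ} {S : St n}

/-- one round -/
theorem round (hN : Num n ε D1 D2 δ K0 W γ a ρ) (hdg : Deg A B D1 D2)
    (hI : Inv A B D1 D2 W γ a l p q S) (hD0 : 0 ≤ D) (hDa : D ≤ D1) (hDb : D ≤ D2)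
    (hbig : 40 * (n : ℝ) ^ 2 * Real.exp (-(δ ^ 6 / (1000 * W ^ 2) * D)) < 1)
    (ph : Prop) (hph : ph → p ≤ 1 / 8) {W' γ' a' l' p' q' : ℝ}
    (hW' : W * (1 + δ * (1 + γ + ρ)) ≤ W')
    (hγ' : γ + 3 * δ * γ + 10 * K0 ^ 2 * δ ^ 2 + δ ^ 3 ≤ γ')
    (ha' : (1 - δ * (1 - γ) + δ ^ 2) * a + δ ^ 3 ≤ a')
    (hl' : l + 20 * K0 * δ ^ 2 ≤ l') (hp' : p + 2 * δ ≤ p')
    (h1 : ph → q' ≤ (1 - 2 * δ * ρ) * q - δ ^ 3 +
      ((6 / 10) * δ - δ ^ 3 - 20 * K0 * δ ^ 2 - 8 * δ ^ 2))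
    (h2 : ¬ ph → q' ≤ (1 - 2 * δ * ρ) * q - δ ^ 3) :
    ∃ S', Inv A B D1 D2 W' γ' a' l' p' q' S' := by
  obtain ⟨ω, hG⟩ := good_exists hN hdg hI hD0 hDa hDb hbig ph hph
  obtain ⟨s1, s2, s3, s4, s5⟩ := next_struct hI hG.supp
  obtain ⟨w1, w2, w3, w4, w5⟩ := next_w hN hI hG.supp
  obtain ⟨r1, r2⟩ := next_rowcol hN hI hG hγ'
  obtain ⟨a1, a2, a3⟩ := next_a hN hI hG ha'
  obtain ⟨l1, l2, l3⟩ := next_l hN hI hG hl'
  obtain ⟨p1, p2, p3⟩ := next_p hN hdg hI hG hp'
  have q1 := next_q hN hdg hI hG h1 h2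
  exact ⟨next A B δ S ω,
    { disj := s1
      inj := s2
      notF := s3
      killed := s4
      valid := s5
      w0 := w1
      wU := w2
      wF := w3
      wK := w4
      wW := fun u z => (w5 u z).trans (div_le_div_of_nonneg_right hW' (Nat.cast_nonneg n))
      row := r1
      col := r2
      aU := a1
      aF := a2
      aN := a3
      lU := l1
      lF := l2
      lN := l3
      pz := p1
      pu := p2
      pN := p3
      cnd := q1 }⟩

/-- the initial state -/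
theorem init (hn : 1 ≤ n) (hdg : Deg A B D1 D2) :
    ∃ S, Inv A B D1 D2 1 0 1 0 0 0 S := by
  classical
  have hn0 : (n : ℝ) ≠ 0 := by
    have : (1 : ℝ) ≤ n := by exact_mod_cast hn
    linarith
  have hsum : ∑ _z : Fin n, (1 : ℝ) / n = 1 := by
    rw [sum_const, card_univ, Fintype.card_fin, nsmul_eq_mul]
    field_simp
  refine ⟨⟨univ, univ, ∅, id, ∅, fun _ _ => 1 / n⟩, ?_⟩
  constructor
  · simp
  · simp
  · simp
  · simp
  · simp
  · intro u z
    show (0 : ℝ) ≤ 1 / n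
    positivity
  · intro u z h
    exact absurd (mem_univ u) h
  · intro u z h
    exact absurd (mem_univ z) h
  · intro u z h
    exact absurd h (notMem_empty _)
  · intro u z
    exact le_refl _
  · intro u _
    show |∑ _z : Fin n, (1 : ℝ) / n - 1| ≤ 0
    rw [hsum]; simp
  · intro u _
    show |∑ _z : Fin n, (1 : ℝ) / n - 1| ≤ 0
    rw [hsum]; simp
  · intro v
    show (#(A.N v ∩ univ) : ℝ) ≤ 1 * D1
    rw [inter_univ, one_mul]
    exact hdg.dA v
  · intro v
    show (#(B.N v ∩ univ) : ℝ) ≤ 1 * D2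
    rw [inter_univ, one_mul]
    exact hdg.dB v
  · show (#(univ : Finset (Fin n)) : ℝ) ≤ 1 * n
    rw [card_univ, Fintype.card_fin, one_mul]
  · intro v
    show (#(A.N v \ (univ ∪ ∅)) : ℝ) ≤ 0 * D1
    rw [union_empty, sdiff_eq_empty_iff_subset.mpr (subset_univ _)]; simp
  · intro y
    show (#(B.N y \ (univ ∪ (∅ : Finset (Fin n)).image id)) : ℝ) ≤ 0 * D2
    rw [image_empty, union_empty, sdiff_eq_empty_iff_subset.mpr (subset_univ _)]; simp
  · show (#((univ : Finset (Fin n)) \ (univ ∪ ∅)) : ℝ) ≤ 0 * n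
    rw [union_empty, sdiff_eq_empty_iff_subset.mpr (subset_univ _)]; simp
  · intro v
    simp
  · intro v
    simp
  · show (1 - 0 : ℝ) * n ≤ #(univ : Finset (Fin n))
    rw [card_univ, Fintype.card_fin, sub_zero, one_mul]
  · intro v y
    rw [zero_mul]
    exact Nat.cast_nonneg _

/-- monotonicity of the invariants in the parameters -/
theorem Inv.mono {W' γ' a' l' p' q' : ℝ} (hD1 : 0 ≤ D1) (hD2 : 0 ≤ D2)
    (hI : Inv A B D1 D2 W γ a l p q S)
    (hW : W ≤ W') (hγ : γ ≤ γ') (ha : a ≤ a') (hl : l ≤ l') (hp : p ≤ p') (hq : q' ≤ q) :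
    Inv A B D1 D2 W' γ' a' l' p' q' S := by
  have hn : (0 : ℝ) ≤ n := Nat.cast_nonneg n
  exact
    { disj := hI.disj
      inj := hI.inj
      notF := hI.notF
      killed := hI.killed
      valid := hI.valid
      w0 := hI.w0
      wU := hI.wU
      wF := hI.wF
      wK := hI.wK
      wW := fun u z => (hI.wW u z).trans (div_le_div_of_nonneg_right hW hn)
      row := fun u hu => (hI.row u hu).trans hγ
      col := fun u hu => (hI.col u hu).trans hγ
      aU := fun v => (hI.aU v).trans (mul_le_mul_of_nonneg_right ha hD1)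
      aF := fun v => (hI.aF v).trans (mul_le_mul_of_nonneg_right ha hD2)
      aN := hI.aN.trans (mul_le_mul_of_nonneg_right ha hn)
      lU := fun v => (hI.lU v).trans (mul_le_mul_of_nonneg_right hl hD1)
      lF := fun v => (hI.lF v).trans (mul_le_mul_of_nonneg_right hl hD2)
      lN := hI.lN.trans (mul_le_mul_of_nonneg_right hl hn)
      pz := fun v => (hI.pz v).trans (mul_le_mul_of_nonneg_right hp hn)
      pu := fun v => (hI.pu v).trans (mul_le_mul_of_nonneg_right hp hn)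
      pN := (mul_le_mul_of_nonneg_right (by linarith) hn).trans hI.pN
      cnd := fun v y => (mul_le_mul_of_nonneg_right hq hn).trans (hI.cnd v y) }

theorem iterate {Wm : ℝ} {k1 K : ℕ} {W γ a l p q : ℕ → ℝ} (hS : Seqs ε δ K0 Wm k1 K W γ a l p q)
    (hn : 1 ≤ n) (hdg : Deg A B D1 D2) (hD1 : 1 ≤ D1) (hD2 : 1 ≤ D2)
    (hDD : D1 * D2 ≤ (1 - ε) * n) (hWn : Wm / n ≤ δ) (hD0 : 0 ≤ D) (hDa : D ≤ D1)
    (hDb : D ≤ D2)
    (hbig : 40 * (n : ℝ) ^ 2 * Real.exp (-(δ ^ 6 / (1000 * Wm ^ 2) * D)) < 1) :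
    ∃ S, Inv A B D1 D2 (W K) (γ K) (a K) (l K) (p K) (q K) S := by
  have hn0 : (0 : ℝ) ≤ n := Nat.cast_nonneg n
  have main : ∀ k ≤ K, ∃ S, Inv A B D1 D2 (W k) (γ k) (a k) (l k) (p k) (q k) S := by
    intro k
    induction k with
    | zero =>
      intro _
      obtain ⟨S, hI⟩ := init hn hdg
      exact ⟨S, hI.mono (by linarith) (by linarith) hS.W0 hS.γ0 hS.a0 hS.l0 hS.p0 hS.q0⟩
    | succ k ih =>
      intro hk
      have hkK : k < K := hk
      obtain ⟨S, hI⟩ := ih hkK.le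
      have hW1 := hS.W1 k hkK
      have hWm := hS.Wm' k hkK
      have hN : Num n ε D1 D2 δ K0 (W k) (γ k) (a k) ((1 - ε) * a k ^ 2 * W k) :=
        { n1 := hn
          ε0 := hS.ε0
          ε1 := hS.ε1
          hD1 := hD1
          hD2 := hD2
          hDD := hDD
          δ0 := hS.δ0
          δ1 := hS.δ1
          K0' := hS.K0'
          δK := hS.δK
          W1 := hW1
          Wn := (div_le_div_of_nonneg_right hWm hn0).trans hWn
          γ0 := (hS.γ1 k hkK).1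
          γ1 := (hS.γ1 k hkK).2
          a0 := (hS.a1 k hkK).1
          a1 := (hS.a1 k hkK).2
          hρ := rfl
          hκ := hS.hκ k hkK }
      have hδ6 : 0 < δ ^ 6 := pow_pos hS.δ0 6
      have hexp : Real.exp (-(δ ^ 6 / (1000 * W k ^ 2) * D)) ≤
          Real.exp (-(δ ^ 6 / (1000 * Wm ^ 2) * D)) := by
        apply Real.exp_le_exp.mpr
        apply neg_le_neg
        apply mul_le_mul_of_nonneg_right _ hD0
        apply div_le_div_of_nonneg_left hδ6.le (by positivity)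
        have : W k ^ 2 ≤ Wm ^ 2 := pow_le_pow_left₀ (by linarith) hWm 2
        linarith
      have hbig' : 40 * (n : ℝ) ^ 2 * Real.exp (-(δ ^ 6 / (1000 * W k ^ 2) * D)) < 1 :=
        lt_of_le_of_lt (mul_le_mul_of_nonneg_left hexp (by positivity)) hbig
      exact round hN hdg hI hD0 hDa hDb hbig' (k < k1) (hS.p1 k hkK) (hS.sW k hkK)
        (hS.sγ k hkK) (hS.sa k hkK) (hS.sl k hkK) (hS.sp k hkK) (hS.sq1 k hkK)
        (fun h => hS.sq2 k hkK (not_lt.mp h))
  exact main K le_rfl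

end Pool.Agent.Helper5.BEC
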