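import Pool.Agent.Helper5.BEC.Defs
/-! Piece L1: completion. -/
set_option autoImplicit false
namespace Pool.Agent.Helper5.BEC
open Finset Pool.Agent.Helper61.LE

variable {n : ℕ} {A B : Nb n} {D1 D2 η c : ℝ}

/-- Deterministic part: if the swap vertices `s v` (`v ∈ I`) have no conflict, the final map is a
packing. `I` = unplaced vertices, `g v` = position assigned to `v ∈ I` (a bijection from `I` onto
the unused positions), `s v ∈ P` the swap vertex. Final map: `v ↦ σ (s v)` for `v ∈ I`,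
`s v ↦ g v`, `u ↦ σ u` for the other `u ∈ P`. -/
theorem swap_packing (P I : Finset (Fin n)) (σ : Fin n → Fin n) (K : Finset (Fin n × Fin n))
    (hPI : Disjoint P I) (hcov : P ∪ I = univ) (hinj : Set.InjOn σ (P : Set (Fin n)))
    (hkill : ∀ u ∈ P, ∀ v ∈ A.N u, ∀ z ∈ B.N (σ u), (v, z) ∈ K)
    (hval : ∀ u ∈ P, ∀ v ∈ P, v ∈ A.N u → σ v ∉ B.N (σ u))
    (g s : Fin n → Fin n) (hg : Set.InjOn g (I : Set (Fin n)))
    (hgσ : ∀ v ∈ I, ∀ u ∈ P, g v ≠ σ u)
    (hsP : ∀ v ∈ I, s v ∈ P) (hs1 : ∀ v ∈ I, (v, σ (s v)) ∉ K) (hs2 : ∀ v ∈ I, (s v, g v) ∉ K)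
    (hs3 : ∀ v ∈ I, s v ∉ A.N v)
    (T0 : ∀ v ∈ I, ∀ v' ∈ I, v ≠ v' → s v ≠ s v')
    (T1 : ∀ v ∈ I, ∀ v' ∈ I, v' ∈ A.N v → σ (s v') ∉ B.N (σ (s v)))
    (T2 : ∀ v ∈ I, ∀ v' ∈ I, v ≠ v' → s v' ∈ A.N v → σ (s v) ∉ B.N (g v'))
    (T4 : ∀ v ∈ I, ∀ v' ∈ I, v ≠ v' → g v' ∈ B.N (g v) → s v' ∉ A.N (s v)) :
    ∃ τ : Equiv.Perm (Fin n), ∀ u v, u ∈ A.N v → τ u ∉ B.N (τ v) := by
  classical
  have hPnI : ∀ x ∈ P, x ∉ I := fun x hx hxI => (Finset.disjoint_left.mp hPI) hx hxI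
  -- every vertex has one of three types
  have htype : ∀ x, x ∈ I ∨ (∃ v ∈ I, s v = x) ∨ (x ∈ P ∧ ∀ v ∈ I, s v ≠ x) := by
    intro x
    by_cases hxI : x ∈ I
    · exact Or.inl hxI
    · by_cases hxs : ∃ v ∈ I, s v = x
      · exact Or.inr (Or.inl hxs)
      · refine Or.inr (Or.inr ⟨?_, ?_⟩)
        · have hx : x ∈ P ∪ I := by rw [hcov]; exact Finset.mem_univ x
          rcases Finset.mem_union.mp hx with h | h
          · exact h
          · exact absurd h hxI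
        · intro v hv hvx
          exact hxs ⟨v, hv, hvx⟩
  -- the final map
  let f : Fin n → Fin n := fun x =>
    if x ∈ I then σ (s x) else if h : ∃ v ∈ I, s v = x then g h.choose else σ x
  have f0 : ∀ x ∈ I, f x = σ (s x) := by
    intro x hx
    simp only [f]
    rw [if_pos hx]
  have f1 : ∀ v ∈ I, f (s v) = g v := by
    intro v hv
    have h : ∃ v' ∈ I, s v' = s v := ⟨v, hv, rfl⟩
    simp only [f]
    rw [if_neg (hPnI _ (hsP v hv)), dif_pos h]
    have hc := h.choose_spec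
    by_contra hne
    have : h.choose ≠ v := fun e => hne (by rw [e])
    exact T0 _ hc.1 v hv this hc.2
  have f2 : ∀ x ∈ P, (∀ v ∈ I, s v ≠ x) → f x = σ x := by
    intro x hx hxs
    have h : ¬ ∃ v ∈ I, s v = x := by
      rintro ⟨v, hv, hvx⟩
      exact hxs v hv hvx
    simp only [f]
    rw [if_neg (hPnI _ hx), dif_neg h]
  have finj : Function.Injective f := by
    intro x y hxy
    rcases htype x with hx | ⟨u, hu, rfl⟩ | ⟨hx, hxs⟩ <;>
      rcases htype y with hy | ⟨v, hv, rfl⟩ | ⟨hy, hys⟩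
    · rw [f0 x hx, f0 y hy] at hxy
      by_contra hne
      exact T0 x hx y hy hne (hinj (hsP x hx) (hsP y hy) hxy)
    · rw [f0 x hx, f1 v hv] at hxy
      exact absurd hxy.symm (hgσ v hv _ (hsP x hx))
    · rw [f0 x hx, f2 y hy hys] at hxy
      exact absurd (hinj (hsP x hx) hy hxy) (hys x hx)
    · rw [f1 u hu, f0 y hy] at hxy
      exact absurd hxy (hgσ u hu _ (hsP y hy))
    · rw [f1 u hu, f1 v hv] at hxy
      rw [hg hu hv hxy]
    · rw [f1 u hu, f2 y hy hys] at hxy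
      exact absurd hxy (hgσ u hu _ hy)
    · rw [f2 x hx hxs, f0 y hy] at hxy
      exact absurd (hinj hx (hsP y hy) hxy).symm (hxs y hy)
    · rw [f2 x hx hxs, f1 v hv] at hxy
      exact absurd hxy.symm (hgσ v hv _ hx)
    · rw [f2 x hx hxs, f2 y hy hys] at hxy
      exact hinj hx hy hxy
  refine ⟨Equiv.ofBijective f (Finite.injective_iff_bijective.mp finj), ?_⟩
  intro x y hxy
  show f x ∉ B.N (f y)
  have hyx : y ∈ A.N x := A.symm _ _ hxy
  rcases htype x with hx | ⟨u, hu, rfl⟩ | ⟨hx, hxs⟩ <;>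
    rcases htype y with hy | ⟨v, hv, rfl⟩ | ⟨hy, hys⟩
  · rw [f0 x hx, f0 y hy]
    exact T1 y hy x hx hxy
  · rw [f0 x hx, f1 v hv]
    by_cases hxv : x = v
    · subst hxv
      exact absurd hyx (hs3 x hx)
    · exact T2 x hx v hv hxv hyx
  · rw [f0 x hx, f2 y hy hys]
    intro hB
    exact hs1 x hx (hkill y hy x hxy _ hB)
  · rw [f1 u hu, f0 y hy]
    intro hB
    by_cases hyu : y = u
    · subst hyu
      exact hs3 y hy hxy
    · exact T2 y hy u hu hyu hxy (B.symm _ _ hB)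
  · rw [f1 u hu, f1 v hv]
    intro hB
    by_cases huv : v = u
    · subst huv
      exact A.irr _ hxy
    · exact T4 v hv u hu huv hB hxy
  · rw [f1 u hu, f2 y hy hys]
    intro hB
    exact hs2 u hu (hkill y hy _ hxy _ hB)
  · rw [f2 x hx hxs, f0 y hy]
    intro hB
    exact hs1 y hy (hkill x hx y hyx _ (B.symm _ _ hB))
  · rw [f2 x hx hxs, f1 v hv]
    intro hB
    exact hs2 v hv (hkill x hx _ hyx _ (B.symm _ _ hB))
  · rw [f2 x hx hxs, f2 y hy hys]
    exact hval y hy x hx hxy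

end Pool.Agent.Helper5.BEC
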