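import Pool.Agent.Helper5.BEC.Defs
/-! Piece L2: the choice of the swap vertices by the local lemma. -/
set_option autoImplicit false
namespace Pool.Agent.Helper5.BEC
open Finset Pool.Agent.Helper61.LE

variable {n : ℕ} {A B : Nb n} {D1 D2 η c : ℝ}

/-- an event on two different coordinates -/
private theorem l2_two {ι Ω : Type*} [Fintype ι] [DecidableEq ι] [Fintype Ω] [DecidableEq Ω]
    {μ : ι → Ω → ℝ} (h : IsProb μ) {v v' : ι} (hv : v ≠ v') (R : Ω → Ω → Prop) (q : ℝ)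
    (hq : ∀ a, PP μ (fun ω => R a (ω v')) ≤ q) : PP μ (fun ω => R (ω v) (ω v')) ≤ q := by
  classical
  have h1 : PP μ (fun ω => R (ω v) (ω v')) ≤
      PP μ (fun ω => ∃ a ∈ (univ : Finset Ω), ω v = a ∧ R a (ω v')) :=
    PP_mono h fun ω hω => ⟨ω v, mem_univ _, rfl, hω⟩
  have h2 := PP_exists_le h (univ : Finset Ω) (fun a (ω : ι → Ω) => ω v = a ∧ R a (ω v'))
  have h3 : ∀ a, PP μ (fun ω => ω v = a ∧ R a (ω v')) =
      PP μ (fun ω => ω v = a) * PP μ (fun ω => R a (ω v')) := by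
    intro a
    apply PP_and_of_disjoint h (S := {v}) (T := {v'})
    · intro ω ω' hω
      simp only [hω v (mem_singleton_self v)]
    · intro ω ω' hω
      simp only [hω v' (mem_singleton_self v')]
    · rw [disjoint_singleton]
      exact hv
  have h4 : ∀ a, PP μ (fun ω => ω v = a) = μ v a := by
    intro a
    rw [Pool.Agent.Helper5.AVD.PP_coord h v (fun b => b = a)]
    simp
  calc PP μ (fun ω => R (ω v) (ω v')) ≤ ∑ a, PP μ (fun ω => ω v = a ∧ R a (ω v')) :=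
        h1.trans h2
    _ = ∑ a, μ v a * PP μ (fun ω => R a (ω v')) :=
        sum_congr rfl fun a _ => by rw [h3, h4]
    _ ≤ ∑ a, μ v a * q :=
        sum_le_sum fun a _ => mul_le_mul_of_nonneg_left (hq a) (h.nonneg v a)
    _ = q := by rw [← sum_mul, h.sum_one, one_mul]

open Classical in
/-- the coins -/
private noncomputable def l2mu (I : Finset (Fin n)) (Cd : Fin n → Finset (Fin n)) :
    Fin n → Fin n → ℝ := fun v a =>
  if v ∈ I then (if a ∈ Cd v then 1 / (#(Cd v) : ℝ) else 0) else 1 / (n : ℝ)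

private theorem l2_isProb {I : Finset (Fin n)} {Cd : Fin n → Finset (Fin n)} (hn : 1 ≤ n)
    (hCd : ∀ v ∈ I, 0 < #(Cd v)) : IsProb (l2mu I Cd) where
  nonneg := fun v a => by
    unfold l2mu
    split_ifs <;> positivity
  sum_one := fun v => by
    classical
    unfold l2mu
    by_cases hv : v ∈ I
    · have h0 : (#(Cd v) : ℝ) ≠ 0 := by
        have := hCd v hv
        positivity
      simp only [if_pos hv]
      rw [← sum_filter, filter_mem_eq_inter, univ_inter, sum_const, nsmul_eq_mul]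
      field_simp
    · have h0 : (n : ℝ) ≠ 0 := by positivity
      simp only [if_neg hv]
      rw [sum_const, card_univ, Fintype.card_fin, nsmul_eq_mul]
      field_simp

private theorem l2_coord {I : Finset (Fin n)} {Cd : Fin n → Finset (Fin n)} (hn : 1 ≤ n)
    (hc : 0 < c) (hCd : ∀ v ∈ I, c * n ≤ #(Cd v)) {v : Fin n} (hv : v ∈ I)
    (N : Fin n → Prop) (X : Finset (Fin n)) (hX : ∀ a ∈ Cd v, N a → a ∈ X) {M : ℝ}
    (hM : (#X : ℝ) ≤ M) : PP (l2mu I Cd) (fun ω => N (ω v)) ≤ M / (c * n) := by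
  classical
  have hn0 : (0 : ℝ) < n := by exact_mod_cast hn
  have hcn : 0 < c * n := by positivity
  have hpos : ∀ v ∈ I, 0 < #(Cd v) := fun v hv => by
    have := lt_of_lt_of_le hcn (hCd v hv)
    exact_mod_cast this
  have hP := l2_isProb hn hpos
  rw [Pool.Agent.Helper5.AVD.PP_coord hP v N]
  have h1 : ∀ a, (if N a then l2mu I Cd v a else 0) ≤
      if a ∈ X then 1 / (#(Cd v) : ℝ) else 0 := by
    intro a
    unfold l2mu
    rw [if_pos hv]
    by_cases hN : N a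
    · rw [if_pos hN]
      by_cases ha : a ∈ Cd v
      · rw [if_pos ha, if_pos (hX a ha hN)]
      · rw [if_neg ha]
        split_ifs <;> positivity
    · rw [if_neg hN]
      split_ifs <;> positivity
  calc ∑ a, (if N a then l2mu I Cd v a else 0) ≤
        ∑ a, (if a ∈ X then 1 / (#(Cd v) : ℝ) else 0) := sum_le_sum fun a _ => h1 a
    _ = #X * (1 / (#(Cd v) : ℝ)) := by
        rw [← sum_filter, filter_mem_eq_inter, univ_inter, sum_const, nsmul_eq_mul]
    _ ≤ M * (1 / (c * n)) := by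
        apply mul_le_mul hM _ (by positivity) (le_trans (Nat.cast_nonneg _) hM)
        exact one_div_le_one_div_of_le hcn (hCd v hv)
    _ = M / (c * n) := by ring

open Classical in
/-- the bound for the probability of a bad pair -/
private noncomputable def l2p (A B : Nb n) (D1 D2 c : ℝ) (g : Fin n → Fin n) (v v' : Fin n) : ℝ :=
  1 / (c * n) + (if v' ∈ A.N v then D2 / (c * n) else 0) + D1 / (c * n) * (D2 / (c * n)) +
    if g v' ∈ B.N (g v) then D1 / (c * n) else 0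

/-- the bad event -/
private def l2E (A B : Nb n) (σ g : Fin n → Fin n) (j : Fin n × Fin n) (ω : Fin n → Fin n) :
    Prop :=
  ω j.1 = ω j.2 ∨ (j.2 ∈ A.N j.1 ∧ σ (ω j.2) ∈ B.N (σ (ω j.1))) ∨
    (ω j.2 ∈ A.N j.1 ∧ σ (ω j.1) ∈ B.N (g j.2)) ∨
    (g j.2 ∈ B.N (g j.1) ∧ ω j.2 ∈ A.N (ω j.1))

private theorem l2_or {ι Ω : Type*} [Fintype ι] [DecidableEq ι] [Fintype Ω] [DecidableEq Ω]
    {μ : ι → Ω → ℝ} (h : IsProb μ) (P Q : (ι → Ω) → Prop) :
    PP μ (fun ω => P ω ∨ Q ω) ≤ PP μ P + PP μ Q := by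
  rw [PP_split (μ := μ) (fun ω => P ω ∨ Q ω) P]
  refine add_le_add (PP_mono h fun ω hω => hω.2) (PP_mono h fun ω hω => ?_)
  rcases hω.1 with h1 | h1
  · exact absurd h1 hω.2
  · exact h1

private theorem l2_prob {I : Finset (Fin n)} {Cd : Fin n → Finset (Fin n)} {σ g : Fin n → Fin n}
    (hn : 1 ≤ n) (hdg : Deg A B D1 D2) (hD1 : 0 ≤ D1) (hD2 : 0 ≤ D2)
    (hc : 0 < c) (hCd : ∀ v ∈ I, c * n ≤ #(Cd v)) (P : Finset (Fin n))
    (hCP : ∀ v ∈ I, Cd v ⊆ P) (hσ : Set.InjOn σ (P : Set (Fin n))) {v v' : Fin n} (hv : v ∈ I)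
    (hv' : v' ∈ I) (hne : v ≠ v') :
    PP (l2mu I Cd) (l2E A B σ g (v, v')) ≤ l2p A B D1 D2 c g v v' := by
  classical
  have hn0 : (0 : ℝ) < n := by exact_mod_cast hn
  have hcn : 0 < c * n := by positivity
  have hpos : ∀ v ∈ I, 0 < #(Cd v) := fun v hv => by
    have := lt_of_lt_of_le hcn (hCd v hv)
    exact_mod_cast this
  have hP := l2_isProb hn hpos
  -- preimages under `σ`
  have hpre : ∀ u ∈ I, ∀ Y : Finset (Fin n), (#((Cd u).filter fun a => σ a ∈ Y) : ℝ) ≤ #Y := by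
    intro u hu Y
    have : #((Cd u).filter fun a => σ a ∈ Y) ≤ #Y := by
      apply card_le_card_of_injOn σ
      · intro a ha
        exact (mem_filter.1 ha).2
      · intro a ha b hb hab
        have ha' := (mem_filter.1 (mem_coe.1 ha)).1
        have hb' := (mem_filter.1 (mem_coe.1 hb)).1
        exact hσ (mem_coe.2 (hCP u hu ha')) (mem_coe.2 (hCP u hu hb')) hab
    exact_mod_cast this
  have t0 : PP (l2mu I Cd) (fun ω => ω v = ω v') ≤ 1 / (c * n) := by
    apply l2_two hP hne (fun a b => a = b)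
    intro a
    exact l2_coord hn hc hCd hv' (fun b => a = b) {a} (fun b _ hb => by simp [hb]) (by simp)
  have t1 : PP (l2mu I Cd) (fun ω => v' ∈ A.N v ∧ σ (ω v') ∈ B.N (σ (ω v))) ≤
      if v' ∈ A.N v then D2 / (c * n) else 0 := by
    split_ifs with hA
    · refine le_trans (PP_mono hP (B := fun ω => σ (ω v') ∈ B.N (σ (ω v))) fun ω hω => hω.2) ?_
      apply l2_two hP hne (fun a b => σ b ∈ B.N (σ a))
      intro a
      exact l2_coord hn hc hCd hv' (fun b => σ b ∈ B.N (σ a))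
        ((Cd v').filter fun b => σ b ∈ B.N (σ a)) (fun b hb hb' => mem_filter.2 ⟨hb, hb'⟩)
        ((hpre v' hv' _).trans (hdg.dB _))
    · have : PP (l2mu I Cd) (fun ω => v' ∈ A.N v ∧ σ (ω v') ∈ B.N (σ (ω v))) = 0 := by
        unfold PP EE
        simp [hA]
      rw [this]
  have t2 : PP (l2mu I Cd) (fun ω => ω v' ∈ A.N v ∧ σ (ω v) ∈ B.N (g v')) ≤
      D1 / (c * n) * (D2 / (c * n)) := by
    rw [PP_and_of_disjoint hP (A := fun ω => ω v' ∈ A.N v) (B := fun ω => σ (ω v) ∈ B.N (g v'))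
      (S := {v'}) (T := {v})]
    · apply mul_le_mul _ _ (PP_nonneg hP _) (by positivity)
      · exact l2_coord hn hc hCd hv' (fun b => b ∈ A.N v) (A.N v) (fun b _ hb => hb) (hdg.dA _)
      · exact l2_coord hn hc hCd hv (fun b => σ b ∈ B.N (g v'))
          ((Cd v).filter fun b => σ b ∈ B.N (g v')) (fun b hb hb' => mem_filter.2 ⟨hb, hb'⟩)
          ((hpre v hv _).trans (hdg.dB _))
    · intro ω ω' hω
      simp only [hω v' (mem_singleton_self v')]
    · intro ω ω' hω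
      simp only [hω v (mem_singleton_self v)]
    · rw [disjoint_singleton]
      exact hne.symm
  have t4 : PP (l2mu I Cd) (fun ω => g v' ∈ B.N (g v) ∧ ω v' ∈ A.N (ω v)) ≤
      if g v' ∈ B.N (g v) then D1 / (c * n) else 0 := by
    split_ifs with hB
    · refine le_trans (PP_mono hP (B := fun ω => ω v' ∈ A.N (ω v)) fun ω hω => hω.2) ?_
      apply l2_two hP hne (fun a b => b ∈ A.N a)
      intro a
      exact l2_coord hn hc hCd hv' (fun b => b ∈ A.N a) (A.N a) (fun b _ hb => hb) (hdg.dA _)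
    · have : PP (l2mu I Cd) (fun ω => g v' ∈ B.N (g v) ∧ ω v' ∈ A.N (ω v)) = 0 := by
        unfold PP EE
        simp [hB]
      rw [this]
  have h1 := l2_or hP (fun ω => ω v = ω v') (fun ω =>
    (v' ∈ A.N v ∧ σ (ω v') ∈ B.N (σ (ω v))) ∨
    (ω v' ∈ A.N v ∧ σ (ω v) ∈ B.N (g v')) ∨
    (g v' ∈ B.N (g v) ∧ ω v' ∈ A.N (ω v)))
  have h2 := l2_or hP (fun ω => v' ∈ A.N v ∧ σ (ω v') ∈ B.N (σ (ω v))) (fun ω =>
    (ω v' ∈ A.N v ∧ σ (ω v) ∈ B.N (g v')) ∨
    (g v' ∈ B.N (g v) ∧ ω v' ∈ A.N (ω v)))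
  have h3 := l2_or hP (fun ω => ω v' ∈ A.N v ∧ σ (ω v) ∈ B.N (g v')) (fun ω =>
    (g v' ∈ B.N (g v) ∧ ω v' ∈ A.N (ω v)))
  have h4 : PP (l2mu I Cd) (l2E A B σ g (v, v')) = PP (l2mu I Cd) (fun ω => ω v = ω v' ∨
    (v' ∈ A.N v ∧ σ (ω v') ∈ B.N (σ (ω v))) ∨
    (ω v' ∈ A.N v ∧ σ (ω v) ∈ B.N (g v')) ∨
    (g v' ∈ B.N (g v) ∧ ω v' ∈ A.N (ω v))) := rfl
  rw [h4]
  unfold l2p
  linarith

private theorem l2_symm (g : Fin n → Fin n) (v v' : Fin n) :
    l2p A B D1 D2 c g v v' = l2p A B D1 D2 c g v' v := by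
  classical
  unfold l2p
  have h1 : v' ∈ A.N v ↔ v ∈ A.N v' := ⟨A.symm _ _, A.symm _ _⟩
  have h2 : g v' ∈ B.N (g v) ↔ g v ∈ B.N (g v') := ⟨B.symm _ _, B.symm _ _⟩
  simp only [h1, h2]

private theorem l2_nonneg (hD1 : 0 ≤ D1) (hD2 : 0 ≤ D2) (hc : 0 < c) (g : Fin n → Fin n)
    (v v' : Fin n) : 0 ≤ l2p A B D1 D2 c g v v' := by
  unfold l2p
  have : 0 ≤ c * (n : ℝ) := by positivity
  have h1 : (0 : ℝ) ≤ if v' ∈ A.N v then D2 / (c * n) else 0 := by split_ifs <;> positivity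
  have h2 : (0 : ℝ) ≤ if g v' ∈ B.N (g v) then D1 / (c * n) else 0 := by
    split_ifs <;> positivity
  positivity

private theorem l2_row (I : Finset (Fin n)) (g : Fin n → Fin n)
    (hn : 1 ≤ n) (hD1 : 1 ≤ D1) (hD2 : 1 ≤ D2)
    (hDD : D1 * D2 ≤ n) (hc : 0 < c) (hc1 : c ≤ 1) (hη : 0 < η)
    (hg : Set.InjOn g (I : Set (Fin n)))
    (hI : (#I : ℝ) ≤ 3 * η * n) (hI1 : ∀ v, (#(A.N v ∩ I) : ℝ) ≤ 3 * η * D1)
    (hI2 : ∀ y, (#(B.N y ∩ I.image g) : ℝ) ≤ 3 * η * D2) (x : Fin n) :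
    ∑ u ∈ I, l2p A B D1 D2 c g x u ≤ 12 * η / c ^ 2 := by
  classical
  have hn0 : (0 : ℝ) < n := by exact_mod_cast hn
  have hcn : 0 < c * n := by positivity
  unfold l2p
  rw [sum_add_distrib, sum_add_distrib, sum_add_distrib, sum_const, sum_const,
    nsmul_eq_mul, nsmul_eq_mul, ← sum_filter, ← sum_filter, sum_const, sum_const,
    nsmul_eq_mul, nsmul_eq_mul]
  have a1 : (#(I.filter fun u => u ∈ A.N x) : ℝ) ≤ 3 * η * D1 := by
    have : I.filter (fun u => u ∈ A.N x) = A.N x ∩ I := by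
      ext u
      rw [mem_filter, mem_inter, and_comm]
    rw [this]
    exact hI1 x
  have a2 : (#(I.filter fun u => g u ∈ B.N (g x)) : ℝ) ≤ 3 * η * D2 := by
    refine le_trans ?_ (hI2 (g x))
    have : #(I.filter fun u => g u ∈ B.N (g x)) ≤ #(B.N (g x) ∩ I.image g) := by
      apply card_le_card_of_injOn g
      · intro a ha
        have ha' := mem_filter.1 ha
        exact mem_coe.2 (mem_inter.2 ⟨ha'.2, mem_image_of_mem g ha'.1⟩)
      · intro a ha b hb hab
        exact hg (mem_coe.2 (mem_filter.1 (mem_coe.1 ha)).1)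
          (mem_coe.2 (mem_filter.1 (mem_coe.1 hb)).1) hab
    exact_mod_cast this
  have hηc : 0 < η / c := by positivity
  have hcc : η / c ≤ η / c ^ 2 := by
    apply div_le_div_of_nonneg_left hη.le (by positivity)
    nlinarith
  have b1 : (#I : ℝ) * (1 / (c * n)) ≤ 3 * (η / c) := by
    calc (#I : ℝ) * (1 / (c * n)) ≤ (3 * η * n) * (1 / (c * n)) :=
          mul_le_mul_of_nonneg_right hI (by positivity)
      _ = 3 * (η / c) := by field_simp
  have b2 : (#(I.filter fun u => u ∈ A.N x) : ℝ) * (D2 / (c * n)) ≤ 3 * (η / c) := by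
    calc (#(I.filter fun u => u ∈ A.N x) : ℝ) * (D2 / (c * n)) ≤
          (3 * η * D1) * (D2 / (c * n)) := mul_le_mul_of_nonneg_right a1 (by positivity)
      _ = 3 * η * (D1 * D2) * (1 / (c * n)) := by ring
      _ ≤ 3 * η * n * (1 / (c * n)) := by
          apply mul_le_mul_of_nonneg_right _ (by positivity)
          exact mul_le_mul_of_nonneg_left hDD (by positivity)
      _ = 3 * (η / c) := by field_simp
  have b3 : (#I : ℝ) * (D1 / (c * n) * (D2 / (c * n))) ≤ 3 * (η / c ^ 2) := by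
    calc (#I : ℝ) * (D1 / (c * n) * (D2 / (c * n))) ≤
          (3 * η * n) * (D1 / (c * n) * (D2 / (c * n))) :=
          mul_le_mul_of_nonneg_right hI (by positivity)
      _ = 3 * η * n * (D1 * D2) * (1 / (c * n)) ^ 2 := by ring
      _ ≤ 3 * η * n * n * (1 / (c * n)) ^ 2 := by
          apply mul_le_mul_of_nonneg_right _ (by positivity)
          exact mul_le_mul_of_nonneg_left hDD (by positivity)
      _ = 3 * (η / c ^ 2) := by field_simp
  have b4 : (#(I.filter fun u => g u ∈ B.N (g x)) : ℝ) * (D1 / (c * n)) ≤ 3 * (η / c) := by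
    calc (#(I.filter fun u => g u ∈ B.N (g x)) : ℝ) * (D1 / (c * n)) ≤
          (3 * η * D2) * (D1 / (c * n)) := mul_le_mul_of_nonneg_right a2 (by positivity)
      _ = 3 * η * (D1 * D2) * (1 / (c * n)) := by ring
      _ ≤ 3 * η * n * (1 / (c * n)) := by
          apply mul_le_mul_of_nonneg_right _ (by positivity)
          exact mul_le_mul_of_nonneg_left hDD (by positivity)
      _ = 3 * (η / c) := by field_simp
  have : 12 * η / c ^ 2 = 12 * (η / c ^ 2) := by ring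
  rw [this]
  linarith

/-- Local lemma for the swap vertices. Coins: `ι = {v // v ∈ I}` (or `Fin n`), `Ω = Fin n`, the
coin of `v` is uniform on `Cd v` (`#(Cd v) ≥ c n`). Events: for `v ≠ v'` in `I`
`E v v'` := T0 (`s v = s v'`) or T1 or T2 or T4 of `L1.swap_packing`, coordinates `{v, v'}`.
Probabilities: T0 `≤ 1/(cn)`; T1 (only if `v' ∈ N₁(v)`, at most `3ηD1` such `v' ∈ I`)
`≤ D2/(cn)`; T2 `≤ (D1/(cn))(D2/(cn))`; T4 (only if `g v' ∈ N₂(g v)`, at most `3ηD2` such `v'`)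
`≤ D1/(cn)`. For every `v` the sum over `v'` of the probabilities of `E v v'` and of `E v' v` is
at most `2·(3η/c + 3η/c + 3η/c² + 3η/c) ≤ 24 η/c² ≤ 1/8` if `200 η ≤ c²`,
so `Pool.Agent.Helper61.LE.lll` applies. -/
theorem choose_swaps (I : Finset (Fin n)) (Cd : Fin n → Finset (Fin n)) (σ g : Fin n → Fin n)
    (hn : 1 ≤ n) (hdg : Deg A B D1 D2) (hD1 : 1 ≤ D1) (hD2 : 1 ≤ D2)
    (hDD : D1 * D2 ≤ n) (hc : 0 < c) (hc1 : c ≤ 1) (hη : 0 < η) (hηc : 200 * η ≤ c ^ 2)
    (hCd : ∀ v ∈ I, c * n ≤ #(Cd v)) (P : Finset (Fin n)) (hCP : ∀ v ∈ I, Cd v ⊆ P)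
    (hσ : Set.InjOn σ (P : Set (Fin n))) (hg : Set.InjOn g (I : Set (Fin n)))
    (hI : (#I : ℝ) ≤ 3 * η * n) (hI1 : ∀ v, (#(A.N v ∩ I) : ℝ) ≤ 3 * η * D1)
    (hI2 : ∀ y, (#(B.N y ∩ I.image g) : ℝ) ≤ 3 * η * D2) :
    ∃ s : Fin n → Fin n, (∀ v ∈ I, s v ∈ Cd v) ∧
      (∀ v ∈ I, ∀ v' ∈ I, v ≠ v' → s v ≠ s v') ∧
      (∀ v ∈ I, ∀ v' ∈ I, v' ∈ A.N v → σ (s v') ∉ B.N (σ (s v))) ∧
      (∀ v ∈ I, ∀ v' ∈ I, v ≠ v' → s v' ∈ A.N v → σ (s v) ∉ B.N (g v')) ∧
      (∀ v ∈ I, ∀ v' ∈ I, v ≠ v' → g v' ∈ B.N (g v) → s v' ∉ A.N (s v)) := by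
  classical
  have hn0 : (0 : ℝ) < n := by exact_mod_cast hn
  have hcn : 0 < c * n := by positivity
  have hpos : ∀ v ∈ I, 0 < #(Cd v) := fun v hv => by
    have := lt_of_lt_of_le hcn (hCd v hv)
    exact_mod_cast this
  have hP := l2_isProb hn hpos
  have hD1' : 0 ≤ D1 := by linarith
  have hD2' : 0 ≤ D2 := by linarith
  have hrow := l2_row (A := A) (B := B) I g hn hD1 hD2 hDD hc hc1 hη hg hI hI1 hI2
  have hnn := l2_nonneg (A := A) (B := B) hD1' hD2' hc g
  have h12 : 12 * η / c ^ 2 ≤ 6 / 100 := by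
    rw [div_le_iff₀ (by positivity)]
    linarith
  set J : Finset (Fin n × Fin n) := (I ×ˢ I).filter (fun j => j.1 ≠ j.2) with hJ
  have hJm : ∀ j ∈ J, j.1 ∈ I ∧ j.2 ∈ I ∧ j.1 ≠ j.2 := by
    intro j hj
    rw [hJ, mem_filter, mem_product] at hj
    exact ⟨hj.1.1, hj.1.2, hj.2⟩
  have hprob : ∀ j ∈ J, PP (l2mu I Cd) (l2E A B σ g j) ≤ l2p A B D1 D2 c g j.1 j.2 := by
    intro j hj
    obtain ⟨h1, h2, h3⟩ := hJm j hj
    exact l2_prob hn hdg hD1' hD2' hc hCd P hCP hσ h1 h2 h3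
  obtain ⟨ω, hω, havoid⟩ := lll' hP J (l2E A B σ g) (fun j => {j.1, j.2})
    (by
      intro j _ ω ω' hω
      unfold l2E
      rw [hω j.1 (by simp), hω j.2 (by simp)])
    (by
      intro j hj
      obtain ⟨_, h2, _⟩ := hJm j hj
      have h3 : l2p A B D1 D2 c g j.1 j.2 ≤ ∑ u ∈ I, l2p A B D1 D2 c g j.1 u :=
        single_le_sum (f := fun u => l2p A B D1 D2 c g j.1 u) (fun u _ => hnn _ _) h2
      have h4 := hprob j hj
      have h5 := hrow j.1
      linarith)
    (by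
      intro i hi
      have key : ∀ x, ∑ j ∈ J.filter (fun j => x ∈ ({j.1, j.2} : Finset (Fin n))),
          PP (l2mu I Cd) (l2E A B σ g j) ≤ 12 / 100 := by
        intro x
        calc ∑ j ∈ J.filter (fun j => x ∈ ({j.1, j.2} : Finset (Fin n))),
              PP (l2mu I Cd) (l2E A B σ g j) ≤
              ∑ j ∈ J.filter (fun j => x ∈ ({j.1, j.2} : Finset (Fin n))),
                l2p A B D1 D2 c g j.1 j.2 :=
              sum_le_sum fun j hj => hprob j (mem_filter.1 hj).1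
          _ ≤ ∑ j ∈ ({x} ×ˢ I) ∪ (I ×ˢ {x}), l2p A B D1 D2 c g j.1 j.2 := by
              apply sum_le_sum_of_subset_of_nonneg
              · intro j hj
                obtain ⟨hj1, hj2⟩ := mem_filter.1 hj
                obtain ⟨h1, h2, _⟩ := hJm j hj1
                rw [mem_insert, mem_singleton] at hj2
                rw [mem_union, mem_product, mem_product, mem_singleton, mem_singleton]
                rcases hj2 with h | h
                · exact Or.inl ⟨h.symm, h2⟩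
                · exact Or.inr ⟨h1, h.symm⟩
              · intro j _ _
                exact hnn _ _
          _ ≤ ∑ j ∈ {x} ×ˢ I, l2p A B D1 D2 c g j.1 j.2 +
                ∑ j ∈ I ×ˢ {x}, l2p A B D1 D2 c g j.1 j.2 := by
              rw [← sum_union_inter]
              have : 0 ≤ ∑ j ∈ ({x} ×ˢ I) ∩ (I ×ˢ {x}), l2p A B D1 D2 c g j.1 j.2 :=
                sum_nonneg fun j _ => hnn _ _
              linarith
          _ = ∑ u ∈ I, l2p A B D1 D2 c g x u + ∑ u ∈ I, l2p A B D1 D2 c g x u := by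
              rw [sum_product, sum_product]
              simp only [sum_singleton]
              congr 1
              exact sum_congr rfl fun u _ => l2_symm g u x
          _ ≤ 12 / 100 := by
              have := hrow x
              linarith
      obtain ⟨_, _, hne⟩ := hJm i hi
      rw [sum_pair hne]
      have h1 := key i.1
      have h2 := key i.2
      linarith)
  have hno : ∀ v ∈ I, ∀ v' ∈ I, v ≠ v' → ¬ l2E A B σ g (v, v') ω := by
    intro v hv v' hv' hne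
    exact havoid (v, v') (by rw [hJ, mem_filter, mem_product]; exact ⟨⟨hv, hv'⟩, hne⟩)
  refine ⟨ω, ?_, ?_, ?_, ?_, ?_⟩
  · intro v hv
    by_contra hcon
    apply hω v
    unfold l2mu
    rw [if_pos hv, if_neg hcon]
  · intro v hv v' hv' hne heq
    exact hno v hv v' hv' hne (Or.inl heq)
  · intro v hv v' hv' hA hB
    have hne : v ≠ v' := by
      rintro rfl
      exact A.irr v hA
    exact hno v hv v' hv' hne (Or.inr (Or.inl ⟨hA, hB⟩))
  · intro v hv v' hv' hne hA hB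
    exact hno v hv v' hv' hne (Or.inr (Or.inr (Or.inl ⟨hA, hB⟩)))
  · intro v hv v' hv' hne hB hA
    exact hno v hv v' hv' hne (Or.inr (Or.inr (Or.inr ⟨hB, hA⟩)))

end Pool.Agent.Helper5.BEC
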