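import Pool.Agent.Helper5.BEC.St.P1
import Pool.Agent.Helper5.BEC.St.D4
import Pool.Agent.Helper5.BEC.St.L1
import Pool.Agent.Helper5.BEC.St.L2
/-! Piece F1: final assembly. -/
set_option autoImplicit false
namespace Pool.Agent.Helper5.BEC
open Finset

/-- from a final state to a packing: `I = univ \ P`, `|I| = |univ \ σ(P)|`, `g` a bijection,
`Cd v = cand S v (g v) \ N₁(v)` has at least `c n - D1 ≥ (c/2) n` elements. -/
theorem finish {n : ℕ} {A B : Nb n} {D1 D2 W γ a l p q c η : ℝ} {S : St n}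
    (hI : Inv A B D1 D2 W γ a l p q S) (hn : 1 ≤ n) (hdg : Deg A B D1 D2) (hD1 : 1 ≤ D1)
    (hD2 : 1 ≤ D2) (hDD : D1 * D2 ≤ n) (hc : 0 < c) (hc1 : c ≤ 1) (hη : 0 < η)
    (hηc : 800 * η ≤ c ^ 2) (hcq : c ≤ q) (hal : a + l ≤ 3 * η) (hD1n : D1 ≤ c / 2 * n) :
    ∃ τ : Equiv.Perm (Fin n), ∀ u v, u ∈ A.N v → τ u ∉ B.N (τ v) := by
  classical
  have hnR : (0 : ℝ) < n := by exact_mod_cast (show 0 < n by omega)
  obtain ⟨I, hIdef⟩ : ∃ I : Finset (Fin n), I = univ \ S.P := ⟨_, rfl⟩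
  obtain ⟨J, hJdef⟩ : ∃ J : Finset (Fin n), J = univ \ S.P.image S.σ := ⟨_, rfl⟩
  have hmI : ∀ v, v ∈ I ↔ v ∉ S.P := fun v => by rw [hIdef]; simp
  have hmJ : ∀ y, y ∈ J ↔ y ∉ S.P.image S.σ := fun y => by rw [hJdef]; simp
  have hcard : #I = #J := by
    rw [hIdef, hJdef, card_univ_sdiff, card_univ_sdiff, card_image_of_injOn hI.inj]
  obtain ⟨e⟩ : Nonempty (I ≃ J) := ⟨Finset.equivOfCardEq hcard⟩
  obtain ⟨g, hgdef⟩ : ∃ g : Fin n → Fin n, g = fun v => if h : v ∈ I then (e ⟨v, h⟩ : Fin n) else v :=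
    ⟨_, rfl⟩
  have hgv : ∀ v (h : v ∈ I), g v = e ⟨v, h⟩ := fun v h => by rw [hgdef]; simp [h]
  have hgJ : ∀ v ∈ I, g v ∈ J := fun v h => by rw [hgv v h]; exact (e ⟨v, h⟩).2
  have hg : Set.InjOn g (I : Set (Fin n)) := by
    intro v hv v' hv' h
    have hv1 : v ∈ I := by simpa using hv
    have hv2 : v' ∈ I := by simpa using hv'
    rw [hgv v hv1, hgv v' hv2] at h
    exact congrArg Subtype.val (e.injective (Subtype.ext h))
  have hgσ : ∀ v ∈ I, ∀ u ∈ S.P, g v ≠ S.σ u := by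
    intro v hv u hu h
    exact (hmJ _).1 (hgJ v hv) (mem_image.2 ⟨u, hu, h.symm⟩)
  obtain ⟨Cd, hCddef⟩ : ∃ Cd : Fin n → Finset (Fin n), Cd = fun v => cand S v (g v) \ A.N v :=
    ⟨_, rfl⟩
  have hCdm : ∀ v u, u ∈ Cd v ↔ (u ∈ S.P ∧ (v, S.σ u) ∉ S.K ∧ (u, g v) ∉ S.K) ∧ u ∉ A.N v := by
    intro v u
    rw [hCddef]
    simp only [mem_sdiff, cand, mem_filter]
  have hCdc : ∀ v ∈ I, c / 2 * n ≤ #(Cd v) := by
    intro v _
    have h1 := hI.cnd v (g v)
    have h2 : #(cand S v (g v)) ≤ #(Cd v) + #(A.N v) := by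
      have : cand S v (g v) ⊆ Cd v ∪ A.N v := by
        intro u hu
        by_cases h : u ∈ A.N v
        · exact mem_union_right _ h
        · refine mem_union_left _ ?_
          rw [hCddef]
          exact mem_sdiff.2 ⟨hu, h⟩
      exact (card_le_card this).trans (card_union_le _ _)
    have h2' : (#(cand S v (g v)) : ℝ) ≤ #(Cd v) + #(A.N v) := by exact_mod_cast h2
    have h3 := hdg.dA v
    have h4 : c * n ≤ q * n := mul_le_mul_of_nonneg_right hcq hnR.le
    linarith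
  have hCP : ∀ v ∈ I, Cd v ⊆ S.P := fun v _ u hu => ((hCdm v u).1 hu).1.1
  have hI0 : (#I : ℝ) ≤ 3 * η * n := by
    have h1 : #I ≤ #S.U + #(univ \ (S.U ∪ S.P)) := by
      have : I ⊆ S.U ∪ univ \ (S.U ∪ S.P) := by
        intro v hv
        by_cases h : v ∈ S.U
        · exact mem_union_left _ h
        · refine mem_union_right _ (mem_sdiff.2 ⟨mem_univ _, ?_⟩)
          rw [mem_union]
          rintro (h' | h')
          · exact h h'
          · exact (hmI v).1 hv h'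
      exact (card_le_card this).trans (card_union_le _ _)
    have h1' : (#I : ℝ) ≤ #S.U + #(univ \ (S.U ∪ S.P)) := by exact_mod_cast h1
    have h2 := hI.aN
    have h3 := hI.lN
    have h4 : (a + l) * n ≤ 3 * η * n := mul_le_mul_of_nonneg_right hal hnR.le
    linarith
  have hI1 : ∀ v, (#(A.N v ∩ I) : ℝ) ≤ 3 * η * D1 := by
    intro v
    have h1 : #(A.N v ∩ I) ≤ #(A.N v ∩ S.U) + #(A.N v \ (S.U ∪ S.P)) := by
      have : A.N v ∩ I ⊆ A.N v ∩ S.U ∪ A.N v \ (S.U ∪ S.P) := by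
        intro u hu
        have hu1 := (mem_inter.1 hu).1
        have hu2 := (mem_inter.1 hu).2
        by_cases h : u ∈ S.U
        · exact mem_union_left _ (mem_inter.2 ⟨hu1, h⟩)
        · refine mem_union_right _ (mem_sdiff.2 ⟨hu1, ?_⟩)
          rw [mem_union]
          rintro (h' | h')
          · exact h h'
          · exact (hmI u).1 hu2 h'
      exact (card_le_card this).trans (card_union_le _ _)
    have h1' : (#(A.N v ∩ I) : ℝ) ≤ #(A.N v ∩ S.U) + #(A.N v \ (S.U ∪ S.P)) := by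
      exact_mod_cast h1
    have h2 := hI.aU v
    have h3 := hI.lU v
    have h4 : (a + l) * D1 ≤ 3 * η * D1 := mul_le_mul_of_nonneg_right hal (by linarith)
    linarith
  have hI2 : ∀ y, (#(B.N y ∩ I.image g) : ℝ) ≤ 3 * η * D2 := by
    intro y
    have h1 : #(B.N y ∩ I.image g) ≤ #(B.N y ∩ S.F) + #(B.N y \ (S.F ∪ S.P.image S.σ)) := by
      have : B.N y ∩ I.image g ⊆ B.N y ∩ S.F ∪ B.N y \ (S.F ∪ S.P.image S.σ) := by
        intro z hz
        have hz1 := (mem_inter.1 hz).1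
        obtain ⟨v, hv, rfl⟩ := mem_image.1 (mem_inter.1 hz).2
        by_cases h : g v ∈ S.F
        · exact mem_union_left _ (mem_inter.2 ⟨hz1, h⟩)
        · refine mem_union_right _ (mem_sdiff.2 ⟨hz1, ?_⟩)
          rw [mem_union]
          rintro (h' | h')
          · exact h h'
          · exact (hmJ _).1 (hgJ v hv) h'
      exact (card_le_card this).trans (card_union_le _ _)
    have h1' : (#(B.N y ∩ I.image g) : ℝ) ≤ #(B.N y ∩ S.F) +
        #(B.N y \ (S.F ∪ S.P.image S.σ)) := by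
      exact_mod_cast h1
    have h2 := hI.aF y
    have h3 := hI.lF y
    have h4 : (a + l) * D2 ≤ 3 * η * D2 := mul_le_mul_of_nonneg_right hal (by linarith)
    linarith
  obtain ⟨s, hs1, hs2, hs3, hs4, hs5⟩ := choose_swaps (A := A) (B := B) (D1 := D1) (D2 := D2)
    (η := η) (c := c / 2) I Cd S.σ g hn hdg hD1 hD2 hDD (by linarith) (by linarith) hη
    (by nlinarith) hCdc S.P hCP hI.inj hg hI0 hI1 hI2
  refine swap_packing S.P I S.σ S.K ?_ ?_ hI.inj hI.killed hI.valid g s hg hgσ ?_ ?_ ?_ ?_ hs2 hs3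
    hs4 hs5
  · rw [Finset.disjoint_left]
    intro u hu hu'
    exact (hmI u).1 hu' hu
  · ext u
    simp only [mem_union, mem_univ, iff_true]
    by_cases h : u ∈ S.P
    · exact Or.inl h
    · exact Or.inr ((hmI u).2 h)
  · exact fun v hv => ((hCdm v (s v)).1 (hs1 v hv)).1.1
  · exact fun v hv => ((hCdm v (s v)).1 (hs1 v hv)).1.2.1
  · exact fun v hv => ((hCdm v (s v)).1 (hs1 v hv)).1.2.2
  · exact fun v hv => ((hCdm v (s v)).1 (hs1 v hv)).2

/-- the theorem on `Fin n` -/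
theorem bec_fin (ε : ℝ) (h0 : 0 < ε) (h1 : ε ≤ 1 / 2) :
    ∃ C : ℝ, 0 < C ∧ ∀ (n : ℕ) (A B : Nb n) (D1 D2 : ℝ), 2 ≤ n → Deg A B D1 D2 →
      C * Real.log n ≤ D1 → C * Real.log n ≤ D2 → D1 * D2 ≤ (1 - ε) * n →
      ∃ τ : Equiv.Perm (Fin n), ∀ u v, u ∈ A.N v → τ u ∉ B.N (τ v) := by
  obtain ⟨δ, K0, Wm, c, η, k1, K, W, γ, a, l, p, q, hS, hWm, hc, hc1, hη, hηc, hcq, hal⟩ :=
    params ε h0 h1
  have hδ : 0 < δ := hS.δ0
  obtain ⟨b, hb⟩ : ∃ b : ℝ, b = δ ^ 6 / (1000 * Wm ^ 2) := ⟨_, rfl⟩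
  have hb0 : 0 < b := by
    rw [hb]; positivity
  have hW0 : 0 < Wm := by linarith
  obtain ⟨C, hC⟩ : ∃ C : ℝ, C = 2 + 4 / c + 4 * Wm / δ + 8 / b := ⟨_, rfl⟩
  have e1 : 0 < 4 / c := by positivity
  have e2 : 0 < 4 * Wm / δ := by positivity
  have e3 : 0 < 8 / b := by positivity
  have hC0 : 0 < C := by rw [hC]; positivity
  refine ⟨C, hC0, ?_⟩
  intro n A B D1 D2 hn2 hdg hL1 hL2 hDD
  have hn2R : (2 : ℝ) ≤ n := by exact_mod_cast hn2
  have hnR : (0 : ℝ) < n := by linarith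
  have hlog2 : (1 : ℝ) / 2 ≤ Real.log 2 := by
    have := Real.log_two_gt_d9
    linarith
  have hlogn : Real.log 2 ≤ Real.log n := Real.log_le_log (by norm_num) hn2R
  have hlog : (1 : ℝ) / 2 ≤ Real.log n := hlog2.trans hlogn
  have hCl : C / 2 ≤ C * Real.log n := by nlinarith
  have hD1C : C / 2 ≤ D1 := hCl.trans hL1
  have hD2C : C / 2 ≤ D2 := hCl.trans hL2
  have hD1 : 1 ≤ D1 := by linarith
  have hD2 : 1 ≤ D2 := by linarith
  have hDn : D1 * D2 ≤ n := by nlinarith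
  have hD1n : D1 ≤ c / 2 * n := by
    have h3 : 2 / c ≤ D2 := by
      have : 2 / c = (4 / c) / 2 := by ring
      linarith
    have h4 : D1 * (2 / c) ≤ n := (mul_le_mul_of_nonneg_left h3 (by linarith)).trans hDn
    have h5 : D1 = D1 * (2 / c) * (c / 2) := by field_simp
    rw [h5]
    calc D1 * (2 / c) * (c / 2) ≤ n * (c / 2) := mul_le_mul_of_nonneg_right h4 (by linarith)
      _ = c / 2 * n := by ring
  have hWn : Wm / n ≤ δ := by
    have h3 : 2 * Wm / δ ≤ D1 := by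
      have : 2 * Wm / δ = (4 * Wm / δ) / 2 := by ring
      linarith
    have h4 : 2 * Wm / δ ≤ n := by nlinarith
    rw [div_le_iff₀ hδ] at h4
    rw [div_le_iff₀ hnR]
    linarith
  have hlog0 : 0 ≤ Real.log n := by linarith
  have hbig : 40 * (n : ℝ) ^ 2 * Real.exp (-(δ ^ 6 / (1000 * Wm ^ 2) * (C * Real.log n))) < 1 := by
    rw [← hb]
    have h8 : 8 ≤ b * C := by
      have h9 : 8 / b ≤ C := by linarith
      rw [div_le_iff₀ hb0] at h9
      linarith
    have h10 : Real.exp (-(b * (C * Real.log n))) ≤ Real.exp (-(8 * Real.log n)) := by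
      apply Real.exp_le_exp.2
      have : 8 * Real.log n ≤ b * C * Real.log n := mul_le_mul_of_nonneg_right h8 hlog0
      linarith
    have h11 : Real.exp (-(8 * Real.log n)) = 1 / (n : ℝ) ^ 8 := by
      rw [Real.exp_neg, ← Real.log_rpow hnR, Real.exp_log (by positivity)]
      rw [one_div]
      congr 1
      exact_mod_cast Real.rpow_natCast (n : ℝ) 8
    have h12 : (64 : ℝ) ≤ (n : ℝ) ^ 6 := by
      calc (64 : ℝ) = 2 ^ 6 := by norm_num
        _ ≤ (n : ℝ) ^ 6 := pow_le_pow_left₀ (by norm_num) hn2R 6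
    calc 40 * (n : ℝ) ^ 2 * Real.exp (-(b * (C * Real.log n)))
        ≤ 40 * (n : ℝ) ^ 2 * (1 / (n : ℝ) ^ 8) := by
          rw [← h11]
          exact mul_le_mul_of_nonneg_left h10 (by positivity)
      _ = 40 / (n : ℝ) ^ 6 := by field_simp
      _ < 1 := by
          rw [div_lt_one (by positivity)]
          linarith
  obtain ⟨S, hSI⟩ := iterate (A := A) (B := B) hS (by omega) hdg hD1 hD2 hDD hWn
    (D := C * Real.log n) (by positivity) hL1 hL2 hbig
  exact finish hSI (by omega) hdg hD1 hD2 hDn hc hc1 hη hηc hcq hal hD1n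

/-- Final statement. -/
theorem bec (ε : ℝ) (h0 : 0 < ε) :
    ∃ C : ℝ, ∀ (V : Type) [Fintype V] (G₁ G₂ : SimpleGraph V) (D₁ D₂ : ℝ),
      (∀ v, ((G₁.neighborSet v).ncard : ℝ) ≤ D₁) → (∀ v, ((G₂.neighborSet v).ncard : ℝ) ≤ D₂) →
      C * Real.log (Fintype.card V) ≤ D₁ → C * Real.log (Fintype.card V) ≤ D₂ →
      D₁ * D₂ ≤ (1 - ε) * Fintype.card V →
      ∃ τ : Equiv.Perm V, ∀ u v, G₁.Adj u v → ¬ G₂.Adj (τ u) (τ v) := by
  classical
  obtain ⟨C, hC0, hC⟩ := bec_fin (min ε (1 / 2)) (lt_min h0 (by norm_num)) (min_le_right _ _)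
  refine ⟨C, ?_⟩
  intro V _ G₁ G₂ D₁ D₂ hd1 hd2 hL1 hL2 hDD
  rcases Nat.lt_or_ge (Fintype.card V) 2 with hlt | hge
  · have hss : Subsingleton V := Fintype.card_le_one_iff_subsingleton.1 (by omega)
    exact ⟨Equiv.refl V, fun u v huv _ => huv.ne (Subsingleton.elim u v)⟩
  obtain ⟨e⟩ : Nonempty (V ≃ Fin (Fintype.card V)) := ⟨Fintype.equivFin V⟩
  let mk : SimpleGraph V → Nb (Fintype.card V) := fun G =>
    { N := fun v => univ.filter fun u => G.Adj (e.symm v) (e.symm u)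
      symm := fun u v h => by
        simp only [mem_filter, mem_univ, true_and] at h ⊢
        exact h.symm
      irr := fun v => by simp }
  have hmk : ∀ (G : SimpleGraph V) u v, u ∈ (mk G).N v ↔ G.Adj (e.symm v) (e.symm u) := by
    intro G u v
    simp [mk]
  have hcard : ∀ (G : SimpleGraph V) v, #((mk G).N v) = (G.neighborSet (e.symm v)).ncard := by
    intro G v
    have h1 : ((mk G).N v : Set (Fin (Fintype.card V))) = e '' (G.neighborSet (e.symm v)) := by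
      ext u
      simp only [mem_coe, hmk, Set.mem_image, SimpleGraph.mem_neighborSet]
      constructor
      · intro h
        exact ⟨e.symm u, h, by simp⟩
      · rintro ⟨x, hx, rfl⟩
        simpa using hx
    rw [← Set.ncard_coe_finset, h1, Set.ncard_image_of_injective _ e.injective]
  have hdg : Deg (mk G₁) (mk G₂) D₁ D₂ := by
    refine ⟨fun v => ?_, fun v => ?_⟩
    · rw [hcard]; exact hd1 _
    · rw [hcard]; exact hd2 _
  have hDD' : D₁ * D₂ ≤ (1 - min ε (1 / 2)) * (Fintype.card V : ℝ) := by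
    refine hDD.trans (mul_le_mul_of_nonneg_right ?_ (by positivity))
    have := min_le_left ε (1 / 2)
    linarith
  obtain ⟨τ, hτ⟩ := hC (Fintype.card V) (mk G₁) (mk G₂) D₁ D₂ hge hdg hL1 hL2 hDD'
  refine ⟨(e.trans τ).trans e.symm, ?_⟩
  intro u v huv h
  have h1 : e u ∈ (mk G₁).N (e v) := by
    rw [hmk]
    simpa using huv.symm
  have h2 := hτ _ _ h1
  apply h2
  rw [hmk]
  simpa using h.symm

end Pool.Agent.Helper5.BEC
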