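import Pool.Agent.Helper5.BEC.St.Sq
/-! Piece P1: the parameters. -/
set_option autoImplicit false
namespace Pool.Agent.Helper5.BEC
open Finset

/-- a common bound for finitely many smallness conditions -/
private theorem small (C1 C2 C3 C4 C5 C6 C7 b1 b2 b3 b4 b5 b6 b7 : ℝ)
    (h1 : 0 < b1) (h2 : 0 < b2) (h3 : 0 < b3) (h4 : 0 < b4) (h5 : 0 < b5) (h6 : 0 < b6)
    (h7 : 0 < b7) :
    ∃ δ : ℝ, 0 < δ ∧ C1 * δ ≤ b1 ∧ C2 * δ ≤ b2 ∧ C3 * δ ≤ b3 ∧ C4 * δ ≤ b4 ∧ C5 * δ ≤ b5 ∧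
      C6 * δ ≤ b6 ∧ C7 * δ ≤ b7 := by
  have key : ∀ C b : ℝ, 0 < b → ∀ᶠ δ in nhdsWithin (0:ℝ) (Set.Ioi 0), C * δ ≤ b := by
    intro C b hb
    have h : Filter.Tendsto (fun δ : ℝ => C * δ) (nhdsWithin (0:ℝ) (Set.Ioi 0)) (nhds 0) := by
      have : Filter.Tendsto (fun δ : ℝ => C * δ) (nhds 0) (nhds (C * 0)) :=
        (continuous_const.mul continuous_id).tendsto 0
      rw [mul_zero] at this
      exact this.mono_left nhdsWithin_le_nhds
    exact (h.eventually (gt_mem_nhds hb)).mono fun _ h => h.le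
  have hall := ((((((key C1 b1 h1).and (key C2 b2 h2)).and (key C3 b3 h3)).and
    (key C4 b4 h4)).and (key C5 b5 h5)).and (key C6 b6 h6)).and (key C7 b7 h7)
  obtain ⟨δ, h, hδ⟩ := (hall.and self_mem_nhdsWithin).exists
  exact ⟨δ, hδ, h.1.1.1.1.1.1, h.1.1.1.1.1.2, h.1.1.1.1.2, h.1.1.1.2, h.1.1.2, h.1.2, h.2⟩

/-- the inequality for `W` -/
private theorem coreW (ε δ γ e b s : ℝ) (hε : 0 < ε) (hε1 : ε ≤ 1 / 2) (hδ : 0 < δ) (hδ1 : δ ≤ 1 / 200)
    (hγ0 : 0 ≤ γ) (he : 0 < e) (hs1 : s ≤ 1) (hes : e ≤ s)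
    (hb0 : 0 ≤ b) (hb : b ≤ 1 + ε / 32) (hγ : γ ≤ ε * e / 4) :
    1 / (s * e) * (1 + δ * (1 + γ + (1 - ε) * (e * b) ^ 2 * (1 / (s * e)))) ≤
      1 / ((s - (1 - ε / 2) * δ * e) * ((1 - δ) * e)) := by
  have hs : 0 < s := he.trans_le hes
  obtain ⟨y, hy⟩ : ∃ y, y = e / s := ⟨_, rfl⟩
  have hy0 : 0 < y := by rw [hy]; positivity
  have hy1 : y ≤ 1 := by rw [hy, div_le_one hs]; exact hes
  have hye : e ≤ y := by
    rw [hy, le_div_iff₀ hs]; nlinarith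
  have hr : (1 - ε) * b ^ 2 ≤ 1 - 3 * ε / 4 := by
    have h1 : b ^ 2 ≤ (1 + ε / 32) ^ 2 := pow_le_pow_left₀ hb0 hb 2
    have h2 := mul_le_mul_of_nonneg_left h1 (show (0:ℝ) ≤ 1 - ε by linarith)
    have h3 : ε ^ 2 ≤ ε * (1 / 2) := by rw [sq]; exact mul_le_mul_of_nonneg_left hε1 hε.le
    have h4 : 0 < ε ^ 3 := by positivity
    have h5 : 0 < ε ^ 2 := by positivity
    nlinarith
  have hr0 : 0 ≤ (1 - ε) * b ^ 2 := by
    have : 0 ≤ 1 - ε := by linarith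
    positivity
  have e1 : (1 - ε) * (e * b) ^ 2 * (1 / (s * e)) = (1 - ε) * b ^ 2 * y := by
    rw [hy]; field_simp
  rw [e1]
  generalize (1 - ε) * b ^ 2 = r at hr hr0
  have hes2 : e = y * s := by rw [hy]; field_simp
  have hs' : s - (1 - ε / 2) * δ * e = s * (1 - (1 - ε / 2) * δ * y) := by rw [hes2]; ring
  have hz : 0 < 1 - (1 - ε / 2) * δ * y := by
    have h1 : (1 - ε / 2) * δ * y ≤ 1 * (1 / 200) * 1 := by
      apply mul_le_mul _ hy1 hy0.le (by norm_num)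
      apply mul_le_mul (by linarith) hδ1 hδ.le (by norm_num)
    linarith
  have hd : 0 < 1 - δ := by linarith
  rw [hs', show s * (1 - (1 - ε / 2) * δ * y) * ((1 - δ) * e) =
    (s * e) * ((1 - (1 - ε / 2) * δ * y) * (1 - δ)) by ring,
    show 1 / ((s * e) * ((1 - (1 - ε / 2) * δ * y) * (1 - δ))) =
      1 / (s * e) * (1 / ((1 - (1 - ε / 2) * δ * y) * (1 - δ))) by
        rw [one_div_mul_one_div]]
  apply mul_le_mul_of_nonneg_left _ (by positivity)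
  rw [le_div_iff₀ (by positivity)]
  have k1 : (1 + δ * (1 + γ + r * y)) * (1 - δ) ≤ 1 + δ * (γ + r * y) := by
    nlinarith [mul_pos hδ hδ, mul_nonneg (mul_nonneg hδ.le hδ.le) (add_nonneg hγ0 (mul_nonneg hr0 hy0.le))]
  have k2 : (1 + δ * (γ + r * y)) * (1 - (1 - ε / 2) * δ * y) ≤ 1 := by
    have h1 : γ + r * y ≤ (1 - ε / 2) * y := by nlinarith
    have h2 : 0 ≤ γ + r * y := by positivity
    have h3 : 0 ≤ (1 - ε / 2) * δ * y * (δ * (γ + r * y)) := by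
      have : 0 ≤ 1 - ε / 2 := by linarith
      positivity
    nlinarith
  calc (1 + δ * (1 + γ + r * y)) * ((1 - (1 - ε / 2) * δ * y) * (1 - δ)) =
      ((1 + δ * (1 + γ + r * y)) * (1 - δ)) * (1 - (1 - ε / 2) * δ * y) := by ring
    _ ≤ (1 + δ * (γ + r * y)) * (1 - (1 - ε / 2) * δ * y) :=
        mul_le_mul_of_nonneg_right k1 hz.le
    _ ≤ 1 := k2

/-- bounds for `ρ` -/
private theorem coreRho (ε e b s : ℝ) (hε : 0 < ε) (hε1 : ε ≤ 1 / 2)
    (he : 0 < e) (hes : e ≤ s) (hb0 : 0 ≤ b) (hb : b ≤ 1 + ε / 32) :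
    0 ≤ (1 - ε) * (e * b) ^ 2 * (1 / (s * e)) ∧
    (1 - ε) * (e * b) ^ 2 * (1 / (s * e)) ≤ (1 - ε / 2) * (e / s) ∧ e / s ≤ 1 := by
  have hs : 0 < s := he.trans_le hes
  have hr : (1 - ε) * b ^ 2 ≤ 1 - 3 * ε / 4 := by
    have h1 : b ^ 2 ≤ (1 + ε / 32) ^ 2 := pow_le_pow_left₀ hb0 hb 2
    have h2 := mul_le_mul_of_nonneg_left h1 (show (0:ℝ) ≤ 1 - ε by linarith)
    have h3 : ε ^ 2 ≤ ε * (1 / 2) := by rw [sq]; exact mul_le_mul_of_nonneg_left hε1 hε.le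
    have h4 : 0 < ε ^ 3 := by positivity
    have h5 : 0 < ε ^ 2 := by positivity
    nlinarith
  have hr0 : 0 ≤ (1 - ε) * b ^ 2 := by
    have : 0 ≤ 1 - ε := by linarith
    positivity
  have e1 : (1 - ε) * (e * b) ^ 2 * (1 / (s * e)) = (1 - ε) * b ^ 2 * (e / s) := by
    field_simp
  have hy0 : 0 ≤ e / s := by positivity
  rw [e1]
  refine ⟨by positivity, ?_, by rw [div_le_one hs]; exact hes⟩
  apply mul_le_mul_of_nonneg_right _ hy0
  linarith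

/-- the inequality for `q` in the second phase -/
private theorem coreQ (ε δ η e s ρ : ℝ) (hε : 0 < ε) (hε1 : ε ≤ 1 / 2) (hδ : 0 < δ) (hδ1 : δ ≤ 1 / 200)
    (hη : 0 < η) (he : η ≤ e) (hs1 : s ≤ 1) (hes : e ≤ s) (hsε : ε / 2 ≤ s)
    (hρ1 : ρ ≤ (1 - ε / 2) * (e / s)) (hδ2 : 10000 * δ ≤ η * ε ^ 3) :
    (s - (1 - ε / 2) * δ * e) ^ 3 / 200 ≤ (1 - 2 * δ * ρ) * (s ^ 3 / 200) - δ ^ 3 := by
  have he0 : 0 < e := hη.trans_le he
  have hs : 0 < s := he0.trans_le hes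
  obtain ⟨y, hy⟩ : ∃ y, y = e / s := ⟨_, rfl⟩
  rw [← hy] at hρ1
  have hy0 : 0 < y := by rw [hy]; positivity
  have hy1 : y ≤ 1 := by rw [hy, div_le_one hs]; exact hes
  have hye : e ≤ y := by
    rw [hy, le_div_iff₀ hs]; nlinarith
  have hes2 : e = y * s := by rw [hy]; field_simp
  obtain ⟨z, hz⟩ : ∃ z, z = (1 - ε / 2) * δ * y := ⟨_, rfl⟩
  have hz1 : z ≤ 1 / 200 := by
    have h1 : (1 - ε / 2) * δ * y ≤ 1 * (1 / 200) * 1 := by
      apply mul_le_mul _ hy1 hy0.le (by norm_num)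
      apply mul_le_mul (by linarith) hδ1 hδ.le (by norm_num)
    rw [hz]; linarith
  have hz0 : 3 / 4 * δ * η ≤ z := by
    rw [hz]
    apply mul_le_mul _ (he.trans hye) hη.le
    · have : 0 ≤ 1 - ε / 2 := by linarith
      positivity
    · apply mul_le_mul_of_nonneg_right _ hδ.le
      linarith
  have hz00 : 0 ≤ z := le_trans (by positivity) hz0
  have hs3 : (s - (1 - ε / 2) * δ * e) ^ 3 = s ^ 3 * (1 - z) ^ 3 := by
    rw [hes2, hz]; ring
  rw [hs3]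
  have h1 : (1 - z) ^ 3 ≤ 1 - 29 / 10 * z := by nlinarith [mul_nonneg hz00 hz00, mul_nonneg (mul_nonneg hz00 hz00) hz00]
  have h2 : 2 * δ * ρ ≤ 2 * z := by rw [hz]; nlinarith
  have h3 : ε ^ 3 / 8 ≤ s ^ 3 := by
    have := pow_le_pow_left₀ (by positivity) hsε 3
    calc ε ^ 3 / 8 = (ε / 2) ^ 3 := by ring
      _ ≤ _ := this
  have h4 : 0 < s ^ 3 := by positivity
  have h5 : 200 * δ ^ 3 ≤ 9 / 10 * z * s ^ 3 := by
    have h6 : 9 / 10 * (3 / 4 * δ * η) * (ε ^ 3 / 8) ≤ 9 / 10 * z * s ^ 3 := by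
      apply mul_le_mul _ h3 (by positivity) (by positivity)
      linarith
    have h7 : δ ^ 3 ≤ δ * (δ * (1 / 200)) := by
      have : δ ^ 3 = δ * (δ * δ) := by ring
      rw [this]
      apply mul_le_mul_of_nonneg_left _ hδ.le
      exact mul_le_mul_of_nonneg_left hδ1 hδ.le
    have h8 : δ * (10000 * δ) ≤ δ * (η * ε ^ 3) := mul_le_mul_of_nonneg_left hδ2 hδ.le
    nlinarith
  have h6 : s ^ 3 * (1 - z) ^ 3 ≤ s ^ 3 * (1 - 29 / 10 * z) := mul_le_mul_of_nonneg_left h1 h4.le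
  have h7 : (1 - 2 * z) * s ^ 3 ≤ (1 - 2 * δ * ρ) * s ^ 3 := by
    apply mul_le_mul_of_nonneg_right _ h4.le
    linarith
  nlinarith

private theorem coreA (δ γ Γ Y η e b : ℝ) (hδ : 0 < δ) (hδ1 : δ ≤ 1 / 200)
    (hη : 0 < η) (he : η ≤ e) (hb0 : 0 ≤ b) (hb : b ≤ 2)
    (hγ : γ ≤ Γ * δ) (hΓ : 0 ≤ Γ) (hY : Y = 2 * (2 * Γ + 2 + 1 / η)) :
    (1 - δ * (1 - γ) + δ ^ 2) * (e * b) + δ ^ 3 ≤ (1 - δ) * e * (b + Y * δ ^ 2) := by
  have he0 : 0 < e := hη.trans_le he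
  have hη' : 0 < 1 / η := by positivity
  have h1 : δ * γ + δ ^ 2 ≤ (Γ + 1) * δ ^ 2 := by nlinarith
  have h2 : (δ * γ + δ ^ 2) * (e * b) ≤ (Γ + 1) * δ ^ 2 * (e * 2) := by
    refine (mul_le_mul_of_nonneg_right h1 (by positivity)).trans ?_
    apply mul_le_mul_of_nonneg_left _ (by positivity)
    exact mul_le_mul_of_nonneg_left hb he0.le
  have h3 : δ ^ 3 ≤ e * ((1 / η) * δ ^ 2) := by
    have h4 : 1 ≤ e * (1 / η) := by
      rw [mul_one_div, le_div_iff₀ hη]; linarith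
    have h5 : δ ^ 3 ≤ δ ^ 2 := by
      have : δ ^ 3 = δ ^ 2 * δ := by ring
      rw [this]
      exact mul_le_of_le_one_right (by positivity) (by linarith)
    have h6 : 1 * δ ^ 2 ≤ e * (1 / η) * δ ^ 2 := mul_le_mul_of_nonneg_right h4 (by positivity)
    linarith
  have h4 : e * ((2 * Γ + 2 + 1 / η) * δ ^ 2) ≤ (1 - δ) * e * (Y * δ ^ 2) := by
    rw [hY]
    have h5 : 1 ≤ (1 - δ) * 2 := by linarith
    have h6 : 0 ≤ e * ((2 * Γ + 2 + 1 / η) * δ ^ 2) := by positivity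
    have h7 := mul_le_mul_of_nonneg_right h5 h6
    calc e * ((2 * Γ + 2 + 1 / η) * δ ^ 2) = 1 * (e * ((2 * Γ + 2 + 1 / η) * δ ^ 2)) := by ring
      _ ≤ _ := h7
      _ = _ := by ring
  have h5 : (1 - δ * (1 - γ) + δ ^ 2) * (e * b) = (1 - δ) * e * b + (δ * γ + δ ^ 2) * (e * b) := by
    ring
  have h6 : (1 - δ) * e * (b + Y * δ ^ 2) = (1 - δ) * e * b + (1 - δ) * e * (Y * δ ^ 2) := by ring
  rw [h5, h6]
  have h7 : e * ((2 * Γ + 2 + 1 / η) * δ ^ 2) = (Γ + 1) * δ ^ 2 * (e * 2) + e * ((1 / η) * δ ^ 2) := by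
    ring
  linarith

/-- the inequality for `q` in the first phase -/
private theorem coreQ1 (δ K0 ρ x : ℝ) (hδ : 0 < δ) (hδ1 : δ ≤ 1 / 200)
    (hK : K0 * δ ≤ 1 / 100) (h1 : ρ ≤ 1) (hx0 : 0 ≤ x) (hx : x ≤ 1 / 16) :
    (x + δ) / 10 ≤ (1 - 2 * δ * ρ) * (x / 10) - δ ^ 3 +
      ((6 / 10) * δ - δ ^ 3 - 20 * K0 * δ ^ 2 - 8 * δ ^ 2) := by
  have h2 : δ ^ 2 ≤ δ * (1 / 200) := by rw [sq]; exact mul_le_mul_of_nonneg_left hδ1 hδ.le
  have h3 : δ ^ 3 ≤ δ ^ 2 * (1 / 200) := by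
    have : δ ^ 3 = δ ^ 2 * δ := by ring
    rw [this]; exact mul_le_mul_of_nonneg_left hδ1 (by positivity)
  have h4 : δ * (K0 * δ) ≤ δ * (1 / 100) := mul_le_mul_of_nonneg_left hK hδ.le
  have h5 : 2 * δ * ρ * (x / 10) ≤ 2 * δ * 1 * ((1 / 16) / 10) := by
    have h6 : 2 * δ * ρ * (x / 10) ≤ 2 * δ * 1 * (x / 10) := by
      apply mul_le_mul_of_nonneg_right _ (by positivity)
      apply mul_le_mul_of_nonneg_left h1 (by positivity)
    have h7 : 2 * δ * 1 * (x / 10) ≤ 2 * δ * 1 * ((1 / 16) / 10) := by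
      apply mul_le_mul_of_nonneg_left _ (by positivity)
      linarith
    linarith
  nlinarith

/-- For every `ε ∈ (0,1/2]` there are parameters. Choice (see BEC_paper.md): `β = 1 - ε/2`,
`c = ε³/1600`, `η = c²/1000`, `K0 = 2 + 8/ε`, `e k = (1-δ)^k`, `t = 1 - e`,
`M = 1/(1 - β t) ≤ 2/ε`, `W = M/e`, `γ k = 11 K0² δ (1+4δ)^k`, `a k = e k (1+x)^k`,
`l k = 20 K0 δ² k`, `p k = 2δk`, `k1 = ⌊1/(16δ)⌋`, `q k = δk/10` for `k ≤ k1`,
`q k = (1-βt)³/200` for `k > k1`, `K` = least with `e K ≤ η`, `δ` small. -/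
theorem params (ε : ℝ) (h0 : 0 < ε) (h1 : ε ≤ 1 / 2) :
    ∃ (δ K0 Wm c η : ℝ) (k1 K : ℕ) (W γ a l p q : ℕ → ℝ),
      Seqs ε δ K0 Wm k1 K W γ a l p q ∧ 1 ≤ Wm ∧ 0 < c ∧ c ≤ 1 ∧ 0 < η ∧ 800 * η ≤ c ^ 2 ∧
      c ≤ q K ∧ a K + l K ≤ 3 * η := by
  obtain ⟨c, hc⟩ : ∃ c : ℝ, c = ε ^ 3 / 1600 := ⟨_, rfl⟩
  obtain ⟨η, hη⟩ : ∃ η : ℝ, η = c ^ 2 / 1000 := ⟨_, rfl⟩
  obtain ⟨K0, hK0⟩ : ∃ K0 : ℝ, K0 = 2 + 8 / ε := ⟨_, rfl⟩
  have hc0 : 0 < c := by rw [hc]; positivity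
  have hε3 : ε ^ 3 ≤ 1 / 8 := by
    have := pow_le_pow_left₀ h0.le h1 3
    calc ε ^ 3 ≤ (1 / 2) ^ 3 := this
      _ = 1 / 8 := by norm_num
  have hc1 : c ≤ 1 / 12800 := by rw [hc]; linarith
  have hη0 : 0 < η := by rw [hη]; positivity
  have hη1 : η ≤ 1 / 1000 := by
    rw [hη]
    have : c ^ 2 ≤ 1 := pow_le_one₀ hc0.le (by linarith)
    linarith
  have hK2 : 2 ≤ K0 := by rw [hK0]; have : 0 < 8 / ε := by positivity
                          linarith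
  obtain ⟨Γ, hΓ⟩ : ∃ Γ : ℝ, Γ = 11 * K0 ^ 2 / η ^ 4 := ⟨_, rfl⟩
  have hΓ0 : 0 ≤ Γ := by rw [hΓ]; positivity
  obtain ⟨Y, hY⟩ : ∃ Y : ℝ, Y = 2 * (2 * Γ + 2 + 1 / η) := ⟨_, rfl⟩
  have hY0 : 0 ≤ Y := by rw [hY]; positivity
  obtain ⟨δ, hδ, s1, s2, s3, s4, s5, s6, -⟩ := small 200 K0 Γ (2 / η * Y) 10000 (40 * K0 / η) 0
    1 (1 / 100) (ε * η / 4) (ε / 32) (η * ε ^ 3) η 1 one_pos (by norm_num) (by positivity)
    (by positivity) (by positivity) hη0 one_pos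
  have hδ1 : δ ≤ 1 / 200 := by linarith
  obtain ⟨e, he⟩ : ∃ e : ℕ → ℝ, e = fun k => (1 - δ) ^ k := ⟨_, rfl⟩
  have hd0 : 0 < 1 - δ := by linarith
  have e0 : ∀ k, 0 < e k := fun k => by rw [he]; positivity
  have e1 : ∀ k, e k ≤ 1 := fun k => by
    rw [he]; exact pow_le_one₀ hd0.le (by linarith)
  have es : ∀ k, e (k + 1) = (1 - δ) * e k := fun k => by
    rw [he]; simp only; rw [pow_succ]; ring
  obtain ⟨s, hs⟩ : ∃ s : ℕ → ℝ, s = fun k => 1 - (1 - ε / 2) * (1 - e k) := ⟨_, rfl⟩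
  have ss : ∀ k, s (k + 1) = s k - (1 - ε / 2) * δ * e k := fun k => by
    rw [hs]; simp only; rw [es]; ring
  have sle : ∀ k, s k ≤ 1 := fun k => by
    rw [hs]; simp only
    have := e1 k
    have h2 : 0 ≤ (1 - ε / 2) * (1 - e k) := mul_nonneg (by linarith) (by linarith)
    linarith
  have ese : ∀ k, e k ≤ s k := fun k => by
    rw [hs]; simp only
    have := e1 k
    nlinarith
  have sε : ∀ k, ε / 2 ≤ s k := fun k => by
    rw [hs]; simp only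
    have := e0 k
    nlinarith
  have hex : ∃ k, e k ≤ η := by
    obtain ⟨n, hn⟩ := exists_pow_lt_of_lt_one hη0 (show 1 - δ < 1 by linarith)
    exact ⟨n, by rw [he]; exact hn.le⟩
  obtain ⟨K, hKe, hKm⟩ : ∃ K, e K ≤ η ∧ ∀ k < K, η < e k := by
    classical
    refine ⟨Nat.find hex, Nat.find_spec hex, fun k hk => ?_⟩
    exact not_le.mp (Nat.find_min hex hk)
  have hkd : ∀ k < K, k * δ ≤ 1 / η := by
    intro k hk
    have h2 := hKm k hk
    have h3 : 1 + (k : ℝ) * δ ≤ (1 + δ) ^ k := one_add_mul_le_pow (by linarith) k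
    have h4 : e k * (1 + (k : ℝ) * δ) ≤ 1 := by
      calc e k * (1 + (k : ℝ) * δ) ≤ e k * (1 + δ) ^ k := mul_le_mul_of_nonneg_left h3 (e0 k).le
        _ = ((1 - δ) * (1 + δ)) ^ k := by rw [he]; simp only; rw [mul_pow]
        _ ≤ 1 := pow_le_one₀ (by nlinarith) (by nlinarith)
    rw [le_div_iff₀ hη0]
    have h5 : 0 ≤ (k : ℝ) * δ := by positivity
    have h6 : (k : ℝ) * δ * η ≤ (k : ℝ) * δ * e k := mul_le_mul_of_nonneg_left h2.le h5
    have h7 := e0 k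
    nlinarith
  have hkd2 : ∀ k ≤ K, k * δ ≤ 2 / η := by
    intro k hk
    have h2 : 1 ≤ 1 / η := by rw [le_div_iff₀ hη0]; linarith
    have h3 : 2 / η = 1 / η + 1 / η := by ring
    rcases Nat.lt_or_ge k K with h | h
    · have := hkd k h
      rw [h3]; linarith
    · rcases Nat.eq_zero_or_pos k with h4 | h4
      · subst h4; simp; positivity
      · have h5 := hkd (k - 1) (by omega)
        have h6 : ((k - 1 : ℕ) : ℝ) = (k : ℝ) - 1 := by
          rw [Nat.cast_sub h4]; simp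
        rw [h6] at h5
        rw [h3]; nlinarith
  obtain ⟨b, hb⟩ : ∃ b : ℕ → ℝ, b = fun k : ℕ => 1 + (k : ℝ) * (Y * δ ^ 2) := ⟨_, rfl⟩
  have b0 : ∀ k, 0 ≤ b k := fun k => by rw [hb]; positivity
  have b1 : ∀ k ≤ K, b k ≤ 1 + ε / 32 := by
    intro k hk
    rw [hb]
    have h2 := hkd2 k hk
    have h3 : (k : ℝ) * δ * (Y * δ) ≤ 2 / η * (Y * δ) := mul_le_mul_of_nonneg_right h2 (by positivity)
    simp only
    nlinarith
  have bs : ∀ k, b (k + 1) = b k + Y * δ ^ 2 := fun k => by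
    rw [hb]; simp only; push_cast; ring
  obtain ⟨g, hg⟩ : ∃ g : ℕ → ℝ, g = fun k => 11 * K0 ^ 2 * δ * (1 + 4 * δ) ^ k := ⟨_, rfl⟩
  have g0 : ∀ k, 0 ≤ g k := fun k => by rw [hg]; positivity
  have g1 : ∀ k < K, g k ≤ Γ * δ := by
    intro k hk
    have h2 : (1 + 4 * δ) ^ k * (e k) ^ 4 ≤ 1 := by
      have h3 : (1 + 4 * δ) * (1 - δ) ^ 4 ≤ 1 := by
        have h4 : 0 < δ ^ 2 := by positivity
        have h5 : δ ^ 3 ≤ δ ^ 2 * (1 / 200) := by
          have : δ ^ 3 = δ ^ 2 * δ := by ring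
          rw [this]; exact mul_le_mul_of_nonneg_left hδ1 (by positivity)
        have h6 : δ ^ 5 ≤ δ ^ 2 * (1 / 200) := by
          have h7 : δ ^ 5 = δ ^ 3 * δ ^ 2 := by ring
          have h8 : δ ^ 2 ≤ 1 := pow_le_one₀ hδ.le (by linarith)
          rw [h7]
          have h9 : 0 < δ ^ 3 := by positivity
          nlinarith
        have h7 : 0 < δ ^ 4 := by positivity
        have h8 : 0 < δ ^ 3 := by positivity
        nlinarith
      calc (1 + 4 * δ) ^ k * (e k) ^ 4 = ((1 + 4 * δ) * (1 - δ) ^ 4) ^ k := by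
            rw [he]; simp only; rw [mul_pow, ← pow_mul, ← pow_mul, Nat.mul_comm]
        _ ≤ 1 := pow_le_one₀ (by positivity) h3
    have h3 : η ^ 4 ≤ (e k) ^ 4 := pow_le_pow_left₀ hη0.le (hKm k hk).le 4
    have h4 : (1 + 4 * δ) ^ k * η ^ 4 ≤ 1 :=
      (mul_le_mul_of_nonneg_left h3 (by positivity)).trans h2
    have h5 : (1 + 4 * δ) ^ k ≤ 1 / η ^ 4 := by
      rw [le_div_iff₀ (by positivity)]; exact h4
    rw [hg, hΓ]
    simp only
    calc 11 * K0 ^ 2 * δ * (1 + 4 * δ) ^ k ≤ 11 * K0 ^ 2 * δ * (1 / η ^ 4) :=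
          mul_le_mul_of_nonneg_left h5 (by positivity)
      _ = _ := by ring
  have g2 : ∀ k < K, g k ≤ ε * e k / 4 := by
    intro k hk
    have h2 := g1 k hk
    have h3 := hKm k hk
    nlinarith
  have g3 : ∀ k < K, g k ≤ 1 / 50 := by
    intro k hk
    have h2 := g2 k hk
    have h3 := g1 k hk
    nlinarith
  obtain ⟨k1, hk1a, hk1b⟩ : ∃ k1 : ℕ, (k1 : ℝ) * δ ≤ 1 / 16 ∧ 1 / 16 < ((k1 : ℝ) + 1) * δ := by
    refine ⟨⌊1 / (16 * δ)⌋₊, ?_, ?_⟩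
    · have h2 := Nat.floor_le (show 0 ≤ 1 / (16 * δ) by positivity)
      have h3 := mul_le_mul_of_nonneg_right h2 hδ.le
      calc _ ≤ 1 / (16 * δ) * δ := h3
        _ = 1 / 16 := by field_simp
    · have h2 := Nat.lt_floor_add_one (1 / (16 * δ))
      have h3 := mul_lt_mul_of_pos_right h2 hδ
      calc (1 / 16 : ℝ) = 1 / (16 * δ) * δ := by field_simp
        _ < _ := h3
  obtain ⟨q, hq⟩ : ∃ q : ℕ → ℝ, q = fun k => if k ≤ k1 then δ * k / 10 else (s k) ^ 3 / 200 :=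
    ⟨_, rfl⟩
  have hKk1 : k1 < K := by
    by_contra hcon
    have hle : K ≤ k1 := not_lt.mp hcon
    have h2 : 1 + (K : ℝ) * (-δ) ≤ (1 + (-δ)) ^ K := one_add_mul_le_pow (by linarith) K
    have h3 : (1 + (-δ)) ^ K = e K := by rw [he]; simp only; congr 1
    rw [h3] at h2
    have h4 : (K : ℝ) * δ ≤ (k1 : ℝ) * δ := by
      apply mul_le_mul_of_nonneg_right _ hδ.le
      exact_mod_cast hle
    nlinarith
  have hrho : ∀ k < K, 0 ≤ (1 - ε) * (e k * b k) ^ 2 * (1 / (s k * e k)) ∧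
      (1 - ε) * (e k * b k) ^ 2 * (1 / (s k * e k)) ≤ (1 - ε / 2) * (e k / s k) ∧
      e k / s k ≤ 1 := fun k hk =>
    coreRho ε (e k) (b k) (s k) h0 h1 (e0 k) (ese k) (b0 k) (b1 k hk.le)
  have hrho1 : ∀ k < K, (1 - ε) * (e k * b k) ^ 2 * (1 / (s k * e k)) ≤ 1 := by
    intro k hk
    obtain ⟨h2, h3, h4⟩ := hrho k hk
    have h5 : 0 < e k / s k := div_pos (e0 k) ((e0 k).trans_le (ese k))
    nlinarith
  refine ⟨δ, K0, 1 / (ε / 2 * η), c, η, k1, K, fun k => 1 / (s k * e k), g, fun k => e k * b k,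
    fun k => 20 * K0 * δ ^ 2 * k, fun k => 2 * δ * k, q, ?_, ?_, hc0, by linarith, hη0, ?_, ?_, ?_⟩
  · refine
    { W0 := ?_, γ0 := g0 0, a0 := ?_, l0 := by simp, p0 := by simp, q0 := ?_, ε0 := h0, ε1 := h1,
      δ0 := hδ, δ1 := by linarith, K0' := hK2, δK := by linarith, W1 := ?_, Wm' := ?_,
      γ1 := fun k hk => ⟨g0 k, g3 k hk⟩, a1 := ?_, hκ := ?_, p1 := ?_, sW := ?_, sγ := ?_,
      sa := ?_, sl := ?_, sp := ?_, sq1 := ?_, sq2 := ?_ }
    · simp [hs, he]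
    · simp [he, hb]
    · simp [hq]
    · intro k _
      rw [le_div_iff₀ (mul_pos ((e0 k).trans_le (ese k)) (e0 k)), one_mul]
      exact mul_le_one₀ (sle k) (e0 k).le (e1 k)
    · intro k hk
      apply one_div_le_one_div_of_le (by positivity)
      exact mul_le_mul (sε k) (hKm k hk).le hη0.le ((e0 k).le.trans (ese k))
    · intro k hk
      refine ⟨mul_nonneg (e0 k).le (b0 k), ?_⟩
      have h2 := b1 k hk.le
      have h3 := b0 k
      have h4 := e1 k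
      have h5 : e k * b k ≤ 1 * b k := mul_le_mul_of_nonneg_right h4 h3
      linarith
    · intro k hk
      have h2 := hrho1 k hk
      have h3 := g3 k hk
      have h4 : 2 + 8 / ε = K0 := hK0.symm
      have h5 : 16 ≤ 8 / ε := by rw [le_div_iff₀ h0]; linarith
      linarith
    · intro k _ hk
      have h2 : (k : ℝ) ≤ k1 := by exact_mod_cast hk.le
      have h3 : (k : ℝ) * δ ≤ k1 * δ := mul_le_mul_of_nonneg_right h2 hδ.le
      linarith
    · intro k hk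
      have h2 := coreW ε δ (g k) (e k) (b k) (s k) h0 h1 hδ hδ1 (g0 k) (e0 k) (sle k) (ese k)
        (b0 k) (b1 k hk.le) (g2 k hk)
      rw [ss, es]
      exact h2
    · intro k _
      have h2 : 11 * K0 ^ 2 * δ ≤ g k := by
        rw [hg]
        simp only
        have h3 : (1:ℝ) ≤ (1 + 4 * δ) ^ k := one_le_pow₀ (by linarith)
        calc 11 * K0 ^ 2 * δ = 11 * K0 ^ 2 * δ * 1 := by ring
          _ ≤ _ := mul_le_mul_of_nonneg_left h3 (by positivity)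
      have h3 : g (k + 1) = (1 + 4 * δ) * g k := by
        rw [hg]; simp only; rw [pow_succ]; ring
      rw [h3]
      have h4 : δ * (11 * K0 ^ 2 * δ) ≤ δ * g k := mul_le_mul_of_nonneg_left h2 hδ.le
      have h5 : δ ^ 3 ≤ K0 ^ 2 * δ ^ 2 := by
        have h6 : δ ^ 3 = δ * δ ^ 2 := by ring
        rw [h6]
        apply mul_le_mul_of_nonneg_right _ (by positivity)
        nlinarith
      nlinarith
    · intro k hk
      have h2 := coreA δ (g k) Γ Y η (e k) (b k) hδ hδ1 hη0 (hKm k hk).le (b0 k)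
        (by have := b1 k hk.le; linarith) (g1 k hk) hΓ0 hY
      rw [es, bs]
      exact h2
    · intro k _
      push_cast
      apply le_of_eq; ring
    · intro k _
      push_cast
      apply le_of_eq; ring
    · intro k hk hk'
      have h2 : q k = δ * k / 10 := by rw [hq]; simp only; rw [if_pos hk'.le]
      have h3 : q (k + 1) = δ * ((k + 1 : ℕ) : ℝ) / 10 := by rw [hq]; simp only; rw [if_pos (Nat.succ_le_of_lt hk')]
      have h4 : (k : ℝ) ≤ k1 := by exact_mod_cast hk'.le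
      have h5 : (k : ℝ) * δ ≤ k1 * δ := mul_le_mul_of_nonneg_right h4 hδ.le
      have h6 := coreQ1 δ K0 ((1 - ε) * (e k * b k) ^ 2 * (1 / (s k * e k))) (k * δ) hδ hδ1 s2
        (hrho1 k hk) (by positivity) (by linarith)
      rw [h2, h3]
      push_cast
      have h7 : δ * (k : ℝ) / 10 = (k : ℝ) * δ / 10 := by ring
      have h8 : δ * ((k : ℝ) + 1) / 10 = ((k : ℝ) * δ + δ) / 10 := by ring
      rw [h7, h8]
      exact h6
    · intro k hk hk'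
      have h3 : q (k + 1) = (s (k + 1)) ^ 3 / 200 := by
        rw [hq]; simp only; rw [if_neg (by omega)]
      have h4 : (s k) ^ 3 / 200 ≤ q k := by
        rcases Nat.lt_or_ge k1 k with h | h
        · rw [hq]; simp only; rw [if_neg (by omega)]
        · have h5 : k = k1 := le_antisymm h hk'
          rw [hq]; simp only; rw [if_pos h, h5]
          have h6 : (s k1) ^ 3 ≤ 1 := pow_le_one₀ ((e0 k1).le.trans (ese k1)) (sle k1)
          nlinarith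
      have h5 := coreQ ε δ η (e k) (s k) ((1 - ε) * (e k * b k) ^ 2 * (1 / (s k * e k))) h0 h1 hδ
        hδ1 hη0 (hKm k hk).le (sle k) (ese k) (sε k) (hrho k hk).2.1 s5
      rw [h3, ss]
      refine h5.trans ?_
      have h6 : 0 ≤ 1 - 2 * δ * ((1 - ε) * (e k * b k) ^ 2 * (1 / (s k * e k))) := by
        have h7 := hrho1 k hk
        have h8 := (hrho k hk).1
        nlinarith
      have h7 := mul_le_mul_of_nonneg_left h4 h6
      linarith
  · rw [le_div_iff₀ (by positivity), one_mul]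
    nlinarith
  · rw [hη]
    have : 0 ≤ c ^ 2 := by positivity
    linarith
  · have h2 : q K = (s K) ^ 3 / 200 := by
      rw [hq]; simp only; rw [if_neg (by omega)]
    rw [h2, hc]
    have h3 := pow_le_pow_left₀ (by positivity) (sε K) 3
    have h4 : (ε / 2) ^ 3 = ε ^ 3 / 8 := by ring
    rw [h4] at h3
    linarith
  · simp only
    have h2 : e K * b K ≤ η * (1 + ε / 32) :=
      mul_le_mul hKe (b1 K le_rfl) (b0 K) hη0.le
    have h3 := hkd2 K le_rfl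
    have h4 : 20 * K0 * δ ^ 2 * (K : ℝ) ≤ 20 * K0 * δ * (2 / η) := by
      calc 20 * K0 * δ ^ 2 * (K : ℝ) = 20 * K0 * δ * (K * δ) := by ring
        _ ≤ _ := mul_le_mul_of_nonneg_left h3 (by positivity)
    have h5 : 20 * K0 * δ * (2 / η) = 40 * K0 / η * δ := by ring
    rw [h5] at h4
    nlinarith

end Pool.Agent.Helper5.BEC
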