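import Pool.Agent.Helper5.BEC.St.T1
import Pool.Agent.Helper5.BEC.St.B1
/-! Piece R1: rows. -/
set_option autoImplicit false
namespace Pool.Agent.Helper5.BEC
open Finset Pool.Agent.Helper61.LE

variable {n : ℕ} {A B : Nb n} {ε D1 D2 D δ K0 W γ a ρ l p q : ℝ} {S : St n}

open Classical in
/-- the event of `rowv` at `z` -/
theorem R1_ev (v z : Fin n) (ω : Fin n → Option (Fin n)) :
    ((∀ u, u ≠ v → ω u ≠ some z) ∧ nok A B ω v z) ↔
      ∀ u ∈ univ.erase v, ∀ z' ∈ (if u ∈ A.N v then insert z (B.N z) else {z}), ω u ≠ some z' := by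
  constructor
  · rintro ⟨h1, h2⟩ u hu z' hz'
    have huv : u ≠ v := Finset.ne_of_mem_erase hu
    split_ifs at hz' with hN
    · rcases Finset.mem_insert.1 hz' with rfl | hz'
      · exact h1 u huv
      · exact h2 u hN z' hz'
    · rw [Finset.mem_singleton] at hz'
      rw [hz']
      exact h1 u huv
  · intro h
    refine ⟨fun u huv => h u (Finset.mem_erase.2 ⟨huv, Finset.mem_univ _⟩) z ?_, ?_⟩
    · split_ifs
      · exact Finset.mem_insert_self _ _
      · exact Finset.mem_singleton_self _
    · intro u hu z' hz'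
      have huv : u ≠ v := fun h => A.irr v (h ▸ hu)
      refine h u (Finset.mem_erase.2 ⟨huv, Finset.mem_univ _⟩) z' ?_
      rw [if_pos hu]
      exact Finset.mem_insert_of_mem hz'

open Classical in
/-- the sum of the weights over `G u` -/
theorem R1_sumG (w : Fin n → Fin n → ℝ) (v z u : Fin n) :
    ∑ z' ∈ (if u ∈ A.N v then insert z (B.N z) else {z}), w u z' =
      w u z + if u ∈ A.N v then ∑ z' ∈ B.N z, w u z' else 0 := by
  split_ifs
  · rw [Finset.sum_insert (B.irr z)]
  · rw [Finset.sum_singleton, add_zero]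

open Classical in
theorem R1_sumX (w : Fin n → Fin n → ℝ) (v z : Fin n) :
    ∑ u ∈ univ.erase v, δ * (w u z + if u ∈ A.N v then ∑ z' ∈ B.N z, w u z' else 0) =
      δ * kap A B w v z := by
  rw [← Finset.mul_sum, Finset.sum_add_distrib, ← Finset.sum_filter]
  unfold kap rho
  congr 3
  ext u
  simp only [Finset.mem_filter, Finset.mem_erase, Finset.mem_univ, and_true]
  constructor
  · exact fun h => h.2
  · exact fun h => ⟨fun h' => A.irr v (h' ▸ h), h⟩

/-- the probability of the event of `rowv` at `z` -/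
theorem R1_prob (hN : Num n ε D1 D2 δ K0 W γ a ρ) (hI : Inv A B D1 D2 W γ a l p q S)
    (v z : Fin n) :
    1 - δ * kap A B S.w v z ≤
      PP (mu δ S.w) (fun ω => (∀ u, u ≠ v → ω u ≠ some z) ∧ nok A B ω v z) ∧
    PP (mu δ S.w) (fun ω => (∀ u, u ≠ v → ω u ≠ some z) ∧ nok A B ω v z) ≤
      1 - δ * kap A B S.w v z + (δ * kap A B S.w v z) ^ 2 / 2 := by
  classical
  have h1 : PP (mu δ S.w) (fun ω => (∀ u, u ≠ v → ω u ≠ some z) ∧ nok A B ω v z) =
      ∏ u ∈ univ.erase v, (1 - δ * (S.w u z + if u ∈ A.N v then ∑ z' ∈ B.N z, S.w u z' else 0)) := by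
    rw [PP_congr (fun ω => R1_ev v z ω), avoid_prob hN hI]
    refine Finset.prod_congr rfl fun u _ => ?_
    rw [R1_sumG]
  have hx0 : ∀ u ∈ univ.erase v,
      0 ≤ δ * (S.w u z + if u ∈ A.N v then ∑ z' ∈ B.N z, S.w u z' else 0) := by
    intro u _
    refine mul_nonneg hN.δ0.le (add_nonneg (hI.w0 u z) ?_)
    split_ifs
    · exact Finset.sum_nonneg fun z' _ => hI.w0 u z'
    · exact le_rfl
  have hX : δ * kap A B S.w v z ≤ 1 := by
    have h2 := kap_le hN hI v z
    have h3 := hN.hκ
    have h4 := hN.δK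
    have h5 : δ * kap A B S.w v z ≤ δ * K0 := mul_le_mul_of_nonneg_left (by linarith) hN.δ0.le
    linarith
  have hx1 : ∀ u ∈ univ.erase v,
      δ * (S.w u z + if u ∈ A.N v then ∑ z' ∈ B.N z, S.w u z' else 0) ≤ 1 := by
    intro u hu
    refine le_trans ?_ hX
    rw [← R1_sumX (A := A) (B := B) S.w v z]
    exact Finset.single_le_sum (f := fun u => δ * (S.w u z + if u ∈ A.N v then
      ∑ z' ∈ B.N z, S.w u z' else 0)) hx0 hu
  have h2 := prod_one_sub_ge (univ.erase v) _ hx0 hx1
  have h3 := prod_one_sub_le (univ.erase v) _ hx0 hx1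
  rw [R1_sumX (A := A) (B := B) S.w v z] at h2 h3
  rw [h1]
  exact ⟨h2, h3⟩

/-- Expectation of the row. The event in `rowv` at `z` is `no `u ≠ v` picks in `G u`` with
`G u = {z} ∪ N₂(z)` if `u ∈ N₁(v)` and `{z}` otherwise; its probability is `∏_{u≠v} (1 - x_u)` with
`∑ x_u = δ κ(v,z)` (`avoid_prob`, `B.irr`), so it lies in `[1-X, 1-X+X²/2]`, `X = δκ ≤ δ K0`, and
`(1+X)(1-X) = 1-X²`, `(1+X)(1-X+X²/2) ≤ 1 + X^3/2`. The row sum is at most `1+γ ≤ 2`. -/
theorem EE_row (hN : Num n ε D1 D2 δ K0 W γ a ρ) (hI : Inv A B D1 D2 W γ a l p q S) (v : Fin n) :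
    |EE (mu δ S.w) (fun ω => rowv A B δ S.w ω v) - ∑ z, S.w v z| ≤ 2 * δ ^ 2 * K0 ^ 2 := by
  classical
  have hE : EE (mu δ S.w) (fun ω => rowv A B δ S.w ω v) =
      ∑ z, S.w v z * (1 + δ * kap A B S.w v z) *
        PP (mu δ S.w) (fun ω => (∀ u, u ≠ v → ω u ≠ some z) ∧ nok A B ω v z) := by
    unfold rowv
    rw [EE_sum]
    refine Finset.sum_congr rfl fun z _ => ?_
    unfold PP
    rw [← EE_const_mul]
    refine EE_congr fun ω => ?_
    by_cases h : (∀ u, u ≠ v → ω u ≠ some z) ∧ nok A B ω v z
    · simp only [if_pos h, mul_one]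
    · simp only [if_neg h, mul_zero]
  rw [hE, ← Finset.sum_sub_distrib]
  refine (Finset.abs_sum_le_sum_abs _ _).trans ?_
  have hterm : ∀ z ∈ (univ : Finset (Fin n)), |S.w v z * (1 + δ * kap A B S.w v z) *
        PP (mu δ S.w) (fun ω => (∀ u, u ≠ v → ω u ≠ some z) ∧ nok A B ω v z) - S.w v z| ≤
      S.w v z * (δ ^ 2 * K0 ^ 2) := by
    intro z _
    obtain ⟨h1, h2⟩ := R1_prob hN hI v z
    set P := PP (mu δ S.w) (fun ω => (∀ u, u ≠ v → ω u ≠ some z) ∧ nok A B ω v z) with hP
    set X := δ * kap A B S.w v z with hXdef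
    have hX0 : 0 ≤ X := mul_nonneg hN.δ0.le (kap_nonneg hI v z)
    have hXK : X ≤ δ * K0 := by
      have h2 := kap_le hN hI v z
      have h3 := hN.hκ
      exact mul_le_mul_of_nonneg_left (by linarith) hN.δ0.le
    have hX1 : X ≤ 1 := by
      have := hN.δK
      linarith
    have hXX : X ^ 2 ≤ δ ^ 2 * K0 ^ 2 := by
      rw [← mul_pow]
      exact pow_le_pow_left₀ hX0 hXK 2
    have hw : 0 ≤ S.w v z := hI.w0 v z
    have e1 : S.w v z * (1 + X) * P - S.w v z = S.w v z * ((1 + X) * P - 1) := by ring
    rw [e1, abs_mul, abs_of_nonneg hw]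
    refine mul_le_mul_of_nonneg_left ?_ hw
    rw [abs_le]
    constructor
    · have : (1 + X) * (1 - X) ≤ (1 + X) * P := mul_le_mul_of_nonneg_left h1 (by linarith)
      nlinarith
    · have h3 : (1 + X) * P ≤ (1 + X) * (1 - X + X ^ 2 / 2) :=
        mul_le_mul_of_nonneg_left h2 (by linarith)
      have h4 : X ^ 3 ≤ X ^ 2 := by
        have : X ^ 3 = X ^ 2 * X := by ring
        rw [this]
        nlinarith [sq_nonneg X]
      nlinarith [sq_nonneg X]
  refine (Finset.sum_le_sum hterm).trans ?_
  rw [← Finset.sum_mul]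
  have h1 := rowsum_le hI hN.γ0 v
  have h2 : (∑ z, S.w v z) ≤ 2 := by
    have := hN.γ1
    linarith
  have h3 : 0 ≤ δ ^ 2 * K0 ^ 2 := by positivity
  nlinarith

open Classical in
/-- bounded differences of the row: comparison with the outcome in which `u` picks nothing -/
theorem R1_diff (hN : Num n ε D1 D2 δ K0 W γ a ρ) (hd : Deg A B D1 D2)
    (hI : Inv A B D1 D2 W γ a l p q S) (v u : Fin n) (ω : Fin n → Option (Fin n))
    (x : Option (Fin n)) :
    |rowv A B δ S.w (Function.update ω u x) v - rowv A B δ S.w (Function.update ω u none) v| ≤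
      if x = none then 0 else if u ∈ A.N v then 4 * W / D1 else 2 * W / n := by
  have hn0 : (0 : ℝ) < n := by exact_mod_cast hN.n1
  have hW0 : 0 < W := lt_of_lt_of_le one_pos hN.W1
  have hD10 : 0 < D1 := lt_of_lt_of_le one_pos hN.hD1
  by_cases hx : x = none
  · rw [if_pos hx, hx, sub_self, abs_zero]
  rw [if_neg hx]
  obtain ⟨y, rfl⟩ : ∃ y, x = some y := Option.ne_none_iff_exists'.1 hx
  -- value of a summand
  have hval : ∀ z, S.w v z * (1 + δ * kap A B S.w v z) ≤ 2 * W / n := by
    intro z
    have h1 := kap_le hN hI v z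
    have h3 := hN.hκ
    have h5 : δ * kap A B S.w v z ≤ δ * K0 := mul_le_mul_of_nonneg_left (by linarith) hN.δ0.le
    have h6 := hN.δK
    have h7 := hI.wW v z
    have h8 : 0 ≤ δ * kap A B S.w v z := mul_nonneg hN.δ0.le (kap_nonneg hI v z)
    calc S.w v z * (1 + δ * kap A B S.w v z) ≤ (W / n) * 2 :=
          mul_le_mul h7 (by linarith) (by linarith) (by positivity)
      _ = 2 * W / n := by ring
  have hval0 : ∀ z, 0 ≤ S.w v z * (1 + δ * kap A B S.w v z) := by
    intro z
    have h8 : 0 ≤ δ * kap A B S.w v z := mul_nonneg hN.δ0.le (kap_nonneg hI v z)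
    exact mul_nonneg (hI.w0 v z) (by linarith)
  -- the difference is supported on the killed positions
  set G : Finset (Fin n) := if u ∈ A.N v then insert y (B.N y) else {y} with hG
  have hkey : ∀ z, |(if (∀ u', u' ≠ v → (Function.update ω u (some y)) u' ≠ some z) ∧
        nok A B (Function.update ω u (some y)) v z then S.w v z * (1 + δ * kap A B S.w v z) else 0) -
      (if (∀ u', u' ≠ v → (Function.update ω u none) u' ≠ some z) ∧
        nok A B (Function.update ω u none) v z then S.w v z * (1 + δ * kap A B S.w v z) else 0)| ≤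
      if z ∈ G then 2 * W / n else 0 := by
    intro z
    -- if `u` picks `some y` and the event holds then it holds for `none`
    have himp : ((∀ u', u' ≠ v → (Function.update ω u (some y)) u' ≠ some z) ∧
        nok A B (Function.update ω u (some y)) v z) →
        ((∀ u', u' ≠ v → (Function.update ω u none) u' ≠ some z) ∧
        nok A B (Function.update ω u none) v z) := by
      rintro ⟨h1, h2⟩
      refine ⟨fun u' hu' => ?_, fun u' hu' z' hz' => ?_⟩
      · by_cases huu : u' = u
        · rw [huu, Function.update_self]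
          exact fun h => by cases h
        · have := h1 u' hu'
          rw [Function.update_of_ne huu] at this ⊢
          exact this
      · by_cases huu : u' = u
        · rw [huu, Function.update_self]
          exact fun h => by cases h
        · have := h2 u' hu' z' hz'
          rw [Function.update_of_ne huu] at this ⊢
          exact this
    by_cases hzG : z ∈ G
    · rw [if_pos hzG]
      have hv := hval z
      have hv0 := hval0 z
      split_ifs with h1 h2 h2
      · rw [sub_self, abs_zero]
        positivity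
      · exact absurd (himp h1) h2
      · rw [zero_sub, abs_neg, abs_of_nonneg hv0]
        exact hv
      · rw [sub_self, abs_zero]
        positivity
    · rw [if_neg hzG]
      have hiff : ((∀ u', u' ≠ v → (Function.update ω u (some y)) u' ≠ some z) ∧
        nok A B (Function.update ω u (some y)) v z) ↔
        ((∀ u', u' ≠ v → (Function.update ω u none) u' ≠ some z) ∧
        nok A B (Function.update ω u none) v z) := by
        refine ⟨himp, ?_⟩
        rintro ⟨h1, h2⟩
        refine ⟨fun u' hu' => ?_, fun u' hu' z' hz' => ?_⟩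
        · by_cases huu : u' = u
          · rw [huu, Function.update_self]
            intro h
            apply hzG
            have hyz : y = z := Option.some_injective _ h
            rw [hG, hyz]
            split_ifs
            · exact Finset.mem_insert_self _ _
            · exact Finset.mem_singleton_self _
          · have := h1 u' hu'
            rw [Function.update_of_ne huu] at this ⊢
            exact this
        · by_cases huu : u' = u
          · rw [huu, Function.update_self]
            intro h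
            apply hzG
            have hyz : y = z' := Option.some_injective _ h
            rw [huu] at hu'
            rw [hG, if_pos hu']
            apply Finset.mem_insert_of_mem
            rw [hyz]
            exact B.symm z' z hz'
          · have := h2 u' hu' z' hz'
            rw [Function.update_of_ne huu] at this ⊢
            exact this
      by_cases h1 : ((∀ u', u' ≠ v → (Function.update ω u none) u' ≠ some z) ∧
        nok A B (Function.update ω u none) v z)
      · rw [if_pos h1, if_pos (hiff.2 h1), sub_self, abs_zero]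
      · rw [if_neg h1, if_neg (fun h => h1 (hiff.1 h)), sub_self, abs_zero]
  have hsum : |rowv A B δ S.w (Function.update ω u (some y)) v -
      rowv A B δ S.w (Function.update ω u none) v| ≤ #G * (2 * W / n) := by
    unfold rowv
    rw [← Finset.sum_sub_distrib]
    refine (Finset.abs_sum_le_sum_abs _ _).trans ((Finset.sum_le_sum fun z _ => hkey z).trans ?_)
    rw [← Finset.sum_filter, Finset.filter_mem_eq_inter, Finset.univ_inter, Finset.sum_const,
      nsmul_eq_mul]
  refine hsum.trans ?_
  by_cases hu : u ∈ A.N v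
  · rw [if_pos hu]
    have hGc : (#G : ℝ) ≤ 2 * D2 := by
      rw [hG, if_pos hu]
      have h1 : #(insert y (B.N y)) ≤ #(B.N y) + 1 := Finset.card_insert_le _ _
      have h2 : (#(insert y (B.N y)) : ℝ) ≤ #(B.N y) + 1 := by exact_mod_cast h1
      have h3 := hd.dB y
      have h4 := hN.hD2
      linarith
    have hDn : D1 * D2 ≤ n := by
      have h1 := hN.hDD
      have h2 := hN.ε0
      nlinarith
    calc (#G : ℝ) * (2 * W / n) ≤ (2 * D2) * (2 * W / n) :=
          mul_le_mul_of_nonneg_right hGc (by positivity)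
      _ = 4 * W * D2 / n := by ring
      _ ≤ 4 * W / D1 := by
          rw [div_le_div_iff₀ hn0 hD10]
          have : 4 * W * (D1 * D2) ≤ 4 * W * n := mul_le_mul_of_nonneg_left hDn (by positivity)
          linarith
  · rw [if_neg hu]
    have hGc : #G = 1 := by
      rw [hG, if_neg hu, Finset.card_singleton]
    rw [hGc, Nat.cast_one, one_mul]

/-- Tail of the row: cost of a pick `(u,z)` is `2W/n` and `4W/D1` if `u ∈ N₁(v)`;
`m = 4W/D1`, `L = 12W`, `t = δ³`. (`(D2+1)/n ≤ 2/D1`; the killed `z'` are in `{z} ∪ N₂(z)`;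
`w (1+δκ) ≤ 2W/n`.) -/
theorem row_tail (hN : Num n ε D1 D2 δ K0 W γ a ρ) (hd : Deg A B D1 D2)
    (hI : Inv A B D1 D2 W γ a l p q S) (hD0 : 0 ≤ D) (hD : D ≤ D1) (v : Fin n) :
    PP (mu δ S.w) (fun ω => ¬ |rowv A B δ S.w ω v - ∑ z, S.w v z| ≤
      2 * δ ^ 2 * K0 ^ 2 + δ ^ 3) ≤ 2 * Real.exp (-(δ ^ 6 / (1000 * W ^ 2) * D)) := by
  classical
  have hn0 : (0 : ℝ) < n := by exact_mod_cast hN.n1
  have hW0 : 0 < W := lt_of_lt_of_le one_pos hN.W1
  have hD10 : 0 < D1 := lt_of_lt_of_le one_pos hN.hD1
  have hD20 : 0 < D2 := lt_of_lt_of_le one_pos hN.hD2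
  have hP := isProb_mu hN hI
  have hδ0 := hN.δ0
  set c : Fin n → Option (Fin n) → ℝ := fun u x =>
    if x = none then 0 else if u ∈ A.N v then 4 * W / D1 else 2 * W / n with hc
  have hD1n : D1 ≤ n := by
    have h1 := hN.hDD
    have h2 := hN.ε0
    have h3 := hN.hD2
    nlinarith
  have h2n : 2 * W / n ≤ 4 * W / D1 := by
    rw [div_le_div_iff₀ hn0 hD10]
    nlinarith
  have hc0 : ∀ u x, 0 ≤ c u x := by
    intro u x
    simp only [hc]
    split_ifs <;> positivity
  have hcm : ∀ u x, c u x ≤ 4 * W / D1 := by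
    intro u x
    simp only [hc]
    split_ifs
    · positivity
    · exact le_rfl
    · exact h2n
  have hL : ∑ u, ∑ x, mu δ S.w u x * c u x ≤ 12 * W := by
    have h1 : ∀ u ∈ (univ : Finset (Fin n)), ∑ x, mu δ S.w u x * c u x ≤
        2 * δ * (if u ∈ A.N v then 4 * W / D1 else 2 * W / n) := by
      intro u _
      rw [sum_mu (c u) (by simp [hc]) u]
      have h2 : ∀ z, δ * S.w u z * c u (some z) =
          (δ * (if u ∈ A.N v then 4 * W / D1 else 2 * W / n)) * S.w u z := by
        intro z
        simp only [hc]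
        rw [if_neg (by simp)]
        ring
      rw [Finset.sum_congr rfl fun z _ => h2 z, ← Finset.mul_sum]
      have h3 := rowsum_le hI hN.γ0 u
      have h4 := hN.γ1
      have h5 : 0 ≤ δ * (if u ∈ A.N v then 4 * W / D1 else 2 * W / n) := by
        refine mul_nonneg hδ0.le ?_
        split_ifs <;> positivity
      calc (δ * (if u ∈ A.N v then 4 * W / D1 else 2 * W / n)) * ∑ z, S.w u z
          ≤ (δ * (if u ∈ A.N v then 4 * W / D1 else 2 * W / n)) * 2 :=
            mul_le_mul_of_nonneg_left (by linarith) h5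
        _ = _ := by ring
    refine (Finset.sum_le_sum h1).trans ?_
    rw [← Finset.mul_sum]
    have h6 : ∑ u, (if u ∈ A.N v then 4 * W / D1 else 2 * W / (n : ℝ)) ≤ 6 * W := by
      have h7 : ∀ u ∈ (univ : Finset (Fin n)), (if u ∈ A.N v then 4 * W / D1 else 2 * W / (n : ℝ)) ≤
          (if u ∈ A.N v then 4 * W / D1 else 0) + 2 * W / n := by
        intro u _
        have : 0 ≤ 2 * W / (n : ℝ) := by positivity
        split_ifs <;> linarith
      refine (Finset.sum_le_sum h7).trans ?_
      rw [Finset.sum_add_distrib, ← Finset.sum_filter, Finset.filter_mem_eq_inter,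
        Finset.univ_inter, Finset.sum_const, Finset.sum_const, nsmul_eq_mul, nsmul_eq_mul,
        Finset.card_univ, Fintype.card_fin]
      have h8 : (#(A.N v) : ℝ) * (4 * W / D1) ≤ 4 * W := by
        calc (#(A.N v) : ℝ) * (4 * W / D1) ≤ D1 * (4 * W / D1) :=
              mul_le_mul_of_nonneg_right (hd.dA v) (by positivity)
          _ = 4 * W := by field_simp
      have h9 : (n : ℝ) * (2 * W / n) = 2 * W := by field_simp
      linarith
    have h10 := hN.δ1
    nlinarith
  have hdiff : ∀ u ω x y, |rowv A B δ S.w (Function.update ω u x) v -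
      rowv A B δ S.w (Function.update ω u y) v| ≤ c u x + c u y := by
    intro u ω x y
    have h1 := R1_diff hN hd hI v u ω x
    have h2 := R1_diff hN hd hI v u ω y
    have h3 : rowv A B δ S.w (Function.update ω u x) v - rowv A B δ S.w (Function.update ω u y) v =
        (rowv A B δ S.w (Function.update ω u x) v - rowv A B δ S.w (Function.update ω u none) v) -
        (rowv A B δ S.w (Function.update ω u y) v -
          rowv A B δ S.w (Function.update ω u none) v) := by ring
    rw [h3]
    exact (abs_sub _ _).trans (add_le_add h1 h2)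
  have ht := tail hP c (fun ω => rowv A B δ S.w ω v) (m := 4 * W / D1) (L := 12 * W) (t := δ ^ 3)
    hc0 hcm (by positivity) hL (by positivity) (by positivity)
    (by
      have h1 := hN.δ1
      have h2 := hN.W1
      have h3 : δ ^ 3 ≤ 1 := pow_le_one₀ hδ0.le (by linarith)
      linarith) hdiff
  refine (PP_mono hP (B := fun ω => δ ^ 3 ≤ |rowv A B δ S.w ω v -
    EE (mu δ S.w) (fun ω => rowv A B δ S.w ω v)|) ?_).trans (ht.trans ?_)
  · intro ω hω
    by_contra hlt
    apply hω
    rw [not_le] at hlt
    have h1 := EE_row hN hI v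
    have h2 : rowv A B δ S.w ω v - ∑ z, S.w v z =
        (rowv A B δ S.w ω v - EE (mu δ S.w) (fun ω => rowv A B δ S.w ω v)) +
        (EE (mu δ S.w) (fun ω => rowv A B δ S.w ω v) - ∑ z, S.w v z) := by ring
    rw [h2]
    refine (abs_add_le _ _).trans ?_
    linarith
  · refine mul_le_mul_of_nonneg_left (Real.exp_le_exp.2 ?_) (by norm_num)
    apply neg_le_neg
    have h1 : (δ ^ 3) ^ 2 / (16 * (4 * W / D1) * (12 * W)) = δ ^ 6 / (768 * W ^ 2) * D1 := by
      field_simp
      ring
    rw [h1]
    have h2 : δ ^ 6 / (1000 * W ^ 2) ≤ δ ^ 6 / (768 * W ^ 2) := by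
      apply div_le_div_of_nonneg_left (by positivity) (by positivity)
      nlinarith [sq_nonneg W]
    exact mul_le_mul h2 hD hD0 (by positivity)

end Pool.Agent.Helper5.BEC
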